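import Mathlib

set_option autoImplicit false

/-!
# Ellentuck's theorem and the Ramsey property of analytic sets

All sets obtained by the Souslin operation from Ellentuck closed sets are completely Ramsey.
-/

namespace Pool.Agent.H38R3.Ell

/-- The part of `Y` above all elements of the finite set `t`. -/
def above (t : Finset ℕ) (Y : Set ℕ) : Set ℕ := {n | n ∈ Y ∧ ∀ m ∈ t, m < n}

/-- The basic Ellentuck set `[t, Y]`. -/
def Nb (t : Finset ℕ) (Y : Set ℕ) : Set (Set ℕ) :=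
  {z | z.Infinite ∧ (∀ n ∈ t, n ∈ z) ∧ ∀ n ∈ z, n ∈ t ∨ n ∈ above t Y}

theorem above_mono {t : Finset ℕ} {Y Y' : Set ℕ} (h : Y' ⊆ Y) : above t Y' ⊆ above t Y :=
  fun _ hn => ⟨h hn.1, hn.2⟩

theorem above_subset {t : Finset ℕ} {Y : Set ℕ} : above t Y ⊆ Y := fun _ hn => hn.1

theorem above_empty {Y : Set ℕ} : above ∅ Y = Y := by
  ext n; simp [above]

theorem Nb_mono {t : Finset ℕ} {Y Y' : Set ℕ} (h : Y' ⊆ Y) : Nb t Y' ⊆ Nb t Y :=
  fun _ hz => ⟨hz.1, hz.2.1, fun n hn => (hz.2.2 n hn).imp id fun h' => above_mono h h'⟩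

theorem above_infinite {t : Finset ℕ} {Y : Set ℕ} (h : Y.Infinite) : (above t Y).Infinite := by
  have h1 : (Y \ (Set.Iic (t.sup id))).Infinite := h.sdiff (Set.finite_Iic _)
  refine h1.mono ?_
  rintro n ⟨hn, hn'⟩
  refine ⟨hn, fun m hm => ?_⟩
  have : m ≤ t.sup id := Finset.le_sup (f := id) hm
  simp only [Set.mem_Iic, not_le] at hn'
  omega

theorem Nb_above {u s : Finset ℕ} {Y : Set ℕ} (h : u ⊆ s) : Nb s (above u Y) = Nb s Y := by
  refine Set.Subset.antisymm (Nb_mono above_subset) ?_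
  intro z hz
  refine ⟨hz.1, hz.2.1, fun n hn => (hz.2.2 n hn).imp id fun h' => ?_⟩
  exact ⟨⟨h'.1, fun m hm => h'.2 m (h hm)⟩, h'.2⟩

theorem Nb_self {t : Finset ℕ} {Y z : Set ℕ} (hz : z ∈ Nb t Y) : z ∈ Nb t z :=
  ⟨hz.1, hz.2.1, fun n hn => (hz.2.2 n hn).imp id fun h' => ⟨hn, h'.2⟩⟩

theorem Nb_sub_of_mem {t : Finset ℕ} {Y z : Set ℕ} (hz : z ∈ Nb t Y) : Nb t z ⊆ Nb t Y := by
  intro w hw
  refine ⟨hw.1, hw.2.1, fun n hn => ?_⟩
  rcases hw.2.2 n hn with h | h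
  · exact Or.inl h
  · rcases hz.2.2 n h.1 with h' | h'
    · exact Or.inl h'
    · exact Or.inr h'

/-- The canonical element of `[t, Y]`. -/
theorem Nb_nonempty {t : Finset ℕ} {Y : Set ℕ} (h : Y.Infinite) : ∃ z, z ∈ Nb t Y := by
  refine ⟨(t : Set ℕ) ∪ above t Y, ((above_infinite h).mono Set.subset_union_right),
    fun n hn => Or.inl hn, fun n hn => ?_⟩
  rcases hn with hn | hn
  · exact Or.inl hn
  · exact Or.inr hn

/-- A long initial segment. -/
theorem exists_init {z : Set ℕ} (hz : z.Infinite) (N k : ℕ) :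
    ∃ s : Finset ℕ, z ∈ Nb s z ∧ (∀ n ∈ z, n < N → n ∈ s) ∧ (∀ n ∈ s, n ∈ z) ∧ k ≤ s.card := by
  classical
  obtain ⟨F, hF1, hF2⟩ := hz.exists_subset_card_eq k
  set M := max N (F.sup id + 1) with hM
  refine ⟨(Finset.range M).filter (· ∈ z), ⟨hz, ?_, ?_⟩, ?_, ?_, ?_⟩
  · intro n hn
    exact (Finset.mem_filter.1 hn).2
  · intro n hn
    by_cases h : n < M
    · exact Or.inl (Finset.mem_filter.2 ⟨Finset.mem_range.2 h, hn⟩)
    · refine Or.inr ⟨hn, fun m hm => ?_⟩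
      have := Finset.mem_range.1 (Finset.mem_filter.1 hm).1
      omega
  · intro n hn hN
    exact Finset.mem_filter.2 ⟨Finset.mem_range.2 (lt_of_lt_of_le hN (le_max_left _ _)), hn⟩
  · intro n hn
    exact (Finset.mem_filter.1 hn).2
  · rw [← hF2]
    refine Finset.card_le_card fun n hn => Finset.mem_filter.2 ⟨Finset.mem_range.2 ?_, hF1 hn⟩
    have : n ≤ F.sup id := Finset.le_sup (f := id) hn
    have : F.sup id + 1 ≤ M := le_max_right _ _
    omega

section fusion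

variable (R : Finset ℕ → Set ℕ → Prop)

theorem fin_step (hmono : ∀ t Y Y', Y' ⊆ Y → R t Y → R t Y')
    (hdense : ∀ t Y, Y.Infinite → ∃ Y' ⊆ Y, Y'.Infinite ∧ R t Y') (t₀ : Finset ℕ)
    (U : Finset (Finset ℕ)) (X : Set ℕ) (hX : X.Infinite) :
    ∃ Y ⊆ X, Y.Infinite ∧ ∀ u ∈ U, R (t₀ ∪ u) Y := by
  classical
  induction U using Finset.induction_on with
  | empty => exact ⟨X, le_rfl, hX, by simp⟩
  | insert a s _ ih =>
    obtain ⟨Y, h1, h2, h3⟩ := ih
    obtain ⟨Y', h4, h5, h6⟩ := hdense (t₀ ∪ a) Y h2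
    refine ⟨Y', h4.trans h1, h5, fun u hu => ?_⟩
    rcases Finset.mem_insert.1 hu with rfl | hu
    · exact h6
    · exact hmono _ _ _ h4 (h3 u hu)

theorem fusion (hmono : ∀ t Y Y', Y' ⊆ Y → R t Y → R t Y')
    (hdense : ∀ t Y, Y.Infinite → ∃ Y' ⊆ Y, Y'.Infinite ∧ R t Y') (t₀ : Finset ℕ)
    (X : Set ℕ) (hX : X.Infinite) :
    ∃ Y ⊆ X, Y.Infinite ∧ ∀ u : Finset ℕ, (∀ n ∈ u, n ∈ Y) → R (t₀ ∪ u) (above u Y) := by
  classical
  have hstep : ∀ p : {p : Finset ℕ × Set ℕ // p.2.Infinite},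
      ∃ q : {p : Finset ℕ × Set ℕ // p.2.Infinite},
        q.1.1 = insert (sInf p.1.2) p.1.1 ∧ q.1.2 ⊆ {n | n ∈ p.1.2 ∧ sInf p.1.2 < n} ∧
        ∀ u ⊆ q.1.1, R (t₀ ∪ u) q.1.2 := by
    rintro ⟨⟨F, Z⟩, hZ⟩
    have hZ' : {n | n ∈ Z ∧ sInf Z < n}.Infinite := by
      refine (hZ.sdiff (Set.finite_Iic (sInf Z))).mono ?_
      rintro n ⟨h1, h2⟩
      exact ⟨h1, by simpa using h2⟩
    obtain ⟨Y, h1, h2, h3⟩ := fin_step R hmono hdense t₀ (insert (sInf Z) F).powerset _ hZ'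
    exact ⟨⟨⟨insert (sInf Z) F, Y⟩, h2⟩, rfl, h1, fun u hu => h3 u (Finset.mem_powerset.2 hu)⟩
  choose nx hnx1 hnx2 hnx3 using hstep
  obtain ⟨Z0, hZ0, hZ0i, hR0⟩ := hdense t₀ X hX
  let s : ℕ → {p : Finset ℕ × Set ℕ // p.2.Infinite} := fun k =>
    Nat.rec ⟨⟨∅, Z0⟩, hZ0i⟩ (fun _ p => nx p) k
  let F : ℕ → Finset ℕ := fun k => (s k).1.1
  let Z : ℕ → Set ℕ := fun k => (s k).1.2
  let y : ℕ → ℕ := fun k => sInf (Z k)
  have hs : ∀ k, s (k + 1) = nx (s k) := fun k => rfl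
  have hF : ∀ k, F (k + 1) = insert (y k) (F k) := fun k => hnx1 (s k)
  have hZ : ∀ k, Z (k + 1) ⊆ {n | n ∈ Z k ∧ y k < n} := fun k => hnx2 (s k)
  have hR : ∀ k, ∀ u ⊆ F (k + 1), R (t₀ ∪ u) (Z (k + 1)) := fun k => hnx3 (s k)
  have hZi : ∀ k, (Z k).Infinite := fun k => (s k).2
  have hy : ∀ k, y k ∈ Z k := fun k => Nat.sInf_mem (hZi k).nonempty
  have hZa : Antitone Z := antitone_nat_of_succ_le fun k => fun n hn => (hZ k hn).1
  have hym : StrictMono y := strictMono_nat_of_lt_succ fun k => (hZ k (hy (k + 1))).2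
  have hyF : ∀ k j, j < k → y j ∈ F k := by
    intro k
    induction k with
    | zero => intro j hj; omega
    | succ k ih =>
      intro j hj
      rw [hF]
      rcases Nat.lt_succ_iff_lt_or_eq.1 hj with h | h
      · exact Finset.mem_insert_of_mem (ih j h)
      · rw [h]; exact Finset.mem_insert_self _ _
  refine ⟨Set.range y, ?_, Set.infinite_range_of_injective hym.injective, ?_⟩
  · rintro _ ⟨k, rfl⟩
    exact hZ0 (hZa (Nat.zero_le k) (hy k))
  · intro u hu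
    by_cases hu0 : u = ∅
    · subst hu0
      rw [above_empty, Finset.union_empty]
      refine hmono _ _ _ ?_ hR0
      rintro _ ⟨k, rfl⟩
      exact hZa (Nat.zero_le k) (hy k)
    · have hne : u.Nonempty := Finset.nonempty_iff_ne_empty.2 hu0
      obtain ⟨k, hk⟩ := hu _ (u.max'_mem hne)
      have hsub : u ⊆ F (k + 1) := by
        intro n hn
        obtain ⟨j, rfl⟩ := hu n hn
        have : y j ≤ y k := by rw [hk]; exact u.le_max' _ hn
        exact hyF _ _ (Nat.lt_succ_of_le (hym.le_iff_le.1 this))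
      refine hmono _ _ _ ?_ (hR k u hsub)
      rintro _ ⟨⟨j, rfl⟩, h2⟩
      have : y k < y j := by rw [hk]; exact h2 _ (u.max'_mem hne)
      exact hZa (Nat.succ_le_of_lt (hym.lt_iff_lt.1 this)) (hy j)

end fusion

/-- Completely Ramsey sets. -/
def CR (S : Set (Set ℕ)) : Prop :=
  ∀ (t : Finset ℕ) (X : Set ℕ), X.Infinite →
    ∃ Y ⊆ X, Y.Infinite ∧ ((∀ z ∈ Nb t Y, z ∈ S) ∨ ∀ z ∈ Nb t Y, z ∉ S)

/-- Ramsey null sets. -/
def RN (S : Set (Set ℕ)) : Prop :=
  ∀ (t : Finset ℕ) (X : Set ℕ), X.Infinite → ∃ Y ⊆ X, Y.Infinite ∧ ∀ z ∈ Nb t Y, z ∉ S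

/-- Ellentuck open sets. -/
def EO (U : Set (Set ℕ)) : Prop :=
  ∀ z ∈ U, z.Infinite → ∃ u : Finset ℕ, z ∈ Nb u z ∧ ∀ w ∈ Nb u z, w ∈ U

theorem CR.compl {S : Set (Set ℕ)} (h : CR S) : CR Sᶜ := by
  intro t X hX
  obtain ⟨Y, h1, h2, h3⟩ := h t X hX
  refine ⟨Y, h1, h2, ?_⟩
  rcases h3 with h3 | h3
  · exact Or.inr fun z hz h => h (h3 z hz)
  · exact Or.inl fun z hz => h3 z hz

/-- Ellentuck open sets are completely Ramsey. -/
theorem EO.cr {U : Set (Set ℕ)} (hU : EO U) : CR U := by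
  classical
  intro t X₀ hX₀
  set X := above t X₀ with hXdef
  have hX : X.Infinite := above_infinite hX₀
  let Acc : Finset ℕ → Set ℕ → Prop := fun s Y => ∀ z ∈ Nb s Y, z ∈ U
  let Rej : Finset ℕ → Set ℕ → Prop := fun s Y => ∀ Y' ⊆ Y, Y'.Infinite → ¬ Acc s Y'
  have accMono : ∀ s Y Y', Y' ⊆ Y → Acc s Y → Acc s Y' := fun s Y Y' h h' z hz =>
    h' z (Nb_mono h hz)
  obtain ⟨Y₁, hY₁, hY₁i, h1⟩ := fusion (fun s Y => Acc s Y ∨ Rej s Y)
    (fun s Y Y' h h' => h'.imp (accMono s Y Y' h) fun h2 Y'' h3 => h2 Y'' (h3.trans h))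
    (fun s Y hY => by
      by_cases h : ∃ Y' ⊆ Y, Y'.Infinite ∧ Acc s Y'
      · obtain ⟨Y', h1, h2, h3⟩ := h
        exact ⟨Y', h1, h2, Or.inl h3⟩
      · exact ⟨Y, le_rfl, hY, Or.inr fun Y' h1 h2 h3 => h ⟨Y', h1, h2, h3⟩⟩) t X hX
  have hdich : ∀ u : Finset ℕ, (∀ n ∈ u, n ∈ Y₁) → Acc (t ∪ u) Y₁ ∨ Rej (t ∪ u) Y₁ := by
    intro u hu
    rcases h1 u hu with h | h
    · left
      intro z hz
      rw [← Nb_above (u := u) Finset.subset_union_right] at hz
      exact h z hz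
    · right
      intro Y' hY' hi hacc
      refine h (above u Y') (above_mono hY') (above_infinite hi) ?_
      exact accMono _ _ _ above_subset hacc
  have habove : ∀ n ∈ Y₁, ∀ m ∈ t, m < n := fun n hn => (hY₁ hn).2
  rcases hdich ∅ (by simp) with hacc | hrej
  · rw [Finset.union_empty] at hacc
    exact ⟨Y₁, hY₁.trans above_subset, hY₁i, Or.inl hacc⟩
  rw [Finset.union_empty] at hrej
  obtain ⟨Y₂, hY₂, hY₂i, h2⟩ := fusion
    (fun s Y => (∃ u : Finset ℕ, (∀ n ∈ u, n ∈ Y₁) ∧ s = t ∪ u) → Rej s Y₁ →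
      ∀ n ∈ above s Y, n ∈ Y₁ → Rej (insert n s) Y₁)
    (fun s Y Y' h h' hu hr n hn hn' => h' hu hr n (above_mono h hn) hn')
    (fun s Y hY => by
      by_cases hu : ∃ u : Finset ℕ, (∀ n ∈ u, n ∈ Y₁) ∧ s = t ∪ u
      swap
      · exact ⟨Y, le_rfl, hY, fun h => absurd h hu⟩
      by_cases hr : Rej s Y₁
      swap
      · exact ⟨Y, le_rfl, hY, fun _ h => absurd h hr⟩
      obtain ⟨u, hu1, rfl⟩ := hu
      set Z : Set ℕ := {n | n ∈ above (t ∪ u) Y ∧ n ∈ Y₁ ∧ Acc (insert n (t ∪ u)) Y₁} with hZ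
      have hZf : Z.Finite := by
        by_contra hZi
        refine hr Z (fun n hn => hn.2.1) hZi ?_
        intro z hz
        have hne : {n | n ∈ z ∧ n ∉ t ∪ u}.Nonempty := by
          by_contra hne
          rw [Set.not_nonempty_iff_eq_empty] at hne
          refine hz.1 ((t ∪ u).finite_toSet.subset fun n hn => ?_)
          by_contra h
          have : n ∈ {n | n ∈ z ∧ n ∉ t ∪ u} := ⟨hn, h⟩
          rw [hne] at this
          exact this
        set n := sInf {n | n ∈ z ∧ n ∉ t ∪ u} with hn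
        have hn1 : n ∈ z ∧ n ∉ t ∪ u := Nat.sInf_mem hne
        have hn2 : ∀ m, m ∈ z → m ∉ t ∪ u → n ≤ m := fun m h h' => Nat.sInf_le ⟨h, h'⟩
        have hn3 := (hz.2.2 n hn1.1).resolve_left hn1.2
        refine hn3.1.2.2 z ⟨hz.1, ?_, ?_⟩
        · intro m hm
          rcases Finset.mem_insert.1 hm with rfl | hm
          · exact hn1.1
          · exact hz.2.1 m hm
        · intro m hm
          by_cases h : m ∈ insert n (t ∪ u)
          · exact Or.inl h
          · right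
            rw [Finset.mem_insert, not_or] at h
            have h4 := (hz.2.2 m hm).resolve_left h.2
            have h5 := hn2 m hm h.2
            refine ⟨h4.1.2.1, fun k hk => ?_⟩
            rcases Finset.mem_insert.1 hk with rfl | hk
            · omega
            · exact h4.2 k hk
      refine ⟨Y \ Z, Set.sdiff_subset, hY.sdiff hZf, fun _ _ n hn hn' => ?_⟩
      have h3 := hdich (insert n u) (by
        intro m hm
        rcases Finset.mem_insert.1 hm with rfl | hm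
        · exact hn'
        · exact hu1 m hm)
      rw [Finset.union_insert] at h3
      rcases h3 with h3 | h3
      · exact absurd ⟨⟨hn.1.1, hn.2⟩, hn', h3⟩ hn.1.2
      · exact h3) t Y₁ hY₁i
  have hrejall : ∀ u : Finset ℕ, (∀ n ∈ u, n ∈ Y₂) → Rej (t ∪ u) Y₁ := by
    intro u
    induction u using Finset.induction_on_max with
    | empty => intro _; rwa [Finset.union_empty]
    | insert a s has ih =>
      intro hu
      have hs : ∀ n ∈ s, n ∈ Y₂ := fun n hn => hu n (Finset.mem_insert_of_mem hn)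
      have ha : a ∈ Y₂ := hu a (Finset.mem_insert_self _ _)
      rw [Finset.union_insert]
      refine h2 s hs ⟨s, fun n hn => hY₂ (hs n hn), rfl⟩ (ih hs) a ⟨⟨ha, has⟩, ?_⟩ (hY₂ ha)
      intro m hm
      rcases Finset.mem_union.1 hm with hm | hm
      · exact habove a (hY₂ ha) m hm
      · exact has m hm
  refine ⟨Y₂, (hY₂.trans hY₁).trans above_subset, hY₂i, Or.inr ?_⟩
  intro z hz hzU
  obtain ⟨u₀, hu₀, hu₀'⟩ := hU z hzU hz.1
  obtain ⟨s, hs1, hs2, hs3, -⟩ := exists_init hz.1 ((t ∪ u₀).sup id + 1) 0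
  have hsub : ∀ n ∈ t ∪ u₀, n ∈ s := by
    intro n hn
    refine hs2 n ?_ ?_
    · rcases Finset.mem_union.1 hn with hn | hn
      · exact hz.2.1 n hn
      · exact hu₀.2.1 n hn
    · have : n ≤ (t ∪ u₀).sup id := Finset.le_sup (f := id) hn
      omega
  have hseq : s = t ∪ (s \ t) := by
    ext n
    simp only [Finset.mem_union, Finset.mem_sdiff]
    constructor
    · intro h
      by_cases h' : n ∈ t
      · exact Or.inl h'
      · exact Or.inr ⟨h, h'⟩
    · rintro (h | h)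
      · exact hsub n (Finset.mem_union_left _ h)
      · exact h.1
  have hst : ∀ n ∈ s \ t, n ∈ Y₂ := by
    intro n hn
    rw [Finset.mem_sdiff] at hn
    exact ((hz.2.2 n (hs3 n hn.1)).resolve_left hn.2).1
  have hr := hrejall (s \ t) hst
  rw [← hseq] at hr
  refine hr (above s z) ?_ (above_infinite hz.1) ?_
  · intro n hn
    have hnt : n ∉ t := fun h => by
      have := hn.2 n (hsub n (Finset.mem_union_left _ h))
      omega
    exact hY₂ ((hz.2.2 n hn.1).resolve_left hnt).1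
  · intro w hw
    rw [Nb_above le_rfl] at hw
    refine hu₀' w ⟨hw.1, fun n hn => hw.2.1 n (hsub n (Finset.mem_union_right _ hn)),
      fun n hn => ?_⟩
    rcases hw.2.2 n hn with h | h
    · exact hu₀.2.2 n (hs3 n h)
    · exact Or.inr ⟨h.1, fun m hm => h.2 m (hsub m (Finset.mem_union_right _ hm))⟩

/-- Countable unions of completely Ramsey sets are completely Ramsey. -/
theorem CR.iUnion {S : ℕ → Set (Set ℕ)} (hS : ∀ n, CR (S n)) : CR (⋃ n, S n) := by
  classical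
  intro t X₀ hX₀
  obtain ⟨Y₀, hY₀, hY₀i, h0⟩ := fusion
    (fun s Y => ∀ n ≤ s.card, (∀ z ∈ Nb s Y, z ∈ S n) ∨ ∀ z ∈ Nb s Y, z ∉ S n)
    (fun s Y Y' h h' n hn => (h' n hn).imp (fun h2 z hz => h2 z (Nb_mono h hz))
      (fun h2 z hz => h2 z (Nb_mono h hz)))
    (fun s Y hY => by
      have key : ∀ k, ∃ Y' ⊆ Y, Y'.Infinite ∧
          ∀ n ≤ k, (∀ z ∈ Nb s Y', z ∈ S n) ∨ ∀ z ∈ Nb s Y', z ∉ S n := by
        intro k
        induction k with
        | zero =>
          obtain ⟨Y', h1, h2, h3⟩ := hS 0 s Y hY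
          exact ⟨Y', h1, h2, fun n hn => by rw [Nat.le_zero.1 hn]; exact h3⟩
        | succ k ih =>
          obtain ⟨Y', h1, h2, h3⟩ := ih
          obtain ⟨Y'', h4, h5, h6⟩ := hS (k + 1) s Y' h2
          refine ⟨Y'', h4.trans h1, h5, fun n hn => ?_⟩
          rcases Nat.le_succ_iff.1 hn with hn | hn
          · exact (h3 n hn).imp (fun h7 z hz => h7 z (Nb_mono h4 hz))
              (fun h7 z hz => h7 z (Nb_mono h4 hz))
          · rw [hn]; exact h6
      exact key s.card) t (above t X₀) (above_infinite hX₀)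
  set U : Set (Set ℕ) := {z | ∃ u n, z ∈ Nb u z ∧ ∀ w ∈ Nb u z, w ∈ S n} with hU
  have hUo : EO U := by
    rintro z ⟨u, n, h1, h2⟩ -
    exact ⟨u, h1, fun w hw => ⟨u, n, Nb_self hw, fun v hv => h2 v (Nb_sub_of_mem hw hv)⟩⟩
  obtain ⟨Y, hY, hYi, h3⟩ := hUo.cr t Y₀ hY₀i
  refine ⟨Y, hY.trans (hY₀.trans above_subset), hYi, ?_⟩
  rcases h3 with h3 | h3
  · left
    intro z hz
    obtain ⟨u, n, h4, h5⟩ := h3 z hz
    exact Set.mem_iUnion.2 ⟨n, h5 z h4⟩
  · right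
    intro z hz hzS
    obtain ⟨n, hn⟩ := Set.mem_iUnion.1 hzS
    refine h3 z hz ?_
    obtain ⟨s, hs1, hs2, hs3, hs4⟩ := exists_init hz.1 (t.sup id + 1) n
    have hsub : ∀ m ∈ t, m ∈ s := fun m hm => hs2 m (hz.2.1 m hm) (by
      have : m ≤ t.sup id := Finset.le_sup (f := id) hm
      omega)
    have hseq : s = t ∪ (s \ t) := by
      ext n
      simp only [Finset.mem_union, Finset.mem_sdiff]
      constructor
      · intro h
        by_cases h' : n ∈ t
        · exact Or.inl h'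
        · exact Or.inr ⟨h, h'⟩
      · rintro (h | h)
        · exact hsub n h
        · exact h.1
    have hzY : ∀ m ∈ z, m ∉ t → m ∈ Y₀ := fun m hm hmt =>
      hY ((hz.2.2 m hm).resolve_left hmt).1
    have h4 := h0 (s \ t) (fun m hm => by
      rw [Finset.mem_sdiff] at hm
      exact hzY m (hs3 m hm.1) hm.2) n (by rw [← hseq]; exact hs4)
    rw [← hseq, Nb_above Finset.sdiff_subset] at h4
    have hz0 : z ∈ Nb s Y₀ := by
      refine ⟨hz.1, hs3, fun m hm => ?_⟩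
      by_cases hms : m ∈ s
      · exact Or.inl hms
      · refine Or.inr ⟨hzY m hm fun h => hms (hsub m h), ?_⟩
        exact ((hs1.2.2 m hm).resolve_left hms).2
    rcases h4 with h4 | h4
    · exact ⟨s, n, hs1, fun w hw => h4 w (Nb_sub_of_mem hz0 hw)⟩
    · exact absurd hn (h4 z hz0)

/-- Countable unions of Ramsey null sets are Ramsey null. -/
theorem RN.iUnion {S : ℕ → Set (Set ℕ)} (hS : ∀ n, RN (S n)) : RN (⋃ n, S n) := by
  classical
  intro t X₀ hX₀
  obtain ⟨Y₀, hY₀, hY₀i, h0⟩ := fusion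
    (fun s Y => ∀ n ≤ s.card, ∀ z ∈ Nb s Y, z ∉ S n)
    (fun s Y Y' h h' n hn z hz => h' n hn z (Nb_mono h hz))
    (fun s Y hY => by
      have key : ∀ k, ∃ Y' ⊆ Y, Y'.Infinite ∧ ∀ n ≤ k, ∀ z ∈ Nb s Y', z ∉ S n := by
        intro k
        induction k with
        | zero =>
          obtain ⟨Y', h1, h2, h3⟩ := hS 0 s Y hY
          exact ⟨Y', h1, h2, fun n hn => by rw [Nat.le_zero.1 hn]; exact h3⟩
        | succ k ih =>
          obtain ⟨Y', h1, h2, h3⟩ := ih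
          obtain ⟨Y'', h4, h5, h6⟩ := hS (k + 1) s Y' h2
          refine ⟨Y'', h4.trans h1, h5, fun n hn => ?_⟩
          rcases Nat.le_succ_iff.1 hn with hn | hn
          · exact fun z hz => h3 n hn z (Nb_mono h4 hz)
          · rw [hn]; exact h6
      exact key s.card) t (above t X₀) (above_infinite hX₀)
  refine ⟨Y₀, hY₀.trans above_subset, hY₀i, ?_⟩
  intro z hz hzS
  obtain ⟨n, hn⟩ := Set.mem_iUnion.1 hzS
  obtain ⟨s, hs1, hs2, hs3, hs4⟩ := exists_init hz.1 (t.sup id + 1) n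
  have hsub : ∀ m ∈ t, m ∈ s := fun m hm => hs2 m (hz.2.1 m hm) (by
    have : m ≤ t.sup id := Finset.le_sup (f := id) hm
    omega)
  have hseq : s = t ∪ (s \ t) := by
    ext n
    simp only [Finset.mem_union, Finset.mem_sdiff]
    constructor
    · intro h
      by_cases h' : n ∈ t
      · exact Or.inl h'
      · exact Or.inr ⟨h, h'⟩
    · rintro (h | h)
      · exact hsub n h
      · exact h.1
  have hzY : ∀ m ∈ z, m ∉ t → m ∈ Y₀ := fun m hm hmt => ((hz.2.2 m hm).resolve_left hmt).1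
  have h4 := h0 (s \ t) (fun m hm => by
    rw [Finset.mem_sdiff] at hm
    exact hzY m (hs3 m hm.1) hm.2) n (by rw [← hseq]; exact hs4)
  rw [← hseq, Nb_above Finset.sdiff_subset] at h4
  refine h4 z ⟨hz.1, hs3, fun m hm => ?_⟩ hn
  by_cases hms : m ∈ s
  · exact Or.inl hms
  · refine Or.inr ⟨hzY m hm fun h => hms (hsub m h), ?_⟩
    exact ((hs1.2.2 m hm).resolve_left hms).2

theorem RN.iUnion' {ι : Type} [Countable ι] [Nonempty ι] {S : ι → Set (Set ℕ)}
    (hS : ∀ n, RN (S n)) : RN (⋃ n, S n) := by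
  obtain ⟨e, he⟩ := exists_surjective_nat ι
  have h := RN.iUnion (S := fun n => S (e n)) fun n => hS (e n)
  rwa [he.iUnion_comp S] at h

/-! ### The Souslin operation -/

/-- The restriction of `f` to `k`. -/
def pre (f : ℕ → ℕ) (k : ℕ) : List ℕ := (List.range k).map f

theorem pre_succ (f : ℕ → ℕ) (k : ℕ) : pre f (k + 1) = pre f k ++ [f k] := by
  simp [pre, List.range_succ]

theorem length_pre (f : ℕ → ℕ) (k : ℕ) : (pre f k).length = k := by simp [pre]

/-- The Souslin operation. -/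
def Sou (C : List ℕ → Set (Set ℕ)) : Set (Set ℕ) := {z | ∃ f : ℕ → ℕ, ∀ k, z ∈ C (pre f k)}

/-- Below a node. -/
def SouAt (C : List ℕ → Set (Set ℕ)) (p : List ℕ) : Set (Set ℕ) :=
  {z | ∃ f : ℕ → ℕ, pre f p.length = p ∧ ∀ k, z ∈ C (pre f k)}

theorem souAt_nil (C : List ℕ → Set (Set ℕ)) : SouAt C [] = Sou C := by
  ext z
  simp [SouAt, Sou, pre]

theorem souAt_succ {C : List ℕ → Set (Set ℕ)} {p : List ℕ} {z : Set ℕ} (h : z ∈ SouAt C p) :
    ∃ n, z ∈ SouAt C (p ++ [n]) := by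
  obtain ⟨f, h1, h2⟩ := h
  refine ⟨f p.length, f, ?_, h2⟩
  rw [List.length_append, List.length_singleton, pre_succ, h1]

/-- The points with a neighbourhood without points of the set. -/
def W (S : Set (Set ℕ)) : Set (Set ℕ) := {z | ∃ u, z ∈ Nb u z ∧ ∀ w ∈ Nb u z, w ∉ S}

theorem eo_W (S : Set (Set ℕ)) : EO (W S) := by
  rintro z ⟨u, h1, h2⟩ -
  exact ⟨u, h1, fun w hw => ⟨u, Nb_self hw, fun v hv => h2 v (Nb_sub_of_mem hw hv)⟩⟩

theorem not_mem_of_W {S : Set (Set ℕ)} {z : Set ℕ} (h : z ∈ W S) : z ∉ S := by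
  obtain ⟨u, h1, h2⟩ := h
  exact h2 z h1

theorem rn_E (C : List ℕ → Set (Set ℕ)) (p : List ℕ) :
    RN {z | z ∉ W (SouAt C p) ∧ ∀ n, z ∈ W (SouAt C (p ++ [n]))} := by
  intro t X hX
  obtain ⟨Y, hY, hYi, h1⟩ := (eo_W (SouAt C p)).cr t X hX
  rcases h1 with h1 | h1
  · exact ⟨Y, hY, hYi, fun z hz h => h.1 (h1 z hz)⟩
  obtain ⟨Y', hY', hYi', h2⟩ :=
    (CR.iUnion fun n => ((eo_W (SouAt C (p ++ [n]))).cr).compl) t Y hYi
  refine ⟨Y', hY'.trans hY, hYi', ?_⟩
  rcases h2 with h2 | h2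
  · intro z hz h
    obtain ⟨n, hn⟩ := Set.mem_iUnion.1 (h2 z hz)
    exact hn (h.2 n)
  · exfalso
    obtain ⟨z, hz⟩ := Nb_nonempty (t := t) hYi'
    refine h1 z (Nb_mono hY' hz) ⟨t, Nb_self hz, fun w hw hwS => ?_⟩
    obtain ⟨n, hn⟩ := souAt_succ hwS
    refine h2 w (Nb_sub_of_mem hz hw) (Set.mem_iUnion.2 ⟨n, ?_⟩)
    exact fun hW => not_mem_of_W hW hn

/-- **Sets obtained by the Souslin operation from closed sets are completely Ramsey.** -/
theorem cr_sou (C : List ℕ → Set (Set ℕ)) (hC : ∀ p, EO (C p)ᶜ) : CR (Sou C) := by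
  intro t X hX
  obtain ⟨Y, hY, hYi, h1⟩ := (RN.iUnion' (ι := List ℕ) fun p => rn_E C p) t X hX
  obtain ⟨Y', hY', hYi', h2⟩ := (eo_W (SouAt C [])).cr t Y hYi
  refine ⟨Y', hY'.trans hY, hYi', ?_⟩
  rcases h2 with h2 | h2
  · right
    intro z hz
    rw [← souAt_nil]
    exact not_mem_of_W (h2 z hz)
  · left
    intro z hz
    have h3 : ∀ p, z ∉ W (SouAt C p) → ∃ n, z ∉ W (SouAt C (p ++ [n])) := by
      intro p hp
      by_contra h
      push Not at h
      exact h1 z (Nb_mono hY' hz) (Set.mem_iUnion.2 ⟨p, hp, h⟩)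
    choose! g hg using h3
    let P : ℕ → List ℕ := fun k => Nat.rec [] (fun _ p => p ++ [g p]) k
    have hP : ∀ k, z ∉ W (SouAt C (P k)) := by
      intro k
      induction k with
      | zero => exact h2 z hz
      | succ k ih => exact hg _ ih
    have hpre : ∀ k, pre (fun i => g (P i)) k = P k := by
      intro k
      induction k with
      | zero => rfl
      | succ k ih => rw [pre_succ, ih]
    refine ⟨fun i => g (P i), fun k => ?_⟩
    rw [hpre]
    by_contra hk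
    obtain ⟨u, hu1, hu2⟩ := hC (P k) z hk hz.1
    refine hP k ⟨u, hu1, fun w hw hwS => hu2 w hw ?_⟩
    obtain ⟨f, hf1, hf2⟩ := hwS
    have := hf2 (P k).length
    rwa [hf1] at this

end Pool.Agent.H38R3.Ell
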