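import Pool.Agent.H38R3.Ellentuck

set_option autoImplicit false

/-!
# Analytic almost disjoint families and the Ramsey property
-/

namespace Pool.Agent.H38R3.Mad

open Pool.Agent.H38R3.Ell

/-- The increasing enumeration. -/
noncomputable def en (z : Set ℕ) : ℕ → ℕ := Nat.nth (· ∈ z)

theorem en_strictMono {z : Set ℕ} (hz : z.Infinite) : StrictMono (en z) := Nat.nth_strictMono hz

theorem range_en {z : Set ℕ} (hz : z.Infinite) : Set.range (en z) = z :=
  Nat.range_nth_of_infinite hz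

theorem en_mem {z : Set ℕ} (hz : z.Infinite) (k : ℕ) : en z k ∈ z := by
  have : en z k ∈ Set.range (en z) := ⟨k, rfl⟩
  rwa [range_en hz] at this

theorem en_range {h : ℕ → ℕ} (hh : StrictMono h) : en (Set.range h) = h := by
  have hi : (Set.range h).Infinite := Set.infinite_range_of_injective hh.injective
  exact ((en_strictMono hi).range_inj hh).1 (range_en hi)

theorem en_congr {z w : Set ℕ} (hw : w.Infinite) {N a j : ℕ}
    (h : ∀ n < N, (n ∈ w ↔ n ∈ z)) (ha : a < N) (hj : en w j = a) : en z j = a := by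
  classical
  have h1 : a ∈ w := hj ▸ en_mem hw j
  have h2 : a ∈ z := (h a ha).1 h1
  have h3 : Nat.count (· ∈ w) a = j := by
    rw [← hj]
    exact Nat.count_nth_of_infinite (p := (· ∈ w)) hw j
  have h4 : Nat.count (· ∈ w) a = Nat.count (· ∈ z) a := by
    rw [Nat.count_eq_card_filter_range, Nat.count_eq_card_filter_range]
    congr 1
    ext n
    simp only [Finset.mem_filter, Finset.mem_range]
    constructor
    · rintro ⟨h5, h6⟩; exact ⟨h5, (h n (by omega)).1 h6⟩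
    · rintro ⟨h5, h6⟩; exact ⟨h5, (h n (by omega)).2 h6⟩
  have h5 : Nat.nth (· ∈ z) (Nat.count (· ∈ z) a) = a := Nat.nth_count h2
  rw [← h4, h3] at h5
  exact h5

/-- The set coded by `z`. -/
def TT (e : ℕ → ℕ → ℕ) (z : Set ℕ) : Set ℕ :=
  Set.range fun k => e (en z (2 * k)) (en z (2 * k + 1))

/-- The tail of `z` from its `j`-th pair. -/
def tl (z : Set ℕ) (j : ℕ) : Set ℕ := Set.range fun k => en z (2 * j + k)

theorem tl_mono {z : Set ℕ} (hz : z.Infinite) (j : ℕ) :
    StrictMono fun k => en z (2 * j + k) := fun _ _ h => en_strictMono hz (by omega)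

theorem tl_infinite {z : Set ℕ} (hz : z.Infinite) (j : ℕ) : (tl z j).Infinite :=
  Set.infinite_range_of_injective (tl_mono hz j).injective

theorem tl_subset {z : Set ℕ} (hz : z.Infinite) (j : ℕ) : tl z j ⊆ z := by
  rintro _ ⟨k, rfl⟩
  exact en_mem hz _

theorem en_tl {z : Set ℕ} (hz : z.Infinite) (j : ℕ) : en (tl z j) = fun k => en z (2 * j + k) :=
  en_range (tl_mono hz j)

theorem tl_large {z : Set ℕ} (hz : z.Infinite) (j : ℕ) {n : ℕ} (hn : n ∈ tl z j) : j ≤ n := by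
  obtain ⟨k, rfl⟩ := hn
  have := (en_strictMono hz).id_le (2 * j + k)
  simp only [id_eq] at this
  show j ≤ en z (2 * j + k)
  omega

theorem TT_tl {e : ℕ → ℕ → ℕ} {z : Set ℕ} (hz : z.Infinite) (j : ℕ) :
    TT e (tl z j) ⊆ TT e z := by
  rintro _ ⟨k, rfl⟩
  simp only [en_tl hz]
  exact ⟨j + k, by simp only [mul_add, add_assoc]⟩

theorem TT_diff_tl {e : ℕ → ℕ → ℕ} {z : Set ℕ} (hz : z.Infinite) (j : ℕ) :
    (TT e z \ TT e (tl z j)).Finite := by
  refine ((Set.finite_Iio j).image fun k => e (en z (2 * k)) (en z (2 * k + 1))).subset ?_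
  rintro _ ⟨⟨k, rfl⟩, hk⟩
  refine ⟨k, ?_, rfl⟩
  simp only [Set.mem_Iio]
  by_contra h
  push Not at h
  refine hk ⟨k - j, ?_⟩
  simp only [en_tl hz]
  have h1 : 2 * j + 2 * (k - j) = 2 * k := by omega
  have h2 : 2 * j + (2 * (k - j) + 1) = 2 * k + 1 := by omega
  rw [h1, h2]

theorem inter_tl_infinite {e : ℕ → ℕ → ℕ} {z : Set ℕ} (hz : z.Infinite) (j : ℕ) (A : Set ℕ) :
    (A ∩ TT e (tl z j)).Infinite ↔ (A ∩ TT e z).Infinite := by
  refine ⟨fun h => h.mono (Set.inter_subset_inter_right _ (TT_tl hz j)), fun h => ?_⟩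
  intro hf
  refine h ((hf.union (TT_diff_tl (e := e) hz j)).subset ?_)
  rintro n ⟨h1, h2⟩
  by_cases h3 : n ∈ TT e (tl z j)
  · exact Or.inl ⟨h1, h3⟩
  · exact Or.inr ⟨h2, h3⟩

theorem TT_infinite {e : ℕ → ℕ → ℕ} (he : ∀ a b a' b', e a b = e a' b' → a = a' ∧ b = b')
    {z : Set ℕ} (hz : z.Infinite) : (TT e z).Infinite := by
  refine Set.infinite_range_of_injective fun k l h => ?_
  have := (en_strictMono hz).injective (he _ _ _ _ h).1
  omega

/-- The set of `z` for which the coded set has infinite intersection with some element of the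
family whose value at `n₀` is `b`. -/
def SS (e : ℕ → ℕ → ℕ) (g : (ℕ → ℕ) → (ℕ → Bool)) (n₀ : ℕ) (b : Bool) : Set (Set ℕ) :=
  {z | ∃ x, g x n₀ = b ∧ ({m | g x m = true} ∩ TT e z).Infinite}

theorem pre_getElem (f : ℕ → ℕ) (k i v : ℕ) : (pre f k)[i]? = some v ↔ i < k ∧ f i = v := by
  unfold pre
  rw [List.getElem?_map]
  by_cases h : i < k
  · rw [List.getElem?_range h]
    simp [h]
  · have : (List.range k)[i]? = none := by
      rw [List.getElem?_eq_none_iff, List.length_range]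
      omega
    rw [this]
    simp [h]

/-- These sets are completely Ramsey. -/
theorem cr_SS {e : ℕ → ℕ → ℕ} (he : ∀ a b a' b', e a b = e a' b' → a = a' ∧ b = b')
    {g : (ℕ → ℕ) → (ℕ → Bool)} (hg : Continuous g) (n₀ : ℕ) (b : Bool) :
    CR (SS e g n₀ b) := by
  classical
  let Q : List ℕ → Prop := fun p => ∃ x, g x n₀ = b ∧ ∀ i v, p[i]? = some v →
    x i = v.unpair.1 ∧ i ≤ v.unpair.2 ∧ g x v.unpair.2 = true
  let C : List ℕ → Set (Set ℕ) := fun p =>
    {z | (∀ i v : ℕ, p[i]? = some v → v.unpair.2 ∈ TT e z) ∧ Q p}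
  have hC : ∀ p, EO (C p)ᶜ := by
    intro p z hz hzi
    by_cases hQ : Q p
    · have hz' : ¬ ∀ i v : ℕ, p[i]? = some v → v.unpair.2 ∈ TT e z := fun h => hz ⟨h, hQ⟩
      push Not at hz'
      obtain ⟨i, v, hiv, hm⟩ := hz'
      by_cases hr : ∃ a c, e a c = v.unpair.2
      · obtain ⟨a, c, hac⟩ := hr
        obtain ⟨u, hu1, hu2, hu3, -⟩ := exists_init hzi (a + c + 1) 0
        refine ⟨u, hu1, fun w hw hwC => hm ?_⟩
        obtain ⟨k, hk⟩ := hwC.1 i v hiv
        rw [← hac] at hk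
        obtain ⟨hk1, hk2⟩ := he _ _ _ _ hk
        have hcon : ∀ n < a + c + 1, (n ∈ w ↔ n ∈ z) := by
          intro n hn
          constructor
          · intro h
            rcases hw.2.2 n h with h' | h'
            · exact hu3 n h'
            · exact h'.1
          · intro h
            exact hw.2.1 n (hu2 n h hn)
        refine ⟨k, ?_⟩
        show e (en z (2 * k)) (en z (2 * k + 1)) = _
        rw [en_congr hw.1 hcon (by omega) hk1, en_congr hw.1 hcon (by omega) hk2, hac]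
      · refine ⟨∅, ⟨hzi, by simp, fun n hn => Or.inr (by rwa [above_empty])⟩,
          fun w hw hwC => hr ?_⟩
        obtain ⟨k, hk⟩ := hwC.1 i v hiv
        exact ⟨_, _, hk⟩
    · exact ⟨∅, ⟨hzi, by simp, fun n hn => Or.inr (by rwa [above_empty])⟩,
        fun w _ hwC => hQ hwC.2⟩
  have heq : ∀ z : Set ℕ, z ∈ SS e g n₀ b ↔ z ∈ Sou C := by
    intro z
    constructor
    · rintro ⟨x, hx1, hx2⟩
      have h1 : ∀ i : ℕ, ∃ m, i ≤ m ∧ m ∈ {m | g x m = true} ∩ TT e z := by
        intro i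
        obtain ⟨m, hm, hm'⟩ := hx2.exists_gt i
        exact ⟨m, hm'.le, hm⟩
      choose h hh1 hh2 using h1
      refine ⟨fun i => Nat.pair (x i) (h i), fun k => ⟨?_, x, hx1, ?_⟩⟩
      · intro i v hv
        rw [pre_getElem] at hv
        rw [← hv.2, Nat.unpair_pair]
        exact (hh2 i).2
      · intro i v hv
        rw [pre_getElem] at hv
        rw [← hv.2, Nat.unpair_pair]
        exact ⟨rfl, hh1 i, (hh2 i).1⟩
    · rintro ⟨f, hf⟩
      set x : ℕ → ℕ := fun i => (f i).unpair.1 with hx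
      have h1 : ∀ k, ∃ x', g x' n₀ = b ∧ ∀ i < k, x' i = x i ∧ i ≤ (f i).unpair.2 ∧
          g x' (f i).unpair.2 = true := by
        intro k
        obtain ⟨-, x', h2, h3⟩ := hf k
        exact ⟨x', h2, fun i hi => h3 i (f i) ((pre_getElem f k i (f i)).2 ⟨hi, rfl⟩)⟩
      choose x' h2 h3 using h1
      have hlim : Filter.Tendsto x' Filter.atTop (nhds x) := by
        rw [tendsto_pi_nhds]
        intro i
        refine tendsto_const_nhds.congr' ?_
        filter_upwards [Filter.eventually_gt_atTop i] with k hk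
        exact ((h3 k i hk).1).symm
      have hlim2 : Filter.Tendsto (fun k => g (x' k)) Filter.atTop (nhds (g x)) :=
        (hg.tendsto x).comp hlim
      rw [tendsto_pi_nhds] at hlim2
      have hev : ∀ n, ∀ᶠ k in Filter.atTop, g (x' k) n = g x n := by
        intro n
        have := hlim2 n
        rw [nhds_discrete] at this
        exact Filter.tendsto_pure.1 this
      refine ⟨x, ?_, ?_⟩
      · obtain ⟨k, hk⟩ := (hev n₀).exists
        rw [← hk]
        exact h2 k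
      · have hsub : Set.range (fun i => (f i).unpair.2) ⊆ {m | g x m = true} ∩ TT e z := by
          rintro _ ⟨i, rfl⟩
          refine ⟨?_, ?_⟩
          · obtain ⟨k, hk1, hk2⟩ := ((hev (f i).unpair.2).and
              (Filter.eventually_gt_atTop i)).exists
            show g x (f i).unpair.2 = true
            rw [← hk1]
            exact (h3 k i hk2).2.2
          · exact (hf (i + 1)).1 i (f i) ((pre_getElem f (i + 1) i (f i)).2 ⟨by omega, rfl⟩)
        refine Set.Infinite.mono hsub ?_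
        intro hfin
        obtain ⟨M, hM⟩ := hfin.bddAbove
        have h4 := hM ⟨M + 1, rfl⟩
        have h5 := (h3 (M + 2) (M + 1) (by omega)).2.1
        simp only at h4
        omega
  have hS : SS e g n₀ b = Sou C := by
    ext z
    exact heq z
  rw [hS]
  exact cr_sou C hC

theorem SS_tl {e : ℕ → ℕ → ℕ} {g : (ℕ → ℕ) → (ℕ → Bool)} {n₀ : ℕ} {b : Bool} {z : Set ℕ}
    (hz : z.Infinite) (j : ℕ) : tl z j ∈ SS e g n₀ b ↔ z ∈ SS e g n₀ b := by
  constructor
  · rintro ⟨x, h1, h2⟩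
    exact ⟨x, h1, (inter_tl_infinite hz j _).1 h2⟩
  · rintro ⟨x, h1, h2⟩
    exact ⟨x, h1, (inter_tl_infinite hz j _).2 h2⟩

/-- A set homogeneous for countably many tail invariant completely Ramsey sets. -/
theorem exists_hom {S : ℕ → Set (Set ℕ)} (hS : ∀ i, CR (S i))
    (hinv : ∀ i z j, z.Infinite → (tl z j ∈ S i ↔ z ∈ S i)) {X : Set ℕ} (hX : X.Infinite) :
    ∃ Y ⊆ X, Y.Infinite ∧ ∀ i, (∀ z ⊆ Y, z.Infinite → z ∈ S i) ∨
      ∀ z ⊆ Y, z.Infinite → z ∉ S i := by
  classical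
  have hNb : ∀ (z Y : Set ℕ), z.Infinite → z ⊆ Y → z ∈ Nb ∅ Y := fun z Y h1 h2 =>
    ⟨h1, by simp, fun n hn => Or.inr (by rw [above_empty]; exact h2 hn)⟩
  obtain ⟨Y, hY, hYi, h⟩ := fusion
    (fun s Y => ∀ i ≤ s.card, (∀ z ∈ Nb ∅ Y, z ∈ S i) ∨ ∀ z ∈ Nb ∅ Y, z ∉ S i)
    (fun s Y Y' h h' n hn => (h' n hn).imp (fun h2 z hz => h2 z (Nb_mono h hz))
      (fun h2 z hz => h2 z (Nb_mono h hz)))
    (fun s Y hY => by
      have key : ∀ k, ∃ Y' ⊆ Y, Y'.Infinite ∧
          ∀ n ≤ k, (∀ z ∈ Nb ∅ Y', z ∈ S n) ∨ ∀ z ∈ Nb ∅ Y', z ∉ S n := by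
        intro k
        induction k with
        | zero =>
          obtain ⟨Y', h1, h2, h3⟩ := hS 0 ∅ Y hY
          exact ⟨Y', h1, h2, fun n hn => by rw [Nat.le_zero.1 hn]; exact h3⟩
        | succ k ih =>
          obtain ⟨Y', h1, h2, h3⟩ := ih
          obtain ⟨Y'', h4, h5, h6⟩ := hS (k + 1) ∅ Y' h2
          refine ⟨Y'', h4.trans h1, h5, fun n hn => ?_⟩
          rcases Nat.le_succ_iff.1 hn with hn | hn
          · exact (h3 n hn).imp (fun h7 z hz => h7 z (Nb_mono h4 hz))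
              (fun h7 z hz => h7 z (Nb_mono h4 hz))
          · rw [hn]; exact h6
      exact key s.card) ∅ X hX
  refine ⟨Y, hY, hYi, fun i => ?_⟩
  obtain ⟨u, hu1, hu2⟩ := hYi.exists_subset_card_eq i
  have h1 := h u (fun n hn => hu1 hn) i (by rw [Finset.empty_union, hu2])
  have key : ∀ z ⊆ Y, z.Infinite → tl z (u.sup id + 1) ∈ Nb ∅ (above u Y) := by
    intro z hz hzi
    refine hNb _ _ (tl_infinite hzi _) fun n hn => ⟨hz (tl_subset hzi _ hn), fun m hm => ?_⟩
    have h2 := tl_large hzi _ hn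
    have h3 : m ≤ u.sup id := Finset.le_sup (f := id) hm
    omega
  rcases h1 with h1 | h1
  · left
    intro z hz hzi
    rw [← hinv i z (u.sup id + 1) hzi]
    exact h1 _ (key z hz hzi)
  · right
    intro z hz hzi
    rw [← hinv i z (u.sup id + 1) hzi]
    exact h1 _ (key z hz hzi)

/-- Passing to a part of the coded set. -/
theorem exists_part {e : ℕ → ℕ → ℕ} {z : Set ℕ} (hz : z.Infinite) {A : Set ℕ}
    (hA : (A ∩ TT e z).Infinite) : ∃ z' ⊆ z, z'.Infinite ∧ TT e z' ⊆ A := by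
  set D : Set ℕ := {k | e (en z (2 * k)) (en z (2 * k + 1)) ∈ A} with hD
  have hDi : D.Infinite := by
    intro hf
    refine hA ((hf.image fun k => e (en z (2 * k)) (en z (2 * k + 1))).subset ?_)
    rintro _ ⟨h1, ⟨k, rfl⟩⟩
    exact ⟨k, h1, rfl⟩
  set h : ℕ → ℕ := fun i => en z (2 * en D (i / 2) + i % 2) with hh
  have hm : StrictMono h := by
    refine strictMono_nat_of_lt_succ fun i => en_strictMono hz ?_
    rcases Nat.even_or_odd' i with ⟨k, hk | hk⟩
    · have h1 : i / 2 = k := by omega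
      have h2 : (i + 1) / 2 = k := by omega
      rw [h1, h2]
      omega
    · have h1 : i / 2 = k := by omega
      have h2 : (i + 1) / 2 = k + 1 := by omega
      rw [h1, h2]
      have := en_strictMono hDi (Nat.lt_succ_self k)
      simp only [Nat.succ_eq_add_one] at this
      omega
  refine ⟨Set.range h, ?_, Set.infinite_range_of_injective hm.injective, ?_⟩
  · rintro _ ⟨i, rfl⟩
    exact en_mem hz _
  · rintro _ ⟨k, rfl⟩
    rw [en_range hm]
    have h1 : h (2 * k) = en z (2 * en D k) := by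
      simp only [hh]
      congr 1
      have : 2 * k / 2 = k := by omega
      rw [this]
      omega
    have h2 : h (2 * k + 1) = en z (2 * en D k + 1) := by
      simp only [hh]
      congr 1
      have : (2 * k + 1) / 2 = k := by omega
      rw [this]
      omega
    simp only [h1, h2]
    exact en_mem hDi k

/-- Avoiding a set. -/
theorem exists_avoid {e : ℕ → ℕ → ℕ} {Y : Set ℕ} (hY : Y.Infinite) {A : Set ℕ}
    (hA : ∃ a₀, ∀ a ≥ a₀, {b | e a b ∈ A}.Finite) :
    ∃ z ⊆ Y, z.Infinite ∧ ∀ m ∈ TT e z, m ∉ A := by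
  obtain ⟨a₀, ha₀⟩ := hA
  have hstep : ∀ n, ∃ p : ℕ × ℕ, n < p.1 ∧ p.1 < p.2 ∧ p.1 ∈ Y ∧ p.2 ∈ Y ∧ e p.1 p.2 ∉ A := by
    intro n
    obtain ⟨a, ha, ha'⟩ := hY.exists_gt (max n a₀)
    have h1 : (Y \ {b | e a b ∈ A}).Infinite :=
      hY.sdiff (ha₀ a (le_trans (le_max_right _ _) ha'.le))
    obtain ⟨b, hb, hb'⟩ := h1.exists_gt a
    exact ⟨(a, b), lt_of_le_of_lt (le_max_left _ _) ha', hb', ha, hb.1, hb.2⟩
  choose P hP1 hP2 hP3 hP4 hP5 using hstep
  let s : ℕ → ℕ × ℕ := fun k => Nat.rec (P 0) (fun _ p => P p.2) k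
  have hs : ∀ k, s (k + 1) = P (s k).2 := fun k => rfl
  have hs' : ∀ k, ∃ n, s k = P n := by
    intro k
    cases k with
    | zero => exact ⟨0, rfl⟩
    | succ k => exact ⟨_, rfl⟩
  set h : ℕ → ℕ := fun i => if i % 2 = 0 then (s (i / 2)).1 else (s (i / 2)).2 with hh
  have he : ∀ k, h (2 * k) = (s k).1 := by
    intro k
    have h1 : 2 * k % 2 = 0 := by omega
    have h2 : 2 * k / 2 = k := by omega
    simp only [hh, h1, h2, if_true]
  have ho : ∀ k, h (2 * k + 1) = (s k).2 := by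
    intro k
    have h1 : (2 * k + 1) % 2 = 1 := by omega
    have h2 : (2 * k + 1) / 2 = k := by omega
    simp [hh, h1, h2]
  have hm : StrictMono h := by
    refine strictMono_nat_of_lt_succ fun i => ?_
    rcases Nat.even_or_odd' i with ⟨k, hk | hk⟩
    · rw [hk, he, ho]
      obtain ⟨n, hn⟩ := hs' k
      rw [hn]
      exact hP2 n
    · rw [hk, ho, show 2 * k + 1 + 1 = 2 * (k + 1) by ring, he, hs]
      exact hP1 _
  refine ⟨Set.range h, ?_, Set.infinite_range_of_injective hm.injective, ?_⟩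
  · rintro _ ⟨i, rfl⟩
    rcases Nat.even_or_odd' i with ⟨k, hk | hk⟩
    · rw [hk, he]
      obtain ⟨n, hn⟩ := hs' k
      rw [hn]
      exact hP3 n
    · rw [hk, ho]
      obtain ⟨n, hn⟩ := hs' k
      rw [hn]
      exact hP4 n
  · rintro _ ⟨k, rfl⟩
    rw [en_range hm]
    simp only [he, ho]
    obtain ⟨n, hn⟩ := hs' k
    rw [hn]
    exact hP5 n

/-- **The main lemma.** -/
theorem main {e : ℕ → ℕ → ℕ} (he : ∀ a b a' b', e a b = e a' b' → a = a' ∧ b = b')
    {g : (ℕ → ℕ) → (ℕ → Bool)} (hg : Continuous g)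
    (had : ∀ x y, g x ≠ g y → ({m | g x m = true} ∩ {m | g y m = true}).Finite)
    (hfin : ∀ x, ∃ a₀, ∀ a ≥ a₀, {b | g x (e a b) = true}.Finite) {X : Set ℕ}
    (hX : X.Infinite) :
    ∃ Y ⊆ X, Y.Infinite ∧ ∀ z ⊆ Y, z.Infinite → ∀ x, ({m | g x m = true} ∩ TT e z).Finite := by
  obtain ⟨Y, hY, hYi, hhom⟩ := exists_hom
    (S := fun i => SS e g i.unpair.1 (Nat.bodd i.unpair.2)) (fun i => cr_SS he hg _ _)
    (fun i z j hz => SS_tl hz j) hX
  have hhom' : ∀ n b, (∀ z ⊆ Y, z.Infinite → z ∈ SS e g n b) ∨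
      ∀ z ⊆ Y, z.Infinite → z ∉ SS e g n b := by
    intro n b
    cases b with
    | false =>
      have := hhom (Nat.pair n 0)
      simpa using this
    | true =>
      have := hhom (Nat.pair n 1)
      simpa using this
  refine ⟨Y, hY, hYi, fun z hz hzi x => ?_⟩
  by_contra hinf
  obtain ⟨z', hz'1, hz'2, hz'3⟩ := exists_part hzi hinf
  obtain ⟨z'', hz''1, hz''2, hz''3⟩ := exists_avoid (e := e) (A := {m | g x m = true}) hYi (hfin x)
  have h1 : ∀ n b, z' ∈ SS e g n b → b = g x n := by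
    rintro n b ⟨y, hy1, hy2⟩
    have h2 : g y = g x := by
      by_contra hne
      exact hy2 ((had y x hne).subset (Set.inter_subset_inter_right _ hz'3))
    rw [← hy1, h2]
  have h2 : ∀ n, z' ∈ SS e g n (g x n) := by
    intro n
    refine ⟨x, rfl, ?_⟩
    rw [Set.inter_eq_right.2 hz'3]
    exact TT_infinite he hz'2
  have h3 : ∀ n b, z'' ∈ SS e g n b ↔ z' ∈ SS e g n b := by
    intro n b
    rcases hhom' n b with h | h
    · exact ⟨fun _ => h z' (hz'1.trans hz) hz'2, fun _ => h z'' hz''1 hz''2⟩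
    · exact ⟨fun h4 => absurd h4 (h z'' hz''1 hz''2),
        fun h4 => absurd h4 (h z' (hz'1.trans hz) hz'2)⟩
  obtain ⟨y, -, hy2⟩ := (h3 0 (g x 0)).2 (h2 0)
  have h4 : g y = g x := by
    funext n
    exact h1 n (g y n) ((h3 n (g y n)).1 ⟨y, rfl, hy2⟩)
  rw [h4] at hy2
  obtain ⟨m, hm1, hm2⟩ := hy2.nonempty
  exact hz''3 m hm2 hm1

/-- Invariance under almost inclusion. -/
theorem almost {e : ℕ → ℕ → ℕ} {Y Y' : Set ℕ} (h : (Y' \ Y).Finite) {A : Set ℕ}
    (hY : ∀ z ⊆ Y, z.Infinite → (A ∩ TT e z).Finite) :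
    ∀ z ⊆ Y', z.Infinite → (A ∩ TT e z).Finite := by
  intro z hz hzi
  obtain ⟨M, hM⟩ := h.bddAbove
  by_contra hinf
  refine ((inter_tl_infinite hzi (M + 1) A).2 hinf) (hY _ ?_ (tl_infinite hzi _))
  intro n hn
  by_contra hnY
  have h1 := hM ⟨hz (tl_subset hzi _ hn), hnY⟩
  have h2 := tl_large hzi _ hn
  omega

end Pool.Agent.H38R3.Mad
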