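import Pool.Agent.H38R3.QTop

/-! The concrete norm, the base property for a Q-set and the sizes of the balls. -/

namespace H38Q

open Function Set Filter Topology

/-- every subset is a relative countable union of closed sets -/
def IsQSet (D : Set (ℕ → Bool)) : Prop :=
  ∀ A ⊆ D, ∃ F : ℕ → Set (ℕ → Bool), (∀ n, IsClosed (F n)) ∧ A = D ∩ ⋃ n, F n

theorem approx {D : Set (ℕ → Bool)} (hD : IsQSet D) {C : Type} [Countable C] [Nonempty C]
    (Q : D → C) : ∃ g : List Bool → C, ∀ x : D, ∀ᶠ n in atTop, g (PiNat.res x.1 n) = Q x := by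
  classical
  have h1 : ∀ c : C, ∃ F : ℕ → Set (ℕ → Bool), (∀ n, IsClosed (F n)) ∧
      {y | ∃ h : y ∈ D, Q ⟨y, h⟩ = c} = D ∩ ⋃ n, F n := fun c =>
    hD _ (fun y hy => hy.1)
  choose F hF hFD using h1
  obtain ⟨e, he⟩ := exists_injective_nat (C × ℕ)
  let P : List Bool → ℕ → Prop := fun s k =>
    ∃ p : C × ℕ, e p = k ∧ ∃ y ∈ F p.1 p.2, PiNat.res y s.length = s
  refine ⟨fun s => if h : ∃ k, P s k then (Nat.find_spec h).choose.1 else Classical.arbitrary C, ?_⟩
  intro x
  have hx : ∃ k, ∃ p : C × ℕ, e p = k ∧ x.1 ∈ F p.1 p.2 := by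
    have h2 : x.1 ∈ D ∩ ⋃ n, F (Q x) n := by
      rw [← hFD (Q x)]
      exact ⟨x.2, rfl⟩
    obtain ⟨i, hi⟩ := mem_iUnion.1 h2.2
    exact ⟨e (Q x, i), (Q x, i), rfl, hi⟩
  obtain ⟨p0, hp0, hxp0⟩ := Nat.find_spec hx
  set k0 := Nat.find hx with hk0
  have hsmall : ∀ k < k0, ∀ᶠ n in atTop, ¬ P (PiNat.res x.1 n) k := by
    intro k hk
    have h3 := Nat.find_min hx hk
    by_cases h4 : ∃ p : C × ℕ, e p = k
    · obtain ⟨p, hp⟩ := h4
      have h5 : x.1 ∉ F p.1 p.2 := fun h => h3 ⟨p, hp, h⟩
      obtain ⟨n, hn⟩ := PiNat.exists_disjoint_cylinder (hF p.1 p.2) h5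
      filter_upwards [eventually_ge_atTop n] with m hm
      rintro ⟨q, hq, y, hy, hys⟩
      have : q = p := he (hq.trans hp.symm)
      subst this
      rw [PiNat.res_length] at hys
      apply Set.disjoint_left.1 hn hy
      rw [PiNat.cylinder_eq_res]
      simp only [mem_setOf_eq]
      rw [PiNat.res_eq_res] at hys ⊢
      intro i hi
      exact hys (lt_of_lt_of_le hi hm)
    · apply Eventually.of_forall
      rintro n ⟨p, hp, _⟩
      exact h4 ⟨p, hp⟩
  have hall : ∀ᶠ n in atTop, ∀ k < k0, ¬ P (PiNat.res x.1 n) k := by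
    have : ∀ᶠ n in atTop, ∀ k ∈ Finset.range k0, ¬ P (PiNat.res x.1 n) k := by
      rw [Filter.eventually_all_finset]
      intro k hk
      exact hsmall k (Finset.mem_range.1 hk)
    filter_upwards [this] with n hn k hk
    exact hn k (Finset.mem_range.2 hk)
  filter_upwards [hall] with n hn
  have hk0P : P (PiNat.res x.1 n) k0 := ⟨p0, hp0, x.1, hxp0, by rw [PiNat.res_length]⟩
  have hex : ∃ k, P (PiNat.res x.1 n) k := ⟨k0, hk0P⟩
  rw [dif_pos hex]
  have hfind : Nat.find hex = k0 := by
    rw [Nat.find_eq_iff]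
    exact ⟨hk0P, hn⟩
  have hspec := (Nat.find_spec hex).choose_spec.1
  have h6 : (Nat.find_spec hex).choose = p0 := by
    apply he
    rw [hspec, hfind, hp0]
  rw [h6]
  have h7 : x.1 ∈ {y | ∃ h : y ∈ D, Q ⟨y, h⟩ = p0.1} := by
    rw [hFD p0.1]
    exact ⟨x.2, mem_iUnion.2 ⟨p0.2, hxp0⟩⟩
  obtain ⟨_, h8⟩ := h7
  exact h8.symm

section norm

variable (w : ℕ → ℕ) {m : ℕ}

/-- the norm of an element: the first index of a block beyond which it vanishes -/
noncomputable def nrm (g : ℕ →₀ ZMod m) : ℕ := sInf {k | ∀ i, w k ≤ i → g i = 0}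

variable {w}

theorem nrm_le_iff (hw : StrictMono w) (g : ℕ →₀ ZMod m) (k : ℕ) :
    nrm w g ≤ k ↔ ∀ i, w k ≤ i → g i = 0 := by
  have hne : {k | ∀ i, w k ≤ i → g i = 0}.Nonempty := by
    refine ⟨g.support.sup id + 1, ?_⟩
    intro i hi
    by_contra hgi
    have h1 : i ≤ g.support.sup id := Finset.le_sup (f := id) (Finsupp.mem_support_iff.2 hgi)
    have h2 := hw.id_le (g.support.sup id + 1)
    simp only [id_eq] at h2
    omega
  constructor
  · intro h i hi
    have h1 := Nat.sInf_mem hne
    exact h1 i ((hw.monotone h).trans hi)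
  · intro h
    exact Nat.sInf_le h

theorem isUNorm_nrm [NeZero m] (hw : StrictMono w) (hw0 : w 0 = 0) :
    IsUNorm (nrm w : (ℕ →₀ ZMod m) → ℕ) where
  zero_iff := by
    intro g
    rw [← Nat.le_zero, nrm_le_iff hw, hw0]
    constructor
    · intro h
      ext i
      simp [h i (Nat.zero_le _)]
    · rintro rfl i _
      simp
  add_le := by
    intro f g
    rw [nrm_le_iff hw]
    intro i hi
    have h1 := (nrm_le_iff hw f _).1 (le_max_left (nrm w f) (nrm w g)) i hi
    have h2 := (nrm_le_iff hw g _).1 (le_max_right (nrm w f) (nrm w g)) i hi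
    rw [Finsupp.add_apply, h1, h2, add_zero]
  neg_eq := by
    intro g
    unfold nrm
    simp
  fin := by
    intro j
    apply Set.Finite.of_injOn (f := fun (g : ℕ →₀ ZMod m) => (fun i : Fin (w j) => g i))
      (t := univ) (fun _ _ => mem_univ _) ?_ finite_univ
    intro f hf g hg hfg
    rw [mem_setOf_eq, nrm_le_iff hw] at hf hg
    ext i
    by_cases hi : i < w j
    · have := congrFun hfg ⟨i, hi⟩
      simp only at this
      rw [this]
    · rw [hf i (by omega), hg i (by omega)]

theorem ball_nrm [NeZero m] (hw : StrictMono w) (j : ℕ) :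
    ball (nrm w : (ℕ →₀ ZMod m) → ℕ) j = m ^ (w j) := by
  classical
  let e : {g : ℕ →₀ ZMod m // nrm w g ≤ j} ≃ (Fin (w j) → ZMod m) :=
    { toFun := fun g i => g.1 i
      invFun := fun f => ⟨Finsupp.onFinset (Finset.range (w j))
        (fun i => if h : i < w j then f ⟨i, h⟩ else 0) (by
          intro i hi
          rw [Finset.mem_range]
          by_contra hcon
          exact hi (dif_neg hcon)), by
          rw [nrm_le_iff hw]
          intro i hi
          rw [Finsupp.onFinset_apply, dif_neg (by omega)]⟩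
      left_inv := by
        rintro ⟨g, hg⟩
        rw [nrm_le_iff hw] at hg
        apply Subtype.ext
        ext i
        simp only [Finsupp.onFinset_apply]
        by_cases hi : i < w j
        · rw [dif_pos hi]
        · rw [dif_neg hi, hg i (by omega)]
      right_inv := by
        intro f
        funext i
        simp }
  have h1 : ball (nrm w : (ℕ →₀ ZMod m) → ℕ) j = Nat.card {g : ℕ →₀ ZMod m // nrm w g ≤ j} := by
    rfl
  rw [h1, Nat.card_congr e]
  simp

end norm

/-- the block lengths -/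
def wl (c : ℕ) : ℕ → ℕ
  | 0 => 0
  | j + 1 => c * wl c j + 2

theorem wl_strictMono {c : ℕ} (hc : 1 ≤ c) : StrictMono (wl c) := by
  apply strictMono_nat_of_lt_succ
  intro j
  simp only [wl]
  nlinarith

theorem pow_le_two_pow (m k : ℕ) : m ^ k ≤ 2 ^ (m * k) := by
  rw [pow_mul]
  exact Nat.pow_le_pow_left (Nat.lt_two_pow_self).le k

theorem size_ineq {m n : ℕ} (hm : 2 ≤ m) (hn : 2 ≤ n) (q : ℕ) (hq : 2 ≤ q) (j : ℕ) :
    2 * m ^ (wl (m + n) j) + 2 * n ^ (wl (m + n) j) ≤ q ^ (wl (m + n) (j + 1)) := by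
  have h1 : m ^ (wl (m + n) j) ≤ 2 ^ ((m + n) * wl (m + n) j) :=
    (pow_le_two_pow m _).trans (Nat.pow_le_pow_right (by norm_num)
      (Nat.mul_le_mul_right _ (by omega)))
  have h2 : n ^ (wl (m + n) j) ≤ 2 ^ ((m + n) * wl (m + n) j) :=
    (pow_le_two_pow n _).trans (Nat.pow_le_pow_right (by norm_num)
      (Nat.mul_le_mul_right _ (by omega)))
  have h3 : q ^ (wl (m + n) (j + 1)) ≥ 2 ^ (wl (m + n) (j + 1)) := Nat.pow_le_pow_left hq _
  have h4 : 2 ^ (wl (m + n) (j + 1)) = 4 * 2 ^ ((m + n) * wl (m + n) j) := by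
    simp only [wl]
    rw [pow_add]
    ring
  omega

section base

variable {D : Set (ℕ → Bool)} {m : ℕ} {w : ℕ → ℕ}

theorem isBase [NeZero m] (hD : IsQSet D) (hw : StrictMono w) (hw0 : w 0 = 0) :
    IsBase D (isUNorm_nrm (m := m) hw hw0) := by
  classical
  intro S hS
  let C : Type := X D (ℕ →₀ ZMod m) ⧸ S
  haveI : Countable C := hS
  let φ : X D (ℕ →₀ ZMod m) →+ C := QuotientAddGroup.mk' S
  let Q : ℕ → D → (ZMod m →+ C) := fun j x =>
    (φ.comp (Finsupp.singleAddHom x)).comp (Finsupp.singleAddHom j)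
  haveI : Countable (ZMod m →+ C) := DFunLike.coe_injective.countable
  have hg := fun j => approx hD (Q j)
  choose g hg using hg
  let U : ℕ → Set (List Bool) := fun j => {s | s = [] ∨ g j s ≠ g j s.tail}
  have hU : ∀ j, ∀ x ∈ D, ∀ᶠ n in atTop, PiNat.res x n ∉ U j := by
    intro j x hx
    have h1 := hg j ⟨x, hx⟩
    rw [eventually_atTop] at h1 ⊢
    obtain ⟨n, hn⟩ := h1
    refine ⟨n + 1, ?_⟩
    intro k hk
    obtain ⟨k, rfl⟩ : ∃ k', k = k' + 1 := ⟨k - 1, by omega⟩
    simp only [U, mem_setOf_eq, not_or, not_not, PiNat.res_succ, List.tail_cons]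
    refine ⟨List.cons_ne_nil _ _, ?_⟩
    have h2 := hn (k + 1) (by omega)
    have h3 := hn k (by omega)
    simp only [PiNat.res_succ] at h2
    simp only at h3
    rw [h2, h3]
  let μ : List Bool → ℕ := fun s => Nat.findGreatest (fun k => ∀ j < w k, s ∉ U j) s.length
  have hμ : ∀ s, ∀ j < w (μ s), s ∉ U j := by
    intro s
    have h1 : (fun k => ∀ j < w k, s ∉ U j) 0 := by
      intro j hj
      rw [hw0] at hj
      omega
    exact Nat.findGreatest_spec (P := fun k => ∀ j < w k, s ∉ U j) (Nat.zero_le _) h1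
  refine ⟨μ, ?_, ?_⟩
  · intro x hx K
    have h1 : ∀ᶠ n in atTop, ∀ j ∈ Finset.range (w K), PiNat.res x n ∉ U j := by
      rw [Filter.eventually_all_finset]
      intro j _
      exact hU j x hx
    filter_upwards [h1, eventually_ge_atTop K] with n hn hnK
    apply Nat.le_findGreatest
    · rw [PiNat.res_length]
      exact hnK
    · intro j hj
      exact hn j (Finset.mem_range.2 hj)
  · intro v hv
    rw [mem_W] at hv
    -- coordinates vanish at the relevant nodes
    have hcoord : ∀ j, ∀ s ∈ U j, (sg s v) j = 0 := by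
      intro j s hs
      have h1 := (nrm_le_iff hw _ _).1 (hv s)
      apply h1
      by_contra hcon
      exact hμ s j (by omega) hs
    have hsum : ∀ j, ∀ n, ∑ x ∈ v.support, g j (PiNat.res x.1 n) ((v x) j) = 0 := by
      intro j n
      induction n with
      | zero =>
        have h1 : ∀ x ∈ v.support, g j (PiNat.res x.1 0) ((v x) j) = g j [] ((v x) j) := by
          intro x _
          rw [PiNat.res_zero]
        rw [Finset.sum_congr rfl h1, ← map_sum]
        have h2 : ∑ x ∈ v.support, (v x) j = (sg [] v) j := by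
          rw [sg_apply, Finsupp.finset_sum_apply]
          apply Finset.sum_congr rfl
          intro x _
          rw [if_pos]
          simp
        rw [h2, hcoord j [] (Or.inl rfl), map_zero]
      | succ n ih =>
        have h1 : ∑ x ∈ v.support, g j (PiNat.res x.1 (n + 1)) ((v x) j) =
            ∑ x ∈ v.support, (g j (PiNat.res x.1 (n + 1)) - g j (PiNat.res x.1 n)) ((v x) j) := by
          rw [← sub_eq_zero, ← Finset.sum_sub_distrib, ← ih]
          apply Finset.sum_congr rfl
          intro x _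
          rw [AddMonoidHom.sub_apply]
          abel
        rw [h1]
        rw [← Finset.sum_fiberwise_of_maps_to (s := v.support)
          (t := v.support.image (fun x => PiNat.res x.1 (n + 1)))
          (g := fun x => PiNat.res x.1 (n + 1))
          (fun x hx => Finset.mem_image_of_mem _ hx)]
        apply Finset.sum_eq_zero
        intro s hs
        obtain ⟨x0, _, hx0⟩ := Finset.mem_image.1 hs
        have hslen : s.length = n + 1 := by rw [← hx0, PiNat.res_length]
        have h2 : ∀ x ∈ v.support.filter (fun x => PiNat.res x.1 (n + 1) = s),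
            (g j (PiNat.res x.1 (n + 1)) - g j (PiNat.res x.1 n)) ((v x) j) =
            (g j s - g j s.tail) ((v x) j) := by
          intro x hx
          have h3 := (Finset.mem_filter.1 hx).2
          have h4 : PiNat.res x.1 n = s.tail := by
            rw [← h3, PiNat.res_succ, List.tail_cons]
          rw [h3, h4]
        rw [Finset.sum_congr rfl h2, ← map_sum]
        have h5 : ∑ x ∈ v.support.filter (fun x => PiNat.res x.1 (n + 1) = s), (v x) j =
            (sg s v) j := by
          rw [sg_apply, Finsupp.finset_sum_apply, Finset.sum_filter]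
          apply Finset.sum_congr rfl
          intro x _
          rw [hslen]
          split_ifs <;> simp
        rw [h5]
        by_cases h6 : s ∈ U j
        · rw [hcoord j s h6, map_zero]
        · have h7 : g j s = g j s.tail := by
            by_contra h8
            exact h6 (Or.inr h8)
          rw [AddMonoidHom.sub_apply, h7, sub_self]
    -- the image of v vanishes
    have hcoordsum : ∀ j, ∑ x ∈ v.support, Q j x ((v x) j) = 0 := by
      intro j
      have h1 : ∀ᶠ n in atTop, ∀ x ∈ v.support, g j (PiNat.res x.1 n) = Q j x := by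
        rw [Filter.eventually_all_finset]
        intro x _
        exact hg j x
      obtain ⟨n, hn⟩ := h1.exists
      rw [← hsum j n]
      apply Finset.sum_congr rfl
      intro x hx
      rw [hn x hx]
    have hφv : φ v = 0 := by
      let J : Finset ℕ := v.support.biUnion (fun x => (v x).support)
      have h1 : φ v = ∑ x ∈ v.support, ∑ j ∈ J, Q j x ((v x) j) := by
        conv_lhs => rw [← Finsupp.sum_single v, Finsupp.sum, map_sum]
        apply Finset.sum_congr rfl
        intro x hx
        have h2 : v x = ∑ j ∈ J, Finsupp.single j ((v x) j) := by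
          conv_lhs => rw [← Finsupp.sum_single (v x), Finsupp.sum]
          apply Finset.sum_subset (Finset.subset_biUnion_of_mem (fun x => (v x).support) hx)
          intro j _ hj
          rw [Finsupp.notMem_support_iff] at hj
          rw [hj, Finsupp.single_zero]
        have h3 : φ (Finsupp.single x (v x)) =
            (φ.comp (Finsupp.singleAddHom x)) (∑ j ∈ J, Finsupp.single j ((v x) j)) := by
          rw [← h2]
          rfl
        rw [h3, map_sum]
        rfl
      rw [h1, Finset.sum_comm]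
      apply Finset.sum_eq_zero
      intro j _
      exact hcoordsum j
    exact (QuotientAddGroup.eq_zero_iff v).1 hφv

end base

/-- the homeomorphism between the two groups of measures -/
theorem homeo_measures {D : Set (ℕ → Bool)} (hD : IsQSet D) {m n : ℕ} (hm : 2 ≤ m) (hn : 2 ≤ n) :
    Nonempty (@Homeomorph (X D (ℕ →₀ ZMod m)) (X D (ℕ →₀ ZMod n)) (rho _) (rho _)) := by
  haveI : NeZero m := ⟨by omega⟩
  haveI : NeZero n := ⟨by omega⟩
  have hw := wl_strictMono (c := m + n) (by omega)
  have hA := isUNorm_nrm (m := m) hw rfl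
  have hB := isUNorm_nrm (m := n) hw rfl
  have hs : ∀ j, 2 * ball (nrm (wl (m + n)) : (ℕ →₀ ZMod m) → ℕ) j +
      2 * ball (nrm (wl (m + n)) : (ℕ →₀ ZMod n) → ℕ) j ≤
      ball (nrm (wl (m + n)) : (ℕ →₀ ZMod n) → ℕ) (j + 1) := by
    intro j
    rw [ball_nrm hw, ball_nrm hw, ball_nrm hw]
    exact size_ineq hm hn n hn j
  have hs' : ∀ j, 2 * ball (nrm (wl (m + n)) : (ℕ →₀ ZMod n) → ℕ) j +
      2 * ball (nrm (wl (m + n)) : (ℕ →₀ ZMod m) → ℕ) j ≤
      ball (nrm (wl (m + n)) : (ℕ →₀ ZMod m) → ℕ) (j + 1) := by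
    intro j
    rw [ball_nrm hw, ball_nrm hw, ball_nrm hw, add_comm]
    exact size_ineq hm hn m hm j
  classical
  let M : Mat (nrm (wl (m + n)) : (ℕ →₀ ZMod m) → ℕ) (nrm (wl (m + n)) : (ℕ →₀ ZMod n) → ℕ) :=
    { κ := fun a b => if h : Rel _ _ a b then (exists_kappa hA hB hs hs' a b h).choose
        else (exists_kappa hA hB hs hs' 0 0 (by
          refine ⟨by simp, ?_, ?_⟩
          · rw [(hA.zero_iff 0).2 rfl, (hB.zero_iff 0).2 rfl]
            omega
          · rw [(hA.zero_iff 0).2 rfl, (hB.zero_iff 0).2 rfl]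
            omega)).choose
      spec := by
        intro a b h c
        rw [dif_pos h]
        exact (exists_kappa hA hB hs hs' a b h).choose_spec c }
  have h0 : Rel (nrm (wl (m + n)) : (ℕ →₀ ZMod m) → ℕ) (nrm (wl (m + n)) : (ℕ →₀ ZMod n) → ℕ)
      0 0 := by
    refine ⟨by simp, ?_, ?_⟩
    · rw [(hA.zero_iff 0).2 rfl, (hB.zero_iff 0).2 rfl]
      omega
    · rw [(hA.zero_iff 0).2 rfl, (hB.zero_iff 0).2 rfl]
      omega
  haveI : Countable (ZMod m) := Finite.to_countable
  haveI : Countable (ZMod n) := Finite.to_countable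
  exact M.homeo hA hB h0 (isBase hD hw rfl) (isBase hD hw rfl)

/-- the final statement for an arbitrary index set of the size of a Q-set -/
theorem homeo_sums {D : Set (ℕ → Bool)} (hD : IsQSet D) (hDi : D.Infinite) {ι : Type}
    (hι : Cardinal.mk ι = Cardinal.mk D) {m n : ℕ} (hm : 2 ≤ m) (hn : 2 ≤ n) :
    Nonempty (@Homeomorph (ι →₀ ZMod m) (ι →₀ ZMod n) (rho _) (rho _)) := by
  have h1 : Cardinal.mk ι = Cardinal.mk (D × ℕ) := by
    rw [Cardinal.mk_prod, Cardinal.lift_id, Cardinal.lift_id, Cardinal.mk_nat, hι]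
    rw [Cardinal.mul_aleph0_eq]
    exact Cardinal.infinite_iff.1 (Set.infinite_coe_iff.2 hDi)
  obtain ⟨e⟩ := Cardinal.eq.1 h1
  have key : ∀ k : ℕ, Nonempty (@Homeomorph (ι →₀ ZMod k) (X D (ℕ →₀ ZMod k)) (rho _) (rho _)) := by
    intro k
    let E : (ι →₀ ZMod k) ≃+ (X D (ℕ →₀ ZMod k)) :=
      (Finsupp.domCongr e).trans Finsupp.curryAddEquiv
    exact ⟨@Homeomorph.mk _ _ (rho _) (rho _) E.toEquiv (continuous_of_addEquiv E)
      (continuous_of_addEquiv E.symm)⟩
  obtain ⟨f⟩ := key m
  obtain ⟨g⟩ := key n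
  obtain ⟨h⟩ := homeo_measures hD hm hn
  letI := rho (ι →₀ ZMod m)
  letI := rho (ι →₀ ZMod n)
  letI := rho (X D (ℕ →₀ ZMod m))
  letI := rho (X D (ℕ →₀ ZMod n))
  exact ⟨(f.trans h).trans g.symm⟩

end H38Q
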