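import Pool.Agent.H38R3.QWeight

/-! Weighted seminorms generate the finest omega bounded group topology, under Martin's axiom. -/

namespace H38Q

open Function Set Filter Topology Cardinal
open scoped NNReal ENNReal

section hom

variable {X : Type} [AddCommGroup X] {m : ℕ} [NeZero m]

/-- the seminorm on the homomorphisms from a finite cyclic group -/
noncomputable def rhoY (ρ : X → ℝ) (h : ZMod m →+ X) : ℝ := ∑ c : ZMod m, ρ (h c)

theorem rhoY_isSN {ρ : X → ℝ} (hρ : IsSN ρ) : IsSN (rhoY (m := m) ρ) where
  zero := by simp [rhoY, hρ.zero]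
  neg := fun u => by simp [rhoY, hρ.neg]
  add := fun u v => by
    rw [rhoY, rhoY, rhoY, ← Finset.sum_add_distrib]
    exact Finset.sum_le_sum (fun c _ => by
      rw [AddMonoidHom.add_apply]
      exact hρ.add _ _)
  nonneg := fun u => Finset.sum_nonneg (fun c _ => hρ.nonneg _)

theorem rhoY_sep {ρ : X → ℝ} (hs : Sep' ρ) : Sep' (rhoY (m := m) ρ) := by
  intro ε hε
  have hm : (0 : ℝ) < m := by exact_mod_cast Nat.pos_of_ne_zero (NeZero.ne m)
  obtain ⟨c, hc⟩ := hs (ε / m) (by positivity)
  obtain ⟨e, he⟩ := exists_injective_nat (ZMod m → ℕ)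
  refine ⟨fun h => e (fun a => c (h a)), ?_⟩
  intro u v huv
  have h1 := he huv
  have h2 : ∀ a : ZMod m, ρ ((u - v) a) < ε / m := fun a => by
    rw [AddMonoidHom.sub_apply]
    exact hc _ _ (congrFun h1 a)
  have h3 : rhoY ρ (u - v) < ∑ _c : ZMod m, ε / m :=
    Finset.sum_lt_sum_of_nonempty Finset.univ_nonempty (fun a _ => h2 a)
  rw [Finset.sum_const, Finset.card_univ, ZMod.card, nsmul_eq_mul, mul_div_cancel₀ _ hm.ne'] at h3
  exact h3

theorem rho_le_rhoY {ρ : X → ℝ} (hρ : IsSN ρ) (h : ZMod m →+ X) (c : ZMod m) :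
    ρ (h c) ≤ rhoY ρ h :=
  Finset.single_le_sum (f := fun c => ρ (h c)) (fun _ _ => hρ.nonneg _) (Finset.mem_univ c)

end hom

variable {D : Set (ℕ → Bool)} {m : ℕ} {w : ℕ → ℕ}

theorem isBaseW [NeZero m] (hMA : MASigmaCentered) (hD : #D ≤ ℵ₁) (hw : StrictMono w)
    (hw0 : w 0 = 0) {t : TopologicalSpace (X D (ℕ →₀ ZMod m))}
    (ht : t ∈ OmegaTops (X D (ℕ →₀ ZMod m))) {U : Set (X D (ℕ →₀ ZMod m))}
    (hU : U ∈ @nhds _ t 0) :
    ∃ C, GoodW D C ∧ ∀ v : X D (ℕ →₀ ZMod m), (nu (nrm w) C v).toReal < 1 → v ∈ U := by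
  classical
  obtain ⟨ρ, hρ, hsep, hρU⟩ := exists_seminorm_of_top ht hU
  let mj : ℕ → D → (ZMod m →+ X D (ℕ →₀ ZMod m)) := fun j x =>
    (Finsupp.singleAddHom x).comp (Finsupp.singleAddHom j)
  have hma := fun j => ma_lemma hMA (rhoY_isSN (m := m) hρ) (rhoY_sep hsep) hD (mj j)
  choose g hg0 hgK hgN using hma
  let u : ℕ → List Bool → ℝ≥0∞ := fun j t => ENNReal.ofReal (rhoY ρ (g j t - g j t.tail))
  let C : List Bool → ℕ → ℝ≥0∞ := fun t k => ∑ j ∈ Finset.range (w k), u j t
  have hY := rhoY_isSN (m := m) hρ
  have hC : GoodW D C := by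
    refine ⟨fun t => by simp [C, hw0], ?_, ?_⟩
    · intro t k l hkl
      apply Finset.sum_le_sum_of_subset
      intro j hj
      rw [Finset.mem_range] at hj ⊢
      exact lt_of_lt_of_le hj (hw.monotone hkl)
    · intro x hx k
      simp only [C]
      rw [Summable.tsum_finsetSum (fun _ _ => ENNReal.summable), ENNReal.sum_ne_top]
      intro j _
      obtain ⟨K, hK⟩ := hgK j ⟨x, hx⟩
      refine ne_top_of_le_ne_top (b := ENNReal.ofReal K) ENNReal.ofReal_ne_top ?_
      rw [ENNReal.tsum_eq_iSup_nat]
      apply iSup_le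
      intro n
      have h1 : ∑ i ∈ Finset.range n, u j (PiNat.res x i) ≤
          ∑ i ∈ Finset.range (n + 1), u j (PiNat.res x i) :=
        Finset.sum_le_sum_of_subset (fun i hi => by
          rw [Finset.mem_range] at hi ⊢
          omega)
      refine h1.trans ?_
      rw [Finset.sum_range_succ']
      have h2 : u j (PiNat.res x 0) = 0 := by
        simp [u, PiNat.res_zero, hY.zero]
      rw [h2, add_zero]
      have h3 : ∑ i ∈ Finset.range n, u j (PiNat.res x (i + 1)) =
          ENNReal.ofReal (∑ i ∈ Finset.range n, rhoY ρ (g j (PiNat.res x (i + 1)) -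
            g j (PiNat.res x i))) := by
        rw [ENNReal.ofReal_sum_of_nonneg (fun i _ => hY.nonneg _)]
        apply Finset.sum_congr rfl
        intro i _
        simp only [u, PiNat.res_succ, List.tail_cons]
      rw [h3]
      exact ENNReal.ofReal_le_ofReal (hK n)
  refine ⟨C, hC, ?_⟩
  intro v hv
  -- the main inequality
  have hmain : ENNReal.ofReal (ρ v) ≤ nu (nrm w) C v := by
    set E := v.support with hE
    let J : Finset ℕ := E.biUnion (fun x => (v x).support)
    let S : ℕ → X D (ℕ →₀ ZMod m) := fun j => ∑ x ∈ E, mj j x ((v x) j)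
    let G : ℕ → ℕ → X D (ℕ →₀ ZMod m) := fun j n => ∑ x ∈ E, g j (PiNat.res x.1 n) ((v x) j)
    let L : ℕ → ℝ≥0∞ := fun j => ∑' t, (if (sg t v) j = 0 then 0 else u j t)
    -- decomposition
    have hvS : v = ∑ j ∈ J, S j := by
      have h1 : v = ∑ x ∈ E, ∑ j ∈ J, mj j x ((v x) j) := by
        conv_lhs => rw [← Finsupp.sum_single v, Finsupp.sum]
        apply Finset.sum_congr rfl
        intro x hx
        have h2 : v x = ∑ j ∈ J, Finsupp.single j ((v x) j) := by
          conv_lhs => rw [← Finsupp.sum_single (v x), Finsupp.sum]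
          apply Finset.sum_subset (Finset.subset_biUnion_of_mem (fun x => (v x).support) hx)
          intro j _ hj
          rw [Finsupp.notMem_support_iff] at hj
          rw [hj, Finsupp.single_zero]
        have h3 : Finsupp.single x (v x) =
            (Finsupp.singleAddHom x) (∑ j ∈ J, Finsupp.single j ((v x) j)) := by
          rw [← h2]
          rfl
        rw [h3, map_sum]
        rfl
      rw [Finset.sum_comm] at h1
      exact h1
    -- finite approximations
    have hG : ∀ j n, ENNReal.ofReal (ρ (G j n)) ≤ ∑ i ∈ Finset.range n,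
        ∑ s ∈ E.image (fun x => PiNat.res x.1 (i + 1)),
          (if (sg s v) j = 0 then 0 else u j s) := by
      intro j n
      induction n with
      | zero =>
        have h1 : G j 0 = 0 := by
          apply Finset.sum_eq_zero
          intro x _
          rw [PiNat.res_zero, hg0]
          rfl
        rw [h1, hρ.zero]
        simp
      | succ n ih =>
        have h1 : G j (n + 1) = G j n + ∑ s ∈ E.image (fun x => PiNat.res x.1 (n + 1)),
            (g j s - g j s.tail) ((sg s v) j) := by
          have h2 : G j (n + 1) = G j n +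
              ∑ x ∈ E, (g j (PiNat.res x.1 (n + 1)) - g j (PiNat.res x.1 n)) ((v x) j) := by
            simp only [G]
            rw [← Finset.sum_add_distrib]
            apply Finset.sum_congr rfl
            intro x _
            rw [AddMonoidHom.sub_apply]
            abel
          rw [h2]
          congr 1
          rw [← Finset.sum_fiberwise_of_maps_to (s := E)
            (t := E.image (fun x => PiNat.res x.1 (n + 1)))
            (g := fun x => PiNat.res x.1 (n + 1))
            (fun x hx => Finset.mem_image_of_mem _ hx)]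
          apply Finset.sum_congr rfl
          intro s hs
          obtain ⟨x0, _, hx0⟩ := Finset.mem_image.1 hs
          have hslen : s.length = n + 1 := by rw [← hx0, PiNat.res_length]
          have h2 : ∀ x ∈ E.filter (fun x => PiNat.res x.1 (n + 1) = s),
              (g j (PiNat.res x.1 (n + 1)) - g j (PiNat.res x.1 n)) ((v x) j) =
              (g j s - g j s.tail) ((v x) j) := by
            intro x hx
            have h3 := (Finset.mem_filter.1 hx).2
            have h4 : PiNat.res x.1 n = s.tail := by
              rw [← h3, PiNat.res_succ, List.tail_cons]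
            rw [h3, h4]
          rw [Finset.sum_congr rfl h2, ← map_sum]
          congr 1
          rw [sg_apply, Finsupp.finsetSum_apply, Finset.sum_filter]
          apply Finset.sum_congr rfl
          intro x _
          rw [hslen]
          split_ifs <;> simp
        rw [Finset.sum_range_succ, h1]
        have h2 := hρ.add (G j n) (∑ s ∈ E.image (fun x => PiNat.res x.1 (n + 1)),
            (g j s - g j s.tail) ((sg s v) j))
        refine (ENNReal.ofReal_le_ofReal h2).trans ?_
        rw [ENNReal.ofReal_add (hρ.nonneg _) (hρ.nonneg _)]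
        apply add_le_add ih
        refine (ENNReal.ofReal_le_ofReal (hρ.sum_le _ _)).trans ?_
        rw [ENNReal.ofReal_sum_of_nonneg (fun _ _ => hρ.nonneg _)]
        apply Finset.sum_le_sum
        intro s _
        by_cases h3 : (sg s v) j = 0
        · rw [if_pos h3, h3, map_zero, hρ.zero, ENNReal.ofReal_zero]
        · rw [if_neg h3]
          exact ENNReal.ofReal_le_ofReal (rho_le_rhoY hρ _ _)
    have hGL : ∀ j n, ENNReal.ofReal (ρ (G j n)) ≤ L j := by
      intro j n
      refine (hG j n).trans ?_
      rw [← Finset.sum_biUnion]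
      · exact ENNReal.sum_le_tsum _
      · intro i _ k _ hik
        rw [Function.onFun, Finset.disjoint_left]
        intro s hs hs'
        obtain ⟨x, _, hx⟩ := Finset.mem_image.1 hs
        obtain ⟨y, _, hy⟩ := Finset.mem_image.1 hs'
        apply hik
        have h1 : i + 1 = s.length := (PiNat.res_length x.1 (i + 1)).symm.trans
          (congrArg List.length hx)
        have h2 : k + 1 = s.length := (PiNat.res_length y.1 (k + 1)).symm.trans
          (congrArg List.length hy)
        omega
    have hSL : ∀ j, ENNReal.ofReal (ρ (S j)) ≤ L j := by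
      intro j
      apply ENNReal.le_of_forall_pos_le_add
      intro ε hε _
      have hcard : (0 : ℝ) < (E.card : ℝ) + 1 := Nat.cast_add_one_pos _
      have hεr : (0 : ℝ) < (ε : ℝ) := NNReal.coe_pos.2 hε
      obtain ⟨n, hn⟩ := hgN j E (ε / ((E.card : ℝ) + 1)) (div_pos hεr hcard)
      have h1 : S j = G j n + ∑ x ∈ E, (mj j x - g j (PiNat.res x.1 n)) ((v x) j) := by
        simp only [S, G]
        rw [← Finset.sum_add_distrib]
        apply Finset.sum_congr rfl
        intro x _
        rw [AddMonoidHom.sub_apply]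
        abel
      have h2 : ρ (∑ x ∈ E, (mj j x - g j (PiNat.res x.1 n)) ((v x) j)) ≤ ε := by
        refine (hρ.sum_le _ _).trans ?_
        have h3 : ∑ x ∈ E, ρ ((mj j x - g j (PiNat.res x.1 n)) ((v x) j)) ≤
            ∑ _x ∈ E, (ε : ℝ) / ((E.card : ℝ) + 1) :=
          Finset.sum_le_sum (fun x hx => (rho_le_rhoY hρ _ _).trans (hn x hx).le)
        refine h3.trans ?_
        rw [Finset.sum_const, nsmul_eq_mul, mul_div_assoc', div_le_iff₀ hcard]
        have h4 : (0 : ℝ) ≤ ε := ε.2
        nlinarith
      rw [h1]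
      refine (ENNReal.ofReal_le_ofReal (hρ.add _ _)).trans ?_
      rw [ENNReal.ofReal_add (hρ.nonneg _) (hρ.nonneg _)]
      apply add_le_add (hGL j n)
      refine (ENNReal.ofReal_le_ofReal h2).trans ?_
      rw [ENNReal.ofReal_coe_nnreal]
    have h1 : ENNReal.ofReal (ρ v) ≤ ∑ j ∈ J, L j := by
      conv_lhs => rw [hvS]
      refine (ENNReal.ofReal_le_ofReal (hρ.sum_le _ _)).trans ?_
      rw [ENNReal.ofReal_sum_of_nonneg (fun _ _ => hρ.nonneg _)]
      exact Finset.sum_le_sum (fun j _ => hSL j)
    refine h1.trans ?_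
    simp only [L]
    rw [← Summable.tsum_finsetSum (fun _ _ => ENNReal.summable)]
    apply ENNReal.tsum_le_tsum
    intro s
    have h2 : ∑ j ∈ J, (if (sg s v) j = 0 then 0 else u j s) =
        ∑ j ∈ J.filter (fun j => (sg s v) j ≠ 0), u j s := by
      rw [Finset.sum_filter]
      apply Finset.sum_congr rfl
      intro j _
      by_cases h : (sg s v) j = 0
      · rw [if_pos h, if_neg (not_not.2 h)]
      · rw [if_neg h, if_pos h]
    rw [h2]
    apply Finset.sum_le_sum_of_subset
    intro j hj
    rw [Finset.mem_filter] at hj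
    rw [Finset.mem_range]
    by_contra hcon
    exact hj.2 ((nrm_le_iff hw _ _).1 le_rfl j (by omega))
  apply hρU
  have hfin := nu_ne_top (isUNorm_nrm (m := m) hw hw0) hC v
  have h1 : nu (nrm w) C v < 1 := by
    rw [← ENNReal.toReal_lt_toReal hfin ENNReal.one_ne_top, ENNReal.toReal_one]
    exact hv
  have h2 := hmain.trans_lt h1
  rwa [← ENNReal.ofReal_one, ENNReal.ofReal_lt_ofReal_iff one_pos] at h2

end H38Q
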