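import Pool.Agent.H38R3.QBaseW

/-! The finest omega bounded group topology and the final homeomorphism. -/

namespace H38Q

open Function Set Filter Topology Cardinal
open scoped NNReal ENNReal

/-- the finest omega bounded group topology -/
@[reducible] def frakG (K : Type) [AddCommGroup K] : TopologicalSpace K := sInf (OmegaTops K)

/-- coding of neighbourhoods -/
theorem code_of_omega {K : Type} [AddCommGroup K] {t : TopologicalSpace K} (ht : t ∈ OmegaTops K)
    {U : Set K} (hU : U ∈ @nhds K t 0) : ∃ c : K → ℕ, ∀ y z, c y = c z → y - z ∈ U := by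
  obtain ⟨ρ, hρ, hs, hρU⟩ := exists_seminorm_of_top ht hU
  obtain ⟨c, hc⟩ := hs 1 one_pos
  exact ⟨c, fun y z h => hρU _ (hc y z h)⟩

theorem omegaBounded_of_code {K : Type} [AddCommGroup K] {t : TopologicalSpace K}
    (ht : @IsTopologicalAddGroup K t _)
    (h : ∀ U ∈ @nhds K t 0, ∃ c : K → ℕ, ∀ y z, c y = c z → y - z ∈ U) : OmegaBounded t := by
  classical
  letI := t
  haveI := ht
  intro U hU hUne
  obtain ⟨x0, hx0⟩ := hUne
  have h1 : (fun y => x0 + y) ⁻¹' U ∈ 𝓝 (0 : K) := by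
    apply (continuous_const.add continuous_id).continuousAt
    simpa using hU.mem_nhds hx0
  obtain ⟨c, hc⟩ := h _ h1
  let r : ℕ → K := fun n => if h : ∃ u, c u = n then h.choose else 0
  refine ⟨Set.range (fun n => r n - x0), Set.countable_range _, ?_⟩
  intro x
  have hr : c (r (c x)) = c x := by
    have hex : ∃ u, c u = c x := ⟨x, rfl⟩
    simp only [r, dif_pos hex]
    exact hex.choose_spec
  refine ⟨x0 + (x - r (c x)), hc _ _ hr.symm, r (c x) - x0, ⟨c x, rfl⟩, by abel⟩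

theorem isLeast_frakG (K : Type) [AddCommGroup K] : IsLeast (OmegaTops K) (frakG K) := by
  have hgrp : @IsTopologicalAddGroup K (frakG K) _ :=
    topologicalAddGroup_sInf (fun t ht => ht.1)
  refine ⟨⟨hgrp, ?_⟩, fun t ht => sInf_le ht⟩
  apply omegaBounded_of_code hgrp
  let F : Filter K :=
    { sets := {U | ∃ c : K → ℕ, ∀ y z, c y = c z → y - z ∈ U}
      univ_sets := ⟨fun _ => 0, fun _ _ _ => mem_univ _⟩
      sets_of_superset := fun ⟨c, hc⟩ hUV => ⟨c, fun y z h => hUV (hc y z h)⟩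
      inter_sets := by
        rintro U V ⟨c, hc⟩ ⟨d, hd⟩
        refine ⟨fun y => Nat.pair (c y) (d y), fun y z h => ?_⟩
        have h1 := Nat.pair_eq_pair.1 h
        exact ⟨hc y z h1.1, hd y z h1.2⟩ }
  intro U hU
  have hF : F ≤ @nhds K (frakG K) 0 := by
    rw [frakG, nhds_sInf]
    apply le_iInf₂
    intro t ht V hV
    exact code_of_omega ht hV
  exact hF hU

section transport

variable {K K' : Type} [AddCommGroup K] [AddCommGroup K']

theorem omega_induced (e : K ≃+ K') {t : TopologicalSpace K'} (ht : t ∈ OmegaTops K') :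
    TopologicalSpace.induced e t ∈ OmegaTops K := by
  refine ⟨?_, ?_⟩
  · letI := t
    haveI := ht.1
    exact topologicalAddGroup_induced e
  · intro U hU hUne
    obtain ⟨V, hV, rfl⟩ := hU
    obtain ⟨x, hx⟩ := hUne
    obtain ⟨A, hA, hcov⟩ := ht.2 V hV ⟨e x, hx⟩
    refine ⟨e.symm '' A, hA.image _, ?_⟩
    intro y
    obtain ⟨u, hu, a, ha, hya⟩ := hcov (e y)
    refine ⟨e.symm u, by simpa using hu, e.symm a, ⟨a, ha, rfl⟩, ?_⟩
    apply e.injective
    simp [hya]

theorem frakG_induced (e : K ≃+ K') : TopologicalSpace.induced e (frakG K') = frakG K := by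
  apply le_antisymm
  · have h1 := (isLeast_frakG K').2 (omega_induced e.symm (isLeast_frakG K).1)
    have h2 : TopologicalSpace.induced e (frakG K') ≤
        TopologicalSpace.induced e (TopologicalSpace.induced e.symm (frakG K)) := induced_mono h1
    rw [induced_compose] at h2
    have h3 : (e.symm : K' → K) ∘ (e : K → K') = id := by
      funext x
      simp
    rw [h3, @induced_id K (frakG K)] at h2
    exact h2
  · exact (isLeast_frakG K).2 (omega_induced e (isLeast_frakG K').1)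

theorem frakG_homeo (e : K ≃+ K') : Nonempty (@Homeomorph K K' (frakG K) (frakG K')) := by
  have hcont : ∀ {L L' : Type} [AddCommGroup L] [AddCommGroup L'] (f : L ≃+ L'),
      @Continuous L L' (frakG L) (frakG L') f := by
    intro L L' _ _ f
    rw [continuous_iff_le_induced, frakG_induced f]
  exact ⟨@Homeomorph.mk _ _ (frakG K) (frakG K') e.toEquiv (hcont e) (hcont e.symm)⟩

end transport

variable {D : Set (ℕ → Bool)} {A B : Type} [AddCommGroup A] [AddCommGroup B]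

theorem Mat.continuous_mapW [Countable A] {NA : A → ℕ} {NB : B → ℕ} (hA : IsUNorm NA)
    (hB : IsUNorm NB) (M : Mat NA NB) (h0 : Rel NA NB (0 : A) (0 : B))
    (hbase : ∀ U ∈ @nhds (X D B) (frakG (X D B)) 0, ∃ C, GoodW D C ∧
      ∀ v : X D B, (nu NB C v).toReal < 1 → v ∈ U) :
    @Continuous (X D A) (X D B) (frakG _) (frakG _) (M.map h0) := by
  letI t1 : TopologicalSpace (X D A) := frakG (X D A)
  letI t2 : TopologicalSpace (X D B) := frakG (X D B)
  haveI : IsTopologicalAddGroup (X D A) := (isLeast_frakG (X D A)).1.1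
  haveI : IsTopologicalAddGroup (X D B) := (isLeast_frakG (X D B)).1.1
  rw [continuous_iff_continuousAt]
  intro w U hU
  have h1 : (fun y => M.map h0 w + y) ⁻¹' U ∈ 𝓝 (0 : X D B) := by
    apply (continuous_const.add continuous_id).continuousAt
    simpa using hU
  obtain ⟨C, hC, hCU⟩ := hbase _ h1
  obtain ⟨C', hC', hCC⟩ := M.continuityW hA hB h0 w hC
  have h2 := nu_ball_mem hA hC' (isLeast_frakG (X D A)) (show (0 : ℝ) < 1 / 2 by norm_num)
  rw [Filter.mem_map, ← map_add_left_nhds_zero w, Filter.mem_map]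
  filter_upwards [h2] with v hv
  have h3 := hCU _ (hCC v hv)
  simp only [mem_preimage, add_neg_cancel_left] at h3
  exact h3

theorem Mat.homeoW [Countable A] [Countable B] {NA : A → ℕ} {NB : B → ℕ} (hA : IsUNorm NA)
    (hB : IsUNorm NB) (M : Mat NA NB) (h0 : Rel NA NB (0 : A) (0 : B))
    (hbB : ∀ U ∈ @nhds (X D B) (frakG (X D B)) 0, ∃ C, GoodW D C ∧
      ∀ v : X D B, (nu NB C v).toReal < 1 → v ∈ U)
    (hbA : ∀ U ∈ @nhds (X D A) (frakG (X D A)) 0, ∃ C, GoodW D C ∧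
      ∀ v : X D A, (nu NA C v).toReal < 1 → v ∈ U) :
    Nonempty (@Homeomorph (X D A) (X D B) (frakG _) (frakG _)) :=
  ⟨@Homeomorph.mk _ _ (frakG _) (frakG _)
    ⟨M.map h0, M.inv.map h0.symm, M.inv_map h0, M.map_inv h0⟩
    (M.continuous_mapW hA hB h0 hbB) (M.inv.continuous_mapW hB hA h0.symm hbA)⟩

/-- the matching between the two cyclic block groups -/
theorem exists_mat {m n : ℕ} (hm : 2 ≤ m) (hn : 2 ≤ n) :
    Nonempty (Mat (nrm (wl (m + n)) : (ℕ →₀ ZMod m) → ℕ) (nrm (wl (m + n)) : (ℕ →₀ ZMod n) → ℕ)) := by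
  classical
  haveI : NeZero m := ⟨by omega⟩
  haveI : NeZero n := ⟨by omega⟩
  have hw := wl_strictMono (c := m + n) (by omega)
  have hA := isUNorm_nrm (m := m) hw rfl
  have hB := isUNorm_nrm (m := n) hw rfl
  have hs : ∀ j, 2 * ball (nrm (wl (m + n)) : (ℕ →₀ ZMod m) → ℕ) j +
      2 * ball (nrm (wl (m + n)) : (ℕ →₀ ZMod n) → ℕ) j ≤
      ball (nrm (wl (m + n)) : (ℕ →₀ ZMod n) → ℕ) (j + 1) := by
    intro j
    rw [ball_nrm hw, ball_nrm hw, ball_nrm hw]
    exact size_ineq hm hn n hn j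
  have hs' : ∀ j, 2 * ball (nrm (wl (m + n)) : (ℕ →₀ ZMod n) → ℕ) j +
      2 * ball (nrm (wl (m + n)) : (ℕ →₀ ZMod m) → ℕ) j ≤
      ball (nrm (wl (m + n)) : (ℕ →₀ ZMod m) → ℕ) (j + 1) := by
    intro j
    rw [ball_nrm hw, ball_nrm hw, ball_nrm hw, add_comm]
    exact size_ineq hm hn m hm j
  have h0 : Rel (nrm (wl (m + n)) : (ℕ →₀ ZMod m) → ℕ) (nrm (wl (m + n)) : (ℕ →₀ ZMod n) → ℕ)
      0 0 := by
    refine ⟨by simp, ?_, ?_⟩
    · rw [(hA.zero_iff 0).2 rfl, (hB.zero_iff 0).2 rfl]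
      omega
    · rw [(hA.zero_iff 0).2 rfl, (hB.zero_iff 0).2 rfl]
      omega
  let κ : (ℕ →₀ ZMod m) → (ℕ →₀ ZMod n) → ((ℕ →₀ ZMod m) ≃ (ℕ →₀ ZMod n)) := fun a b =>
    if h : Rel _ _ a b then (exists_kappa hA hB hs hs' a b h).choose
    else (exists_kappa hA hB hs hs' 0 0 h0).choose
  refine ⟨⟨κ, ?_⟩⟩
  intro a b h c
  simp only [κ]
  rw [dif_pos h]
  exact (exists_kappa hA hB hs hs' a b h).choose_spec c

/-- the homeomorphism for the finest omega bounded group topologies -/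
theorem homeo_sumsW (hMA : MASigmaCentered) {ι : Type} (hι : #ι = ℵ₁) {m n : ℕ} (hm : 2 ≤ m)
    (hn : 2 ≤ n) : Nonempty (@Homeomorph (ι →₀ ZMod m) (ι →₀ ZMod n) (frakG _) (frakG _)) := by
  haveI : NeZero m := ⟨by omega⟩
  haveI : NeZero n := ⟨by omega⟩
  -- a set of branches of size aleph one
  have hcard : ℵ₁ ≤ #(ℕ → Bool) := by
    have h1 : #(ℕ → Bool) = 𝔠 := by simp
    rw [h1]
    exact aleph_one_le_continuum
  obtain ⟨D, hD⟩ := le_mk_iff_exists_set.1 hcard
  have h1 : #ι = #(D × ℕ) := by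
    rw [Cardinal.mk_prod, Cardinal.lift_id, Cardinal.lift_id, Cardinal.mk_nat, hι, hD]
    rw [Cardinal.mul_aleph0_eq (aleph0_le_aleph 1)]
  obtain ⟨e⟩ := Cardinal.eq.1 h1
  have key : ∀ k : ℕ, Nonempty (@Homeomorph (ι →₀ ZMod k) (X D (ℕ →₀ ZMod k)) (frakG _)
      (frakG _)) := by
    intro k
    let E : (ι →₀ ZMod k) ≃+ (X D (ℕ →₀ ZMod k)) :=
      (Finsupp.domCongr e).trans Finsupp.curryAddEquiv
    exact frakG_homeo E
  obtain ⟨f⟩ := key m
  obtain ⟨g⟩ := key n
  have hw := wl_strictMono (c := m + n) (by omega)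
  have hA := isUNorm_nrm (m := m) hw rfl
  have hB := isUNorm_nrm (m := n) hw rfl
  obtain ⟨M⟩ := exists_mat hm hn
  have h0 : Rel (nrm (wl (m + n)) : (ℕ →₀ ZMod m) → ℕ) (nrm (wl (m + n)) : (ℕ →₀ ZMod n) → ℕ)
      0 0 := by
    refine ⟨by simp, ?_, ?_⟩
    · rw [(hA.zero_iff 0).2 rfl, (hB.zero_iff 0).2 rfl]
      omega
    · rw [(hA.zero_iff 0).2 rfl, (hB.zero_iff 0).2 rfl]
      omega
  haveI : Countable (ZMod m) := Finite.to_countable
  haveI : Countable (ZMod n) := Finite.to_countable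
  obtain ⟨h⟩ := M.homeoW (D := D) hA hB h0
    (fun U hU => isBaseW hMA hD.le hw rfl (isLeast_frakG _).1 hU)
    (fun U hU => isBaseW hMA hD.le hw rfl (isLeast_frakG _).1 hU)
  letI := frakG (ι →₀ ZMod m)
  letI := frakG (ι →₀ ZMod n)
  letI := frakG (X D (ℕ →₀ ZMod m))
  letI := frakG (X D (ℕ →₀ ZMod n))
  exact ⟨(f.trans h).trans g.symm⟩

end H38Q
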