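import Pool.Agent.H38R3.QSemi

/-! The use of Martin's axiom for σ-centred posets. -/

namespace H38Q

open Function Set Filter Topology Cardinal

/-- a preorder is σ-centred: it is a countable union of centred pieces -/
def SigmaCentered (P : Type) [Preorder P] : Prop :=
  ∃ c : P → ℕ, ∀ F : Finset P, F.Nonempty → (∀ p ∈ F, ∀ q ∈ F, c p = c q) → ∃ r, ∀ p ∈ F, r ≤ p

/-- Martin's axiom for σ-centred posets and `ℵ₁` dense sets -/
def MASigmaCentered : Prop :=
  ∀ (P : Type) [Preorder P] [Nonempty P], SigmaCentered P →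
    ∀ 𝒟 : Set (Set P), #𝒟 ≤ ℵ₁ → (∀ d ∈ 𝒟, ∀ p, ∃ q ∈ d, q ≤ p) →
      ∃ G : Set P, G.Nonempty ∧ (∀ p ∈ G, ∀ q, p ≤ q → q ∈ G) ∧
        (∀ p ∈ G, ∀ q ∈ G, ∃ r ∈ G, r ≤ p ∧ r ≤ q) ∧ ∀ d ∈ 𝒟, (G ∩ d).Nonempty

theorem Sep'.exists_seq {Y : Type} [AddCommGroup Y] {ρ : Y → ℝ} (hs : Sep' ρ) :
    ∃ a : ℕ → Y, ∀ y, ∀ ε > 0, ∃ k, ρ (y - a k) < ε := by
  classical
  have h1 : ∀ k : ℕ, ∃ c : Y → ℕ, ∀ u v, c u = c v → ρ (u - v) < 1 / ((k : ℝ) + 1) :=
    fun k => hs _ (by positivity)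
  choose c hc using h1
  refine ⟨fun n => if h : ∃ u, c n.unpair.1 u = n.unpair.2 then h.choose else 0, ?_⟩
  intro y ε hε
  obtain ⟨k, hk⟩ := exists_nat_one_div_lt hε
  refine ⟨Nat.pair k (c k y), ?_⟩
  simp only [Nat.unpair_pair]
  have hex : ∃ u, c k u = c k y := ⟨y, rfl⟩
  rw [dif_pos hex]
  exact (hc k _ _ hex.choose_spec.symm).trans hk

section

variable {Y : Type} [AddCommGroup Y]

/-- the values determined by a set of moves -/
def gv (a : ℕ → Y) (mv : List Bool → ℕ) : List Bool → Y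
  | [] => 0
  | b :: t => if mv (b :: t) = 0 then gv a mv t else a (mv (b :: t) - 1)

theorem gv_congr (a : ℕ → Y) {mv mv' : List Bool → ℕ} : ∀ t : List Bool,
    (∀ s : List Bool, s.length ≤ t.length → mv s = mv' s) → gv a mv t = gv a mv' t
  | [], _ => rfl
  | b :: t, h => by
      simp only [gv]
      rw [h (b :: t) le_rfl, gv_congr a t (fun s hs => h s (hs.trans (by simp)))]

theorem gv_stable (a : ℕ → Y) (mv : List Bool → ℕ) (x : ℕ → Bool) {N n : ℕ} (hNn : N ≤ n)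
    (h : ∀ i, N < i → i ≤ n → mv (PiNat.res x i) = 0) :
    gv a mv (PiNat.res x n) = gv a mv (PiNat.res x N) := by
  induction n, hNn using Nat.le_induction with
  | base => rfl
  | succ n hn ih =>
    rw [← ih (fun i hi hin => h i hi (by omega))]
    have h1 := h (n + 1) (by omega) le_rfl
    rw [PiNat.res_succ] at h1 ⊢
    simp only [gv]
    rw [if_pos h1]

variable (ρ : Y → ℝ) (a : ℕ → Y) (D : Set (ℕ → Bool)) (m : D → Y)

def cost (mv : List Bool → ℕ) (x : ℕ → Bool) (n k : ℕ) : ℝ :=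
  ∑ i ∈ Finset.Ico n k, ρ (gv a mv (PiNat.res x (i + 1)) - gv a mv (PiNat.res x i))

/-- the conditions -/
structure Cond where
  N : ℕ
  mv : List Bool →₀ ℕ
  F : Finset D
  B : D → ℝ
  h1 : ∀ t : List Bool, N < t.length → mv t = 0
  h2 : ∀ x ∈ F, ρ (m x - gv a mv (PiNat.res x.1 N)) < B x

variable {ρ a D m}

instance : LE (Cond ρ a D m) where
  le q p := p.N ≤ q.N ∧ (∀ t : List Bool, t.length ≤ p.N → q.mv t = p.mv t) ∧ p.F ⊆ q.F ∧
    ∀ x ∈ p.F, cost ρ a q.mv x.1 p.N q.N + q.B x ≤ p.B x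

theorem Cond.le_def (q p : Cond ρ a D m) : q ≤ p ↔
    (p.N ≤ q.N ∧ (∀ t : List Bool, t.length ≤ p.N → q.mv t = p.mv t) ∧ p.F ⊆ q.F ∧
    ∀ x ∈ p.F, cost ρ a q.mv x.1 p.N q.N + q.B x ≤ p.B x) := Iff.rfl

theorem cost_congr {mv mv' : List Bool → ℕ} (x : ℕ → Bool) {n k : ℕ}
    (h : ∀ t : List Bool, t.length ≤ k → mv t = mv' t) : cost ρ a mv x n k = cost ρ a mv' x n k := by
  apply Finset.sum_congr rfl
  intro i hi
  rw [Finset.mem_Ico] at hi
  rw [gv_congr a (PiNat.res x (i + 1)) (fun s hs => h s (by rw [PiNat.res_length] at hs; omega)),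
    gv_congr a (PiNat.res x i) (fun s hs => h s (by rw [PiNat.res_length] at hs; omega))]

instance : Preorder (Cond ρ a D m) where
  le_refl p := by
    rw [Cond.le_def]
    refine ⟨le_rfl, fun _ _ => rfl, subset_rfl, fun x _ => ?_⟩
    simp [cost]
  le_trans r q p hrq hqp := by
    rw [Cond.le_def] at hrq hqp ⊢
    refine ⟨hqp.1.trans hrq.1, fun t ht => ?_, hqp.2.2.1.trans hrq.2.2.1, fun x hx => ?_⟩
    · rw [hrq.2.1 t (ht.trans hqp.1), hqp.2.1 t ht]
    · have h1 := hrq.2.2.2 x (hqp.2.2.1 hx)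
      have h2 := hqp.2.2.2 x hx
      have h3 : cost ρ a r.mv x.1 p.N r.N = cost ρ a r.mv x.1 p.N q.N +
          cost ρ a r.mv x.1 q.N r.N := by
        rw [cost, cost, cost, Finset.sum_Ico_consecutive _ hqp.1 hrq.1]
      have h4 : cost ρ a r.mv x.1 p.N q.N = cost ρ a q.mv x.1 p.N q.N :=
        cost_congr x.1 (fun t ht => hrq.2.1 t ht)
      rw [h3, h4]
      linarith

theorem Cond.sigmaCentered : SigmaCentered (Cond ρ a D m) := by
  classical
  obtain ⟨e, he⟩ := exists_injective_nat (ℕ × (List Bool →₀ ℕ))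
  refine ⟨fun p => e (p.N, p.mv), ?_⟩
  intro F hF hFc
  obtain ⟨p0, hp0⟩ := hF
  have hst : ∀ p ∈ F, p.N = p0.N ∧ p.mv = p0.mv := by
    intro p hp
    have := he (hFc p hp p0 hp0)
    simpa using this
  -- the minimum of the budgets
  let Bm : D → ℝ := fun x => if h : (F.filter (fun p => x ∈ p.F)).Nonempty then
    (F.filter (fun p => x ∈ p.F)).inf' h (fun p => p.B x) else 0
  let r : Cond ρ a D m :=
    { N := p0.N
      mv := p0.mv
      F := F.biUnion (fun p => p.F)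
      B := Bm
      h1 := p0.h1
      h2 := by
        intro x hx
        obtain ⟨p, hp, hxp⟩ := Finset.mem_biUnion.1 hx
        have hne : (F.filter (fun p => x ∈ p.F)).Nonempty :=
          ⟨p, Finset.mem_filter.2 ⟨hp, hxp⟩⟩
        simp only [Bm, dif_pos hne]
        rw [Finset.lt_inf'_iff]
        intro q hq
        obtain ⟨hqF, hxq⟩ := Finset.mem_filter.1 hq
        have h1 := q.h2 x hxq
        rw [(hst q hqF).1, (hst q hqF).2] at h1
        exact h1 }
  refine ⟨r, ?_⟩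
  intro p hp
  rw [Cond.le_def]
  refine ⟨(hst p hp).1.le, fun t _ => ?_, Finset.subset_biUnion_of_mem (fun p => p.F) hp,
    fun x hx => ?_⟩
  · rw [(hst p hp).2]
  · have hne : (F.filter (fun p => x ∈ p.F)).Nonempty :=
      ⟨p, Finset.mem_filter.2 ⟨hp, hx⟩⟩
    have h1 : cost ρ a r.mv x.1 p.N r.N = 0 := by
      rw [cost, (hst p hp).1]
      simp [r]
    rw [h1, zero_add]
    simp only [r, Bm, dif_pos hne]
    exact Finset.inf'_le _ (Finset.mem_filter.2 ⟨hp, hx⟩)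

theorem Cond.dense_level (hρ : IsSN ρ) (k : ℕ) (p : Cond ρ a D m) :
    ∃ q : Cond ρ a D m, k ≤ q.N ∧ q ≤ p := by
  have hst : ∀ (x : ℕ → Bool) (n : ℕ), p.N ≤ n →
      gv a p.mv (PiNat.res x n) = gv a p.mv (PiNat.res x p.N) := by
    intro x n hn
    apply gv_stable a _ x hn
    intro i hi _
    apply p.h1
    rw [PiNat.res_length]
    exact hi
  refine ⟨⟨max p.N k, p.mv, p.F, p.B, fun t ht => p.h1 t (by omega), fun x hx => ?_⟩,
    le_max_right _ _, ?_⟩
  · rw [hst x.1 _ (le_max_left _ _)]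
    exact p.h2 x hx
  · rw [Cond.le_def]
    refine ⟨le_max_left _ _, fun _ _ => rfl, subset_rfl, fun x _ => ?_⟩
    have h1 : cost ρ a p.mv x.1 p.N (max p.N k) = 0 := by
      apply Finset.sum_eq_zero
      intro i hi
      rw [Finset.mem_Ico] at hi
      rw [hst x.1 (i + 1) (by omega), hst x.1 i (by omega), sub_self, hρ.zero]
    simp only
    rw [h1, zero_add]

theorem Cond.dense_add (x : D) (p : Cond ρ a D m) :
    ∃ q : Cond ρ a D m, x ∈ q.F ∧ q ≤ p := by
  classical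
  by_cases hx : x ∈ p.F
  · exact ⟨p, hx, le_refl p⟩
  · refine ⟨⟨p.N, p.mv, insert x p.F, fun y => if y = x then
      ρ (m x - gv a p.mv (PiNat.res x.1 p.N)) + 1 else p.B y, p.h1, ?_⟩,
      Finset.mem_insert_self _ _, ?_⟩
    · intro y hy
      by_cases hyx : y = x
      · subst hyx
        simp
      · rw [if_neg hyx]
        rcases Finset.mem_insert.1 hy with h | h
        · exact absurd h hyx
        · exact p.h2 y h
    · rw [Cond.le_def]
      refine ⟨le_rfl, fun _ _ => rfl, Finset.subset_insert _ _, fun y hy => ?_⟩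
      have hyx : y ≠ x := by
        rintro rfl
        exact hx hy
      simp [cost, if_neg hyx]

theorem Cond.dense_small (hρ : IsSN ρ) (ha : ∀ y, ∀ ε > 0, ∃ k, ρ (y - a k) < ε) (x : D) {ε : ℝ}
    (hε : 0 < ε) (p0 : Cond ρ a D m) : ∃ q : Cond ρ a D m, (x ∈ q.F ∧ q.B x < ε) ∧ q ≤ p0 := by
  classical
  obtain ⟨p, hxp, hpp0⟩ := Cond.dense_add x p0
  obtain ⟨n0, hn0⟩ := exists_sep p.F
  set N' := max p.N n0 with hN'
  have hsep : Sep p.F (N' + 1) := hn0.mono (by omega)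
  set r := ρ (m x - gv a p.mv (PiNat.res x.1 p.N)) with hr
  have hrB : r < p.B x := p.h2 x hxp
  set η := min ((p.B x - r) / 2) (ε / 2) with hη
  have hη0 : 0 < η := lt_min (by linarith) (by linarith)
  have hη1 : η ≤ (p.B x - r) / 2 := min_le_left _ _
  have hη2 : η ≤ ε / 2 := min_le_right _ _
  obtain ⟨k, hk⟩ := ha (m x) η hη0
  set s := PiNat.res x.1 (N' + 1) with hs
  have hslen : s.length = N' + 1 := PiNat.res_length _ _
  have hupd : ∀ t, t ≠ s → (p.mv.update s (k + 1)) t = p.mv t := by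
    intro t ht
    rw [Finsupp.update_apply, if_neg ht]
  have hupds : (p.mv.update s (k + 1)) s = k + 1 := by
    rw [Finsupp.update_apply, if_pos rfl]
  have hlow : ∀ (y : ℕ → Bool) (n : ℕ), p.N ≤ n → n ≤ N' →
      gv a (p.mv.update s (k + 1)) (PiNat.res y n) = gv a p.mv (PiNat.res y p.N) := by
    intro y n hn hn'
    rw [gv_stable a _ y hn, gv_congr a (PiNat.res y p.N)]
    · intro t ht
      apply hupd
      rintro rfl
      have h9 : (PiNat.res y p.N).length = p.N := PiNat.res_length _ _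
      omega
    · intro i hi hin
      rw [hupd]
      · apply p.h1
        rw [PiNat.res_length]
        exact hi
      · intro h
        have := congrArg List.length h
        rw [PiNat.res_length] at this
        omega
  have htop : ∀ y ∈ p.F, y ≠ x → gv a (p.mv.update s (k + 1)) (PiNat.res y.1 (N' + 1)) =
      gv a p.mv (PiNat.res y.1 p.N) := by
    intro y hy hyx
    rw [← hlow y.1 N' (by omega) le_rfl]
    apply gv_stable a _ y.1 (by omega)
    intro i hi hin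
    have hi' : i = N' + 1 := by omega
    subst hi'
    rw [hupd]
    · apply p.h1
      rw [PiNat.res_length]
      omega
    · intro h
      exact hyx (hsep y hy x hxp h)
  have htopx : gv a (p.mv.update s (k + 1)) s = a k := by
    rw [hs, PiNat.res_succ]
    simp only [gv]
    rw [← PiNat.res_succ, ← hs, hupds]
    simp
  refine ⟨⟨N' + 1, p.mv.update s (k + 1), p.F, fun y => if y = x then η else p.B y, ?_, ?_⟩,
    ⟨hxp, ?_⟩, le_trans ?_ hpp0⟩
  · intro t ht
    rw [hupd]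
    · exact p.h1 t (by omega)
    · rintro rfl
      omega
  · intro y hy
    by_cases hyx : y = x
    · rw [if_pos hyx, hyx, ← hs, htopx]
      exact hk
    · rw [if_neg hyx, htop y hy hyx]
      exact p.h2 y hy
  · simp only [if_pos]
    linarith
  · rw [Cond.le_def]
    refine ⟨by simp only; omega, fun t ht => ?_, subset_rfl, fun y hy => ?_⟩
    · simp only
      apply hupd
      rintro rfl
      omega
    · simp only
      have hzero : ∑ i ∈ Finset.Ico p.N N', ρ (gv a (p.mv.update s (k + 1)) (PiNat.res y.1 (i + 1)) -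
          gv a (p.mv.update s (k + 1)) (PiNat.res y.1 i)) = 0 := by
        apply Finset.sum_eq_zero
        intro i hi
        rw [Finset.mem_Ico] at hi
        rw [hlow y.1 (i + 1) (by omega) (by omega), hlow y.1 i (by omega) (by omega), sub_self,
          hρ.zero]
      rw [cost, Finset.sum_Ico_succ_top (by omega), hzero, zero_add]
      by_cases hyx : y = x
      · rw [if_pos hyx, hyx, ← hs, htopx, hlow x.1 N' (by omega) le_rfl]
        have h1 : a k - gv a p.mv (PiNat.res x.1 p.N) =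
            -(m x - a k) + (m x - gv a p.mv (PiNat.res x.1 p.N)) := by abel
        rw [h1]
        have h2 := hρ.add (-(m x - a k)) (m x - gv a p.mv (PiNat.res x.1 p.N))
        rw [hρ.neg] at h2
        linarith
      · rw [if_neg hyx, htop y hy hyx, hlow y.1 N' (by omega) le_rfl, sub_self, hρ.zero, zero_add]

end

/-- approximation of a map on `ℵ₁` branches by a node function of finite variation -/
theorem ma_lemma (hMA : MASigmaCentered) {Y : Type} [AddCommGroup Y] {ρ : Y → ℝ} (hρ : IsSN ρ)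
    (hs : Sep' ρ) {D : Set (ℕ → Bool)} (hD : #D ≤ ℵ₁) (m : D → Y) :
    ∃ g : List Bool → Y, g [] = 0 ∧
      (∀ x : D, ∃ K, ∀ n, ∑ i ∈ Finset.range n, ρ (g (PiNat.res x.1 (i + 1)) -
        g (PiNat.res x.1 i)) ≤ K) ∧
      ∀ E : Finset D, ∀ ε > 0, ∃ N, ∀ x ∈ E, ρ (m x - g (PiNat.res x.1 N)) < ε := by
  classical
  obtain ⟨a, ha⟩ := hs.exists_seq
  let 𝒟 : Set (Set (Cond ρ a D m)) := Set.range (fun k : ℕ => {p | k ≤ p.N}) ∪
    Set.range (fun q : D × ℕ => {p | q.1 ∈ p.F ∧ p.B q.1 < 1 / ((q.2 : ℝ) + 1)})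
  have h𝒟 : #𝒟 ≤ ℵ₁ := by
    have h1 : #(Set.range (fun k : ℕ => {p : Cond ρ a D m | k ≤ p.N})) ≤ ℵ₁ :=
      mk_range_le.trans (by rw [mk_nat]; exact aleph0_lt_aleph_one.le)
    have h2 : #(Set.range (fun q : D × ℕ => {p : Cond ρ a D m | q.1 ∈ p.F ∧
        p.B q.1 < 1 / ((q.2 : ℝ) + 1)})) ≤ ℵ₁ := by
      refine mk_range_le.trans ?_
      rw [mk_prod, lift_id, lift_id, mk_nat]
      calc #D * ℵ₀ ≤ ℵ₁ * ℵ₁ := mul_le_mul' hD aleph0_lt_aleph_one.le
        _ = ℵ₁ := mul_eq_self (aleph0_le_aleph 1)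
    exact (mk_union_le _ _).trans ((add_le_add h1 h2).trans (add_eq_self (aleph0_le_aleph 1)).le)
  haveI : Nonempty (Cond ρ a D m) := ⟨⟨0, 0, ∅, fun _ => 0, fun _ _ => rfl, by simp⟩⟩
  obtain ⟨G, _, _, hGdir, hGd⟩ := hMA (Cond ρ a D m) Cond.sigmaCentered 𝒟 h𝒟 (by
    rintro d (⟨k, rfl⟩ | ⟨q, rfl⟩) p
    · exact Cond.dense_level hρ k p
    · obtain ⟨q', h1, h2⟩ := Cond.dense_small hρ ha q.1 (ε := 1 / ((q.2 : ℝ) + 1))
        (by positivity) p
      exact ⟨q', h1, h2⟩)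
  have hlev : ∀ k : ℕ, ∃ p ∈ G, k ≤ p.N := by
    intro k
    obtain ⟨p, hp, hpk⟩ := hGd _ (Or.inl ⟨k, rfl⟩)
    exact ⟨p, hp, hpk⟩
  have hsmall : ∀ (x : D) (k : ℕ), ∃ p ∈ G, x ∈ p.F ∧ p.B x < 1 / ((k : ℝ) + 1) := by
    intro x k
    obtain ⟨p, hp, hpk⟩ := hGd _ (Or.inr ⟨(x, k), rfl⟩)
    exact ⟨p, hp, hpk⟩
  choose P hPG hPN using hlev
  let mv : List Bool → ℕ := fun t => (P t.length).mv t
  have hmv : ∀ p ∈ G, ∀ t : List Bool, t.length ≤ p.N → mv t = p.mv t := by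
    intro p hp t ht
    obtain ⟨r, _, hrp, hrq⟩ := hGdir p hp (P t.length) (hPG _)
    rw [Cond.le_def] at hrp hrq
    simp only [mv]
    rw [← hrp.2.1 t ht, ← hrq.2.1 t (hPN _)]
  have hgv : ∀ p ∈ G, ∀ t : List Bool, t.length ≤ p.N → gv a mv t = gv a p.mv t := by
    intro p hp t ht
    exact gv_congr a t (fun s hs => hmv p hp s (hs.trans ht))
  refine ⟨gv a mv, rfl, ?_, ?_⟩
  · intro x
    obtain ⟨p, hp, hxp, _⟩ := hsmall x 0
    refine ⟨(∑ i ∈ Finset.range p.N, ρ (gv a mv (PiNat.res x.1 (i + 1)) -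
      gv a mv (PiNat.res x.1 i))) + p.B x, ?_⟩
    intro n
    obtain ⟨r, hr, hrp, hrq⟩ := hGdir p hp (P n) (hPG n)
    rw [Cond.le_def] at hrp hrq
    have hn : n ≤ r.N := (hPN n).trans hrq.1
    have h1 : ∑ i ∈ Finset.range n, ρ (gv a mv (PiNat.res x.1 (i + 1)) -
        gv a mv (PiNat.res x.1 i)) ≤ ∑ i ∈ Finset.range r.N, ρ (gv a mv (PiNat.res x.1 (i + 1)) -
        gv a mv (PiNat.res x.1 i)) := by
      apply Finset.sum_le_sum_of_subset_of_nonneg
      · intro i hi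
        rw [Finset.mem_range] at hi ⊢
        omega
      · intro i _ _
        exact hρ.nonneg _
    have h2 : ∑ i ∈ Finset.range r.N, ρ (gv a mv (PiNat.res x.1 (i + 1)) -
        gv a mv (PiNat.res x.1 i)) = (∑ i ∈ Finset.range p.N, ρ (gv a mv (PiNat.res x.1 (i + 1)) -
        gv a mv (PiNat.res x.1 i))) + cost ρ a r.mv x.1 p.N r.N := by
      rw [← Finset.sum_range_add_sum_Ico _ hrp.1, cost]
      congr 1
      apply Finset.sum_congr rfl
      intro i hi
      rw [Finset.mem_Ico] at hi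
      rw [hgv r hr _ (by rw [PiNat.res_length]; omega), hgv r hr _ (by rw [PiNat.res_length]; omega)]
    have h3 := hrp.2.2.2 x hxp
    have h4 : 0 ≤ r.B x := (hρ.nonneg _).trans (r.h2 x (hrp.2.2.1 hxp)).le
    linarith
  · intro E ε hε
    obtain ⟨k, hk⟩ := exists_nat_one_div_lt hε
    -- a common condition
    have hcom : ∀ E : Finset D, ∃ r ∈ G, ∀ x ∈ E, x ∈ r.F ∧ r.B x < 1 / ((k : ℝ) + 1) := by
      intro E
      induction E using Finset.induction_on with
      | empty => exact ⟨P 0, hPG 0, by simp⟩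
      | insert x E _ ih =>
        obtain ⟨r, hr, hrE⟩ := ih
        obtain ⟨p, hp, hxp, hpB⟩ := hsmall x k
        obtain ⟨q, hq, hqr, hqp⟩ := hGdir r hr p hp
        rw [Cond.le_def] at hqr hqp
        have hB : ∀ (p : Cond ρ a D m) (y : D), y ∈ p.F → cost ρ a q.mv y.1 p.N q.N + q.B y ≤ p.B y →
            p.B y < 1 / ((k : ℝ) + 1) → q.B y < 1 / ((k : ℝ) + 1) := by
          intro p y _ h1 h2
          have h3 : 0 ≤ cost ρ a q.mv y.1 p.N q.N := Finset.sum_nonneg (fun i _ => hρ.nonneg _)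
          linarith
        refine ⟨q, hq, ?_⟩
        intro y hy
        rcases Finset.mem_insert.1 hy with rfl | hy
        · exact ⟨hqp.2.2.1 hxp, hB p y hxp (hqp.2.2.2 y hxp) hpB⟩
        · exact ⟨hqr.2.2.1 (hrE y hy).1, hB r y (hrE y hy).1 (hqr.2.2.2 y (hrE y hy).1) (hrE y hy).2⟩
    obtain ⟨r, hr, hrE⟩ := hcom E
    refine ⟨r.N, ?_⟩
    intro x hx
    rw [hgv r hr _ (by rw [PiNat.res_length])]
    exact (r.h2 x (hrE x hx).1).trans ((hrE x hx).2.trans hk)

end H38Q
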