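import Mathlib

/-! Matchings between two countable groups with ultrametric norms. -/

namespace H38Q

open Function Set

/-- an integer valued ultrametric length function with finite balls -/
structure IsUNorm {A : Type} [AddCommGroup A] (N : A → ℕ) : Prop where
  zero_iff : ∀ a, N a = 0 ↔ a = 0
  add_le : ∀ a b, N (a + b) ≤ max (N a) (N b)
  neg_eq : ∀ a, N (-a) = N a
  fin : ∀ j, {a | N a ≤ j}.Finite

namespace IsUNorm

variable {A : Type} [AddCommGroup A] {N : A → ℕ} (h : IsUNorm N)

include h

theorem sub_le (a b : A) : N (a - b) ≤ max (N a) (N b) := by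
  rw [sub_eq_add_neg]
  have := h.add_le a (-b)
  rwa [h.neg_eq] at this

theorem sub_eq_of_lt {a b : A} (hab : N b < N a) : N (a - b) = N a := by
  apply le_antisymm
  · have := h.sub_le a b
    omega
  · have := h.add_le (a - b) b
    rw [sub_add_cancel] at this
    omega

theorem sub_comm (a b : A) : N (a - b) = N (b - a) := by
  rw [← h.neg_eq, neg_sub]

end IsUNorm

/-- greedy choice of distinct representatives -/
theorem greedy {ι β : Type} [DecidableEq β] (t : ι → Finset β) (ρ : ι → ℕ)
    (h : ∀ i, {i' | ρ i' ≤ ρ i}.Finite ∧ {i' | ρ i' ≤ ρ i}.ncard ≤ (t i).card) :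
    ∃ f : ι → β, Injective f ∧ ∀ i, f i ∈ t i := by
  classical
  rw [← Finset.all_card_le_biUnion_card_iff_exists_injective]
  intro s
  rcases s.eq_empty_or_nonempty with rfl | hs
  · simp
  · obtain ⟨i, hi, hmax⟩ := Finset.exists_max_image s ρ hs
    have h1 : s.card ≤ {i' | ρ i' ≤ ρ i}.ncard := by
      rw [← Set.ncard_coe_finset s]
      exact Set.ncard_le_ncard (fun x hx => hmax x hx) (h i).1
    have h2 : (t i).card ≤ (s.biUnion t).card :=
      Finset.card_le_card (Finset.subset_biUnion_of_mem t hi)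
    exact h1.trans ((h i).2.trans h2)

/-- number of elements of the ball of radius j -/
noncomputable def ball {A : Type} (N : A → ℕ) (j : ℕ) : ℕ := {a | N a ≤ j}.ncard

/-- the relation between values -/
def Rel {A B : Type} [AddCommGroup A] [AddCommGroup B] (N : A → ℕ) (N' : B → ℕ) (a : A) (b : B) :
    Prop := (a = 0 ↔ b = 0) ∧ N' b ≤ N a + 1 ∧ N a ≤ N' b + 1

theorem Rel.symm {A B : Type} [AddCommGroup A] [AddCommGroup B] {N : A → ℕ} {N' : B → ℕ} {a : A}
    {b : B} (h : Rel N N' a b) : Rel N' N b a := ⟨h.1.symm, h.2.2, h.2.1⟩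

section inj

variable {A B : Type} [AddCommGroup A] [AddCommGroup B] {N : A → ℕ} {N' : B → ℕ}

theorem exists_phi (hN : IsUNorm N) (hN' : IsUNorm N')
    (hs : ∀ m, 2 * ball N m + 2 * ball N' m ≤ ball N' (m + 1)) :
    ∃ φ : A → B, Injective φ ∧ φ 0 = 0 ∧ ∀ a, a ≠ 0 → N' (φ a) = N a + 1 := by
  classical
  have hf : ∀ m, {b | N' b = m + 1}.Finite := fun m =>
    (hN'.fin (m + 1)).subset (fun b hb => le_of_eq hb)
  let t : A → Finset B := fun a => if a = 0 then {0} else (hf (N a)).toFinset
  obtain ⟨φ, hφ, hφt⟩ := greedy t N (by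
    intro a
    refine ⟨hN.fin _, ?_⟩
    by_cases ha : a = 0
    · subst ha
      have h0 : N 0 = 0 := (hN.zero_iff 0).2 rfl
      have : {i' | N i' ≤ N 0} = {0} := by
        ext x
        simp [h0, hN.zero_iff]
      rw [this]
      simp [t]
    · have h1 : (t a).card = {b | N' b = N a + 1}.ncard := by
        simp only [t, if_neg ha]
        rw [Set.ncard_eq_toFinset_card _ (hf (N a))]
      rw [h1]
      have h2 : {b | N' b ≤ N a + 1} ⊆ {b | N' b ≤ N a} ∪ {b | N' b = N a + 1} := by
        intro b hb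
        simp only [mem_union, mem_setOf_eq] at hb ⊢
        omega
      have h3 : ball N' (N a + 1) ≤ ball N' (N a) + {b | N' b = N a + 1}.ncard :=
        (Set.ncard_le_ncard h2 ((hN'.fin _).union (hf _))).trans (Set.ncard_union_le _ _)
      have h4 := hs (N a)
      have h5 : {i' | N i' ≤ N a}.ncard = ball N (N a) := rfl
      omega)
  refine ⟨φ, hφ, ?_, ?_⟩
  · have := hφt 0
    simpa [t] using this
  · intro a ha
    have := hφt a
    simpa [t, if_neg ha] using this

theorem exists_inj (hN : IsUNorm N) (hN' : IsUNorm N')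
    (hs : ∀ m, 2 * ball N m + 2 * ball N' m ≤ ball N' (m + 1)) (a : A) (b : B)
    (hab : Rel N N' a b) :
    ∃ i : A → B, Injective i ∧ ∀ c, Rel N N' c (i c) ∧ Rel N N' (a - c) (b - i c) := by
  classical
  obtain ⟨φ, hφ, hφ0, hφN⟩ := exists_phi hN hN' hs
  have hφz : ∀ c, φ c = 0 ↔ c = 0 := fun c =>
    ⟨fun h => hφ (h.trans hφ0.symm), fun h => by rw [h, hφ0]⟩
  have hφR : ∀ c, Rel N N' c (φ c) := by
    intro c
    refine ⟨(hφz c).symm, ?_⟩
    by_cases hc : c = 0
    · subst hc
      rw [hφ0, (hN.zero_iff 0).2 rfl, (hN'.zero_iff 0).2 rfl]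
      omega
    · have := hφN c hc
      omega
  by_cases ha : a = 0
  · have hb : b = 0 := hab.1.1 ha
    subst ha hb
    refine ⟨φ, hφ, fun c => ⟨hφR c, ?_⟩⟩
    have := hφR c
    refine ⟨?_, ?_⟩
    · simp only [zero_sub, neg_eq_zero]
      exact this.1
    · simp only [zero_sub, hN.neg_eq, hN'.neg_eq]
      exact this.2
  have hb : b ≠ 0 := fun h => ha (hab.1.2 h)
  have hr : 1 ≤ N a := Nat.one_le_iff_ne_zero.2 (fun h => ha ((hN.zero_iff a).1 h))
  have hr' : 1 ≤ N' b := Nat.one_le_iff_ne_zero.2 (fun h => hb ((hN'.zero_iff b).1 h))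
  -- the third zone
  let Z : Type := {c : A // c ≠ 0 ∧ a - c ≠ 0 ∧ N' b ≤ N c + 1 ∧ N' b ≤ N (a - c) + 1}
  have hf : ∀ m, {c' | N' c' = m ∧ N' (b - c') = m}.Finite := fun m =>
    (hN'.fin m).subset (fun c' hc' => le_of_eq hc'.1)
  let t : Z → Finset B := fun c => (hf (min (N c.1) (N (a - c.1)) + 1)).toFinset
  have hcount : ∀ m, {c : A | min (N c) (N (a - c)) ≤ m}.Finite ∧
      {c : A | min (N c) (N (a - c)) ≤ m}.ncard ≤ 2 * ball N m := by
    intro m
    have h1 : {c : A | min (N c) (N (a - c)) ≤ m} =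
        {c | N c ≤ m} ∪ (fun c => a - c) '' {c | N c ≤ m} := by
      ext c
      simp only [mem_union, mem_setOf_eq, mem_image, inf_le_iff]
      constructor
      · rintro (h | h)
        · exact Or.inl h
        · exact Or.inr ⟨a - c, h, by abel⟩
      · rintro (h | ⟨x, hx, rfl⟩)
        · exact Or.inl h
        · right
          have : a - (a - x) = x := by abel
          rw [this]
          exact hx
    rw [h1]
    refine ⟨(hN.fin m).union ((hN.fin m).image _), ?_⟩
    have h2 := Set.ncard_union_le {c | N c ≤ m} ((fun c => a - c) '' {c | N c ≤ m})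
    have h3 := Set.ncard_image_le (f := fun c => a - c) (hN.fin m)
    have h4 : ball N m = {c | N c ≤ m}.ncard := rfl
    omega
  obtain ⟨f, hfi, hft⟩ := greedy t (fun c => min (N c.1) (N (a - c.1))) (by
    intro c
    set m := min (N c.1) (N (a - c.1)) with hm
    have hmb : N' b ≤ m + 1 := by
      have := c.2.2.2
      omega
    have hsub : Subtype.val '' {i' : Z | min (N i'.1) (N (a - i'.1)) ≤ m} ⊆
        {c : A | min (N c) (N (a - c)) ≤ m} := by
      rintro _ ⟨x, hx, rfl⟩
      exact hx
    have hfin2 : {i' : Z | min (N i'.1) (N (a - i'.1)) ≤ m}.Finite :=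
      Set.Finite.of_finite_image ((hcount m).1.subset hsub) Subtype.val_injective.injOn
    refine ⟨hfin2, ?_⟩
    have h1 : {i' : Z | min (N i'.1) (N (a - i'.1)) ≤ m}.ncard ≤ 2 * ball N m := by
      rw [← Set.ncard_image_of_injective _ Subtype.val_injective]
      exact (Set.ncard_le_ncard hsub (hcount m).1).trans (hcount m).2
    have h2 : (t c).card = {c' | N' c' = m + 1 ∧ N' (b - c') = m + 1}.ncard := by
      simp only [t]
      rw [Set.ncard_eq_toFinset_card _ (hf (m + 1))]
    have h3 : {c' | N' c' ≤ m + 1} ⊆ {c' | N' c' = m + 1 ∧ N' (b - c') = m + 1} ∪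
        ({c' | N' c' ≤ m} ∪ (fun c' => b - c') '' {c' | N' c' ≤ m}) := by
      intro c' hc'
      simp only [mem_union, mem_setOf_eq, mem_image] at hc' ⊢
      by_cases h4 : N' c' ≤ m
      · exact Or.inr (Or.inl h4)
      by_cases h5 : N' (b - c') ≤ m
      · exact Or.inr (Or.inr ⟨b - c', h5, by abel⟩)
      left
      have := hN'.sub_le b c'
      constructor
      · omega
      · omega
    have h4 := (Set.ncard_le_ncard h3 ((hf _).union ((hN'.fin m).union ((hN'.fin m).image _)))).trans
      (Set.ncard_union_le _ _)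
    have h5 := Set.ncard_union_le {c' | N' c' ≤ m} ((fun c' => b - c') '' {c' | N' c' ≤ m})
    have h6 := Set.ncard_image_le (f := fun c' => b - c') (hN'.fin m)
    have h7 : ball N' m = {c' | N' c' ≤ m}.ncard := rfl
    have h8 : ball N' (m + 1) = {c' | N' c' ≤ m + 1}.ncard := rfl
    have h9 := hs m
    omega)
  have hft' : ∀ c : Z, N' (f c) = min (N c.1) (N (a - c.1)) + 1 ∧
      N' (b - f c) = min (N c.1) (N (a - c.1)) + 1 := by
    intro c
    have := hft c
    simpa [t] using this
  -- the definition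
  have hz : ∀ c, ¬ (c = 0 ∨ N c + 1 < N' b) → ¬ (a - c = 0 ∨ N (a - c) + 1 < N' b) →
      c ≠ 0 ∧ a - c ≠ 0 ∧ N' b ≤ N c + 1 ∧ N' b ≤ N (a - c) + 1 := by
    intro c h1 h2
    push Not at h1 h2
    exact ⟨h1.1, h2.1, h1.2, h2.2⟩
  let i : A → B := fun c =>
    if h1 : (c = 0 ∨ N c + 1 < N' b) then φ c
    else if h2 : (a - c = 0 ∨ N (a - c) + 1 < N' b) then b - φ (a - c)
    else f ⟨c, hz c h1 h2⟩
  -- facts about zone one
  have key1 : ∀ c, (c = 0 ∨ N c + 1 < N' b) → N' (φ c) < N' b := by
    rintro c (rfl | hc)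
    · rw [hφ0, (hN'.zero_iff 0).2 rfl]
      omega
    · by_cases h0 : c = 0
      · subst h0
        rw [hφ0, (hN'.zero_iff 0).2 rfl]
        omega
      · rw [hφN c h0]
        exact hc
  have key2 : ∀ c, (c = 0 ∨ N c + 1 < N' b) → Rel N N' (a - c) (b - φ c) := by
    intro c hc
    have h1 := key1 c hc
    have h2 : N' (b - φ c) = N' b := hN'.sub_eq_of_lt h1
    have h3 : N (a - c) = N a := by
      apply hN.sub_eq_of_lt
      have := hab.2
      rcases hc with rfl | hc
      · rw [(hN.zero_iff 0).2 rfl]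
        omega
      · omega
    refine ⟨?_, ?_⟩
    · rw [← hN.zero_iff, ← hN'.zero_iff, h2, h3]
      omega
    · rw [h2, h3]
      exact hab.2
  refine ⟨i, ?_, ?_⟩
  · -- injectivity via zones
    have hA : ∀ c, (c = 0 ∨ N c + 1 < N' b) → i c = φ c := by
      intro c h1
      simp only [i, dif_pos h1]
    have hB : ∀ c, ¬ (c = 0 ∨ N c + 1 < N' b) → (a - c = 0 ∨ N (a - c) + 1 < N' b) →
        i c = b - φ (a - c) := by
      intro c h1 h2
      simp only [i, dif_neg h1, dif_pos h2]
    have hC : ∀ c (h1 : ¬ (c = 0 ∨ N c + 1 < N' b)) (h2 : ¬ (a - c = 0 ∨ N (a - c) + 1 < N' b)),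
        i c = f ⟨c, hz c h1 h2⟩ := by
      intro c h1 h2
      simp only [i, dif_neg h1, dif_neg h2]
    -- norms of the images
    have nA : ∀ c, (c = 0 ∨ N c + 1 < N' b) → N' (i c) < N' b ∧ N' (b - i c) = N' b := by
      intro c h1
      rw [hA c h1]
      exact ⟨key1 c h1, hN'.sub_eq_of_lt (key1 c h1)⟩
    have nB : ∀ c, ¬ (c = 0 ∨ N c + 1 < N' b) → (a - c = 0 ∨ N (a - c) + 1 < N' b) →
        N' (b - i c) < N' b ∧ N' (i c) = N' b := by
      intro c h1 h2
      rw [hB c h1 h2]
      have h3 : b - (b - φ (a - c)) = φ (a - c) := by abel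
      rw [h3]
      exact ⟨key1 _ h2, hN'.sub_eq_of_lt (key1 _ h2)⟩
    have nC : ∀ c (h1 : ¬ (c = 0 ∨ N c + 1 < N' b)) (h2 : ¬ (a - c = 0 ∨ N (a - c) + 1 < N' b)),
        N' b ≤ N' (i c) ∧ N' b ≤ N' (b - i c) := by
      intro c h1 h2
      rw [hC c h1 h2]
      have h3 := hft' ⟨c, hz c h1 h2⟩
      have h4 := hz c h1 h2
      simp only at h3
      omega
    intro c d hcd
    by_cases c1 : (c = 0 ∨ N c + 1 < N' b)
    · by_cases d1 : (d = 0 ∨ N d + 1 < N' b)
      · rw [hA c c1, hA d d1] at hcd
        exact hφ hcd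
      · exfalso
        have e1 := nA c c1
        rw [hcd] at e1
        by_cases d2 : (a - d = 0 ∨ N (a - d) + 1 < N' b)
        · have := nB d d1 d2
          omega
        · have := nC d d1 d2
          omega
    · by_cases d1 : (d = 0 ∨ N d + 1 < N' b)
      · exfalso
        have e1 := nA d d1
        rw [← hcd] at e1
        by_cases c2 : (a - c = 0 ∨ N (a - c) + 1 < N' b)
        · have := nB c c1 c2
          omega
        · have := nC c c1 c2
          omega
      · by_cases c2 : (a - c = 0 ∨ N (a - c) + 1 < N' b)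
        · by_cases d2 : (a - d = 0 ∨ N (a - d) + 1 < N' b)
          · rw [hB c c1 c2, hB d d1 d2] at hcd
            have := hφ (sub_right_injective hcd)
            exact sub_right_injective this
          · exfalso
            have e1 := nB c c1 c2
            have e2 := nC d d1 d2
            rw [hcd] at e1
            omega
        · by_cases d2 : (a - d = 0 ∨ N (a - d) + 1 < N' b)
          · exfalso
            have e1 := nC c c1 c2
            have e2 := nB d d1 d2
            rw [hcd] at e1
            omega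
          · rw [hC c c1 c2, hC d d1 d2] at hcd
            have := hfi hcd
            exact congrArg Subtype.val this
  · intro c
    by_cases c1 : (c = 0 ∨ N c + 1 < N' b)
    · have : i c = φ c := by simp only [i, dif_pos c1]
      rw [this]
      exact ⟨hφR c, key2 c c1⟩
    · by_cases c2 : (a - c = 0 ∨ N (a - c) + 1 < N' b)
      · have : i c = b - φ (a - c) := by simp only [i, dif_neg c1, dif_pos c2]
        rw [this]
        have h1 := key2 _ c2
        have h2 : a - (a - c) = c := by abel
        have h3 : b - (b - φ (a - c)) = φ (a - c) := by abel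
        rw [h2] at h1
        rw [h3]
        exact ⟨h1, hφR _⟩
      · have h3 : i c = f ⟨c, hz c c1 c2⟩ := by simp only [i, dif_neg c1, dif_neg c2]
        rw [h3]
        have h4 := hft' ⟨c, hz c c1 c2⟩
        have h5 := hz c c1 c2
        simp only at h4
        have h6 : N (a - c) ≤ N c + 1 ∨ True := Or.inr trivial
        -- ultrametric comparison
        have h7 : max (N c) (N (a - c)) ≤ min (N c) (N (a - c)) + 2 := by
          have h8 := hab.2
          rcases lt_trichotomy (N c) (N (a - c)) with h | h | h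
          · -- N (a - c) = N a
            have : N ((a - c) + c) = N a := by rw [sub_add_cancel]
            have h9 : N (a - c) ≤ N a := by
              have h10 := hN.sub_le a c
              have h11 : N c < N (a - c) := h
              by_contra hcon
              have : N (a - c) ≤ N c := by omega
              omega
            omega
          · omega
          · have h9 : N c ≤ N a := by
              have h10 := hN.sub_le a (a - c)
              have h11 : a - (a - c) = c := by abel
              rw [h11] at h10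
              omega
            omega
        refine ⟨⟨?_, ?_, ?_⟩, ⟨?_, ?_, ?_⟩⟩
        · rw [← hN.zero_iff, ← hN'.zero_iff, h4.1]
          have : N c ≠ 0 := fun h => h5.1 ((hN.zero_iff c).1 h)
          omega
        · omega
        · omega
        · rw [← hN.zero_iff, ← hN'.zero_iff, h4.2]
          have : N (a - c) ≠ 0 := fun h => h5.2.1 ((hN.zero_iff _).1 h)
          omega
        · omega
        · omega

/-- the bijection between the pairs of summands -/
theorem exists_kappa (hN : IsUNorm N) (hN' : IsUNorm N')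
    (hs : ∀ m, 2 * ball N m + 2 * ball N' m ≤ ball N' (m + 1))
    (hs' : ∀ m, 2 * ball N' m + 2 * ball N m ≤ ball N (m + 1)) (a : A) (b : B)
    (hab : Rel N N' a b) :
    ∃ κ : A ≃ B, ∀ c, Rel N N' c (κ c) ∧ Rel N N' (a - c) (b - κ c) := by
  obtain ⟨i, hi, hi'⟩ := exists_inj hN hN' hs a b hab
  obtain ⟨j, hj, hj'⟩ := exists_inj hN' hN hs' b a hab.symm
  obtain ⟨κ, hκ, hκ'⟩ := Embedding.schroeder_bernstein_of_rel hi hj
    (fun c d => Rel N N' c d ∧ Rel N N' (a - c) (b - d)) hi'
    (fun d => ⟨(hj' d).1.symm, (hj' d).2.symm⟩)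
  exact ⟨Equiv.ofBijective κ hκ, hκ'⟩

end inj

end H38Q
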