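import Pool.Agent.H38R3.QBase

/-! Seminorms, bounded group topologies. -/

namespace H38Q

open Function Set Filter Topology
open scoped NNReal ENNReal

/-- a group seminorm -/
structure IsSN {X : Type} [AddCommGroup X] (ρ : X → ℝ) : Prop where
  zero : ρ 0 = 0
  neg : ∀ u, ρ (-u) = ρ u
  add : ∀ u v, ρ (u + v) ≤ ρ u + ρ v
  nonneg : ∀ u, 0 ≤ ρ u

/-- separability of a seminorm, by countable codes -/
def Sep' {X : Type} [AddCommGroup X] (ρ : X → ℝ) : Prop :=
  ∀ ε > 0, ∃ c : X → ℕ, ∀ u v, c u = c v → ρ (u - v) < ε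

theorem IsSN.sum_le {X : Type} [AddCommGroup X] {ρ : X → ℝ} (h : IsSN ρ) {ι : Type}
    (E : Finset ι) (f : ι → X) : ρ (∑ x ∈ E, f x) ≤ ∑ x ∈ E, ρ (f x) := by
  classical
  induction E using Finset.induction_on with
  | empty => simp [h.zero]
  | insert a s ha ih =>
    rw [Finset.sum_insert ha, Finset.sum_insert ha]
    exact (h.add _ _).trans (by linarith)

/-- a seminorm from a decreasing sequence of neighbourhoods -/
theorem exists_seminorm {X : Type} [AddCommGroup X] (V : ℕ → Set X) (h0 : V 0 = univ)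
    (hz : ∀ k, (0 : X) ∈ V k) (hneg : ∀ k, ∀ u ∈ V k, -u ∈ V k) (hanti : Antitone V)
    (hadd : ∀ k, ∀ u ∈ V (k + 1), ∀ v ∈ V (k + 1), ∀ z ∈ V (k + 1), u + v + z ∈ V k) :
    ∃ ρ : X → ℝ, IsSN ρ ∧ (∀ u, ρ u < 1 → u ∈ V 1) ∧ ∀ ε > 0, ∃ k, ∀ u ∈ V k, ρ u < ε := by
  classical
  let d : X → X → ℝ≥0 := fun x y => if h : ∃ n, y - x ∉ V n then (1 / 2) ^ Nat.find h else 0
  have hdself : ∀ x, d x x = 0 := by
    intro x
    simp only [d, sub_self]
    rw [dif_neg]
    push Not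
    exact hz
  have hmem : ∀ u n, -u ∈ V n ↔ u ∈ V n := fun u n =>
    ⟨fun h => by simpa using hneg n _ h, fun h => hneg n _ h⟩
  have hdcomm : ∀ x y, d x y = d y x := by
    intro x y
    have h1 : ∀ n, y - x ∉ V n ↔ x - y ∉ V n := by
      intro n
      rw [← hmem (x - y), neg_sub]
    simp only [d, h1]
  have hr : (1 / 2 : ℝ≥0) ∈ Ioo (0 : ℝ≥0) 1 := ⟨half_pos one_pos, NNReal.half_lt_self one_ne_zero⟩
  have hle_d : ∀ {x y : X} {n : ℕ}, (1 / 2) ^ n ≤ d x y ↔ y - x ∉ V n := by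
    intro x y n
    dsimp only [d]
    split_ifs with h
    · rw [(pow_right_strictAnti₀ hr.1 hr.2).le_iff_ge, Nat.find_le_iff]
      exact ⟨fun ⟨m, hmn, hm⟩ hn => hm (hanti hmn hn), fun h => ⟨n, le_rfl, h⟩⟩
    · push Not at h
      simp only [h, not_true, (pow_pos hr.1 _).not_ge]
  have hd_le : ∀ x y, ↑(d x y) ≤ 2 * @dist X (@PseudoMetricSpace.toDist X
      (PseudoMetricSpace.ofPreNNDist d hdself hdcomm)) x y := by
    refine PseudoMetricSpace.le_two_mul_dist_ofPreNNDist _ _ _ fun x₁ x₂ x₃ x₄ => ?_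
    by_cases H : ∃ n, x₄ - x₁ ∉ V n
    · refine (dif_pos H).trans_le ?_
      rw [← div_le_iff₀' zero_lt_two, ← mul_one_div (_ ^ _), ← pow_succ]
      simp only [le_max_iff, hle_d, ← not_and_or]
      rintro ⟨h₁₂, h₂₃, h₃₄⟩
      apply Nat.find_spec H
      have := hadd _ _ h₁₂ _ h₂₃ _ h₃₄
      have h5 : x₂ - x₁ + (x₃ - x₂) + (x₄ - x₃) = x₄ - x₁ := by abel
      rwa [h5] at this
    · exact (dif_neg H).trans_le zero_le
  letI I := PseudoMetricSpace.ofPreNNDist d hdself hdcomm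
  have hdle : ∀ x y, dist x y ≤ d x y := PseudoMetricSpace.dist_ofPreNNDist_le _ _ _
  have hinv : ∀ x y z : X, dist (x + z) (y + z) ≤ dist x y := by
    intro x y z
    rw [PseudoMetricSpace.dist_ofPreNNDist, PseudoMetricSpace.dist_ofPreNNDist, NNReal.coe_le_coe]
    apply le_ciInf
    intro l
    refine (ciInf_le (OrderBot.bddBelow _) (l.map (fun u => u + z))).trans_eq ?_
    have h1 : (x + z) :: l.map (fun u => u + z) = (x :: l).map (fun u => u + z) := rfl
    have h2 : l.map (fun u => u + z) ++ [y + z] = (l ++ [y]).map (fun u => u + z) := by simp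
    rw [h1, h2, List.zipWith_map]
    have h3 : (fun a b => d (a + z) (b + z)) = d := by
      funext a b
      simp only [d, add_sub_add_right_eq_sub]
    rw [h3]
  have hinv' : ∀ x y z : X, dist (x + z) (y + z) = dist x y := by
    intro x y z
    apply le_antisymm (hinv x y z)
    have := hinv (x + z) (y + z) (-z)
    simpa using this
  refine ⟨fun u => 4 * dist 0 u, ⟨?_, ?_, ?_, ?_⟩, ?_, ?_⟩
  · simp
  · intro u
    have := hinv' 0 (-u) u
    simp only [zero_add, neg_add_cancel] at this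
    show 4 * dist 0 (-u) = 4 * dist 0 u
    rw [← this, dist_comm]
  · intro u v
    have h1 := dist_triangle 0 v (u + v)
    have h2 := hinv' 0 u v
    rw [zero_add] at h2
    show 4 * dist 0 (u + v) ≤ 4 * dist 0 u + 4 * dist 0 v
    linarith
  · intro u
    positivity
  · intro u hu
    have h1 := hd_le 0 u
    have h2 : (d 0 u : ℝ) < 1 / 2 := by
      have h3 : 4 * dist 0 u < 1 := hu
      linarith
    by_contra hcon
    have h3 : (1 / 2 : ℝ≥0) ^ 1 ≤ d 0 u := hle_d.2 (by simpa using hcon)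
    have h4 : ((1 / 2 : ℝ≥0) : ℝ) ≤ d 0 u := by
      rw [pow_one] at h3
      exact_mod_cast h3
    have h5 : ((1 / 2 : ℝ≥0) : ℝ) = 1 / 2 := by simp
    linarith
  · intro ε hε
    obtain ⟨k, hk⟩ := exists_pow_lt_of_lt_one (show (0 : ℝ) < ε / 4 by linarith)
      (show (1 / 2 : ℝ) < 1 by norm_num)
    refine ⟨k, ?_⟩
    intro u hu
    have h1 : ¬ ((1 / 2 : ℝ≥0) ^ k ≤ d 0 u) := by
      rw [hle_d, not_not, sub_zero]
      exact hu
    have h2 : (d 0 u : ℝ) < (1 / 2) ^ k := by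
      have h3 := not_le.1 h1
      have h4 : (d 0 u : ℝ) < (((1 / 2 : ℝ≥0) ^ k : ℝ≥0) : ℝ) := by exact_mod_cast h3
      simpa using h4
    have h3 := hdle 0 u
    show 4 * dist 0 u < ε
    linarith

/-- every nonempty open set has countably many translates that cover the group -/
def OmegaBounded {K : Type} [AddCommGroup K] (t : TopologicalSpace K) : Prop :=
  ∀ U : Set K, IsOpen[t] U → U.Nonempty → ∃ A : Set K, A.Countable ∧
    ∀ x, ∃ u ∈ U, ∃ a ∈ A, x = u + a

/-- the omega bounded group topologies -/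
def OmegaTops (K : Type) [AddCommGroup K] : Set (TopologicalSpace K) :=
  {t | @IsTopologicalAddGroup K t _ ∧ OmegaBounded t}

/-- the topology of a separable seminorm -/
theorem exists_topology {X : Type} [AddCommGroup X] {ρ : X → ℝ} (h : IsSN ρ) (hs : Sep' ρ) :
    ∃ t ∈ OmegaTops X, ∀ ε > 0, {u | ρ u < ε} ∈ @nhds X t 0 := by
  let f : AddGroupSeminorm X := ⟨ρ, h.zero, h.add, h.neg⟩
  letI S : SeminormedAddCommGroup X := f.toSeminormedAddCommGroup
  have hnorm : ∀ u : X, ‖u‖ = ρ u := fun u => rfl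
  refine ⟨S.toPseudoMetricSpace.toUniformSpace.toTopologicalSpace, ⟨?_, ?_⟩, ?_⟩
  · exact SeminormedAddCommGroup.toIsTopologicalAddGroup
  · intro U hU hUne
    obtain ⟨x0, hx0⟩ := hUne
    obtain ⟨ε, hε, hball⟩ := Metric.isOpen_iff.1 hU x0 hx0
    obtain ⟨c, hc⟩ := hs ε hε
    classical
    let r : ℕ → X := fun n => if h : ∃ u, c u = n then h.choose else 0
    refine ⟨Set.range (fun n => r n - x0), Set.countable_range _, ?_⟩
    intro x
    have hr : c (r (c x)) = c x := by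
      have hex : ∃ u, c u = c x := ⟨x, rfl⟩
      simp only [r, dif_pos hex]
      exact hex.choose_spec
    refine ⟨x - (r (c x) - x0), ?_, r (c x) - x0, ⟨c x, rfl⟩, by abel⟩
    apply hball
    rw [Metric.mem_ball, dist_eq_norm, hnorm]
    have h1 : x - (r (c x) - x0) - x0 = x - r (c x) := by abel
    rw [h1]
    exact hc _ _ hr.symm
  · intro ε hε
    have := Metric.ball_mem_nhds (0 : X) hε
    refine Filter.mem_of_superset this ?_
    intro u hu
    rw [Metric.mem_ball, dist_zero_right, hnorm] at hu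
    exact hu

/-- a neighbourhood of zero in an omega bounded group topology contains a unit ball of a separable
seminorm -/
theorem exists_seminorm_of_top {X : Type} [AddCommGroup X] {t : TopologicalSpace X}
    (ht : t ∈ OmegaTops X) {U : Set X} (hU : U ∈ @nhds X t 0) :
    ∃ ρ : X → ℝ, IsSN ρ ∧ Sep' ρ ∧ ∀ u, ρ u < 1 → u ∈ U := by
  classical
  letI := t
  haveI : IsTopologicalAddGroup X := ht.1
  have step : ∀ W : {W : Set X // W ∈ 𝓝 (0 : X)}, ∃ V : {V : Set X // V ∈ 𝓝 (0 : X)},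
      (∀ u ∈ V.1, -u ∈ V.1) ∧ V.1 ⊆ W.1 ∧ ∀ u ∈ V.1, ∀ v ∈ V.1, ∀ z ∈ V.1, u + v + z ∈ W.1 := by
    rintro ⟨W, hW⟩
    have h1 : Tendsto (fun p : X × X × X => p.1 + p.2.1 + p.2.2) (𝓝 (0, 0, 0)) (𝓝 (0 + 0 + 0)) := by
      apply Continuous.tendsto' (by fun_prop)
      simp
    rw [add_zero, add_zero] at h1
    have h2 := h1 hW
    rw [nhds_prod_eq, nhds_prod_eq] at h2
    rw [Filter.mem_map, Filter.mem_prod_iff] at h2
    obtain ⟨A, hA, B, hB, hAB⟩ := h2
    rw [Filter.mem_prod_iff] at hB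
    obtain ⟨B1, hB1, B2, hB2, hBB⟩ := hB
    let V0 := A ∩ B1 ∩ B2 ∩ W
    have hV0 : V0 ∈ 𝓝 (0 : X) := inter_mem (inter_mem (inter_mem hA hB1) hB2) hW
    have hV0' : (fun u : X => -u) ⁻¹' V0 ∈ 𝓝 (0 : X) := by
      apply (continuous_neg.tendsto' (0 : X) 0 (by simp)) hV0
    refine ⟨⟨V0 ∩ (fun u : X => -u) ⁻¹' V0, inter_mem hV0 hV0'⟩, ?_, ?_, ?_⟩
    · rintro u ⟨hu1, hu2⟩
      exact ⟨hu2, by simpa using hu1⟩
    · rintro u ⟨hu1, _⟩
      exact hu1.2
    · rintro u ⟨hu, _⟩ v ⟨hv, _⟩ z ⟨hz, _⟩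
      exact hAB (show (u, (v, z)) ∈ A ×ˢ B from ⟨hu.1.1.1, hBB ⟨hv.1.1.2, hz.1.2⟩⟩)
  choose F hF using step
  let V' : ℕ → {V : Set X // V ∈ 𝓝 (0 : X)} := fun n => Nat.rec (F ⟨U, hU⟩) (fun _ V => F V) n
  let V : ℕ → Set X := fun n => match n with
    | 0 => univ
    | n + 1 => (V' n).1
  have hVsub : ∀ k, V (k + 1) ⊆ V k := by
    intro k
    cases k with
    | zero => exact subset_univ _
    | succ k => exact (hF (V' k)).2.1
  have hVn : ∀ k, V k ∈ 𝓝 (0 : X) := by
    intro k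
    cases k with
    | zero => exact univ_mem
    | succ k => exact (V' k).2
  obtain ⟨ρ, hρ, hρ1, hρε⟩ := exists_seminorm V rfl (fun k => mem_of_mem_nhds (hVn k))
    (by
      intro k
      cases k with
      | zero => exact fun _ _ => mem_univ _
      | succ k =>
        cases k with
        | zero => exact (hF ⟨U, hU⟩).1
        | succ k => exact (hF (V' k)).1)
    (antitone_nat_of_succ_le hVsub)
    (by
      intro k
      cases k with
      | zero => exact fun _ _ _ _ _ _ => mem_univ _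
      | succ k => exact (hF (V' k)).2.2)
  refine ⟨ρ, hρ, ?_, ?_⟩
  · intro ε hε
    obtain ⟨k, hk⟩ := hρε (ε / 2) (by linarith)
    obtain ⟨O, hOV, hO, h0O⟩ := mem_nhds_iff.1 (hVn k)
    obtain ⟨A, hA, hAcov⟩ := ht.2 O hO ⟨0, h0O⟩
    choose u hu a ha hua using hAcov
    haveI := hA.to_subtype
    obtain ⟨e, he⟩ := exists_injective_nat A
    refine ⟨fun x => e ⟨a x, ha x⟩, ?_⟩
    intro x y hxy
    have h1 : a x = a y := congrArg Subtype.val (he hxy)
    have h2 : x - y = u x + -(u y) := by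
      conv_lhs => rw [hua x, hua y, h1]
      abel
    rw [h2]
    have h3 := hρ.add (u x) (-(u y))
    rw [hρ.neg] at h3
    have h4 := hk _ (hOV (hu x))
    have h5 := hk _ (hOV (hu y))
    linarith
  · intro u hu
    exact (hF ⟨U, hU⟩).2.1 (hρ1 u hu)

end H38Q
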