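import Pool.Agent.H38R3.QTree

/-! The pro-countable topology and the transfer homeomorphism. -/

namespace H38Q

open Function Set Filter Topology

/-- a code with countably many values shows that the quotient is countable -/
theorem countable_of_code {K C : Type} [AddCommGroup K] [Countable C] (S : AddSubgroup K)
    (c : K → C) (h : ∀ x y, c x = c y → -x + y ∈ S) : Countable (K ⧸ S) := by
  apply Function.Injective.countable (f := fun q : K ⧸ S => c q.out)
  intro q q' hq
  have h1 := h _ _ hq
  rw [← QuotientAddGroup.out_eq' q, ← QuotientAddGroup.out_eq' q']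
  exact QuotientAddGroup.eq.2 h1

/-- The pro-countable topology: the subgroups of countable index form a base at zero. -/
@[reducible] def rho (K : Type) [AddCommGroup K] : TopologicalSpace K where
  IsOpen U := ∀ x ∈ U, ∃ S : AddSubgroup K, Countable (K ⧸ S) ∧ ∀ y ∈ S, x + y ∈ U
  isOpen_univ := fun _ _ => ⟨⊤, inferInstance, fun _ _ => mem_univ _⟩
  isOpen_inter := by
    rintro U V hU hV x ⟨hxU, hxV⟩
    obtain ⟨S, hS, hSU⟩ := hU x hxU
    obtain ⟨T, hT, hTV⟩ := hV x hxV
    refine ⟨S ⊓ T, ?_, fun y hy => ⟨hSU y hy.1, hTV y hy.2⟩⟩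
    apply countable_of_code (S ⊓ T) (fun x => ((x : K ⧸ S), (x : K ⧸ T)))
    intro x y hxy
    simp only [Prod.mk.injEq, QuotientAddGroup.eq] at hxy
    exact ⟨hxy.1, hxy.2⟩
  isOpen_sUnion := by
    intro 𝒰 h𝒰 x hx
    obtain ⟨U, hU, hxU⟩ := hx
    obtain ⟨S, hS, hSU⟩ := h𝒰 U hU x hxU
    exact ⟨S, hS, fun y hy => ⟨U, hU, hSU y hy⟩⟩

theorem rho_isOpen_iff {K : Type} [AddCommGroup K] (U : Set K) :
    IsOpen[rho K] U ↔ ∀ x ∈ U, ∃ S : AddSubgroup K, Countable (K ⧸ S) ∧ ∀ y ∈ S, x + y ∈ U :=
  Iff.rfl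

/-- an additive isomorphism is continuous -/
theorem continuous_of_addEquiv {K K' : Type} [AddCommGroup K] [AddCommGroup K'] (e : K ≃+ K') :
    @Continuous K K' (rho K) (rho K') e := by
  refine @Continuous.mk K K' (rho K) (rho K') e ?_
  intro U hU x hx
  obtain ⟨S, hS, hSU⟩ := hU (e x) hx
  refine ⟨S.comap e.toAddMonoidHom, ?_, ?_⟩
  · apply countable_of_code _ (fun x => (e x : K' ⧸ S))
    intro x y hxy
    rw [QuotientAddGroup.eq] at hxy
    simpa using hxy
  · intro y hy
    have := hSU (e y) hy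
    simpa using this

section W

variable {D : Set (ℕ → Bool)} {A B : Type} [AddCommGroup A] [AddCommGroup B]

/-- the basic subgroup of a node function -/
def W (D : Set (ℕ → Bool)) {N : A → ℕ} (hN : IsUNorm N) (μ : List Bool → ℕ) :
    AddSubgroup (X D A) where
  carrier := {w | ∀ s, N (sg s w) ≤ μ s}
  zero_mem' := by
    intro s
    rw [map_zero, (hN.zero_iff 0).2 rfl]
    exact Nat.zero_le _
  add_mem' := by
    intro v w hv hw s
    rw [map_add]
    have := hN.add_le (sg s v) (sg s w)
    have h1 := hv s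
    have h2 := hw s
    omega
  neg_mem' := by
    intro v hv s
    rw [map_neg, hN.neg_eq]
    exact hv s

theorem mem_W {N : A → ℕ} (hN : IsUNorm N) (μ : List Bool → ℕ) (w : X D A) :
    w ∈ W D hN μ ↔ ∀ s, N (sg s w) ≤ μ s := Iff.rfl

def Good (D : Set (ℕ → Bool)) (μ : List Bool → ℕ) : Prop :=
  ∀ x ∈ D, ∀ K, ∀ᶠ n in atTop, K ≤ μ (PiNat.res x n)

theorem norm_sum_le {N : A → ℕ} (hN : IsUNorm N) {ι : Type} (E : Finset ι) (f : ι → A) (K : ℕ)
    (h : ∀ x ∈ E, N (f x) ≤ K) : N (∑ x ∈ E, f x) ≤ K := by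
  classical
  induction E using Finset.induction_on with
  | empty =>
    rw [Finset.sum_empty, (hN.zero_iff 0).2 rfl]
    exact Nat.zero_le _
  | insert a s ha ih =>
    rw [Finset.sum_insert ha]
    have h1 := hN.add_le (f a) (∑ x ∈ s, f x)
    have h2 := h a (Finset.mem_insert_self _ _)
    have h3 := ih (fun x hx => h x (Finset.mem_insert_of_mem hx))
    omega

theorem exists_bound {N : A → ℕ} (hN : IsUNorm N) (w : X D A) : ∃ K, ∀ s, N (sg s w) ≤ K := by
  classical
  refine ⟨w.support.sup (fun x => N (w x)), ?_⟩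
  intro s
  rw [sg_apply]
  apply norm_sum_le hN
  intro x hx
  split_ifs
  · exact Finset.le_sup (f := fun x => N (w x)) hx
  · rw [(hN.zero_iff 0).2 rfl]
    exact Nat.zero_le _

/-- for a good function only finitely many nodes of a finite set of branches are below a bound -/
theorem finite_low {μ : List Bool → ℕ} (hμ : Good D μ) (E : Finset D) (K : ℕ) :
    {s : List Bool | (∃ x ∈ E, PiNat.res x.1 s.length = s) ∧ μ s < K}.Finite := by
  classical
  have h : ∀ x : D, ∃ n, ∀ m, n ≤ m → K ≤ μ (PiNat.res x.1 m) := by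
    intro x
    have := hμ x.1 x.2 K
    rw [eventually_atTop] at this
    exact this
  choose n hn using h
  apply ((E.product (Finset.range (E.sup n + 1))).image
    (fun p : D × ℕ => PiNat.res p.1.1 p.2)).finite_toSet.subset
  rintro s ⟨⟨x, hx, hxs⟩, hs⟩
  simp only [Finset.coe_image, mem_image]
  refine ⟨(x, s.length), ?_, hxs⟩
  simp only [Finset.product_eq_sprod, Finset.coe_product, mem_prod, Finset.mem_coe,
    Finset.mem_range]
  refine ⟨hx, ?_⟩
  by_contra hcon
  have h1 : n x ≤ E.sup n := Finset.le_sup hx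
  have h2 := hn x s.length (by omega)
  rw [hxs] at h2
  omega

theorem countable_W [Countable A] {N : A → ℕ} (hN : IsUNorm N) {μ : List Bool → ℕ}
    (hμ : Good D μ) : Countable (X D A ⧸ W D hN μ) := by
  classical
  have hfin : ∀ w : X D A, {s : List Bool | μ s < N (sg s w)}.Finite := by
    intro w
    obtain ⟨K, hK⟩ := exists_bound hN w
    apply (finite_low hμ w.support K).subset
    intro s hs
    simp only [mem_setOf_eq] at hs
    have h1 := hK s
    refine ⟨sg_ne_zero w s ?_, by omega⟩
    intro h0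
    rw [h0, (hN.zero_iff 0).2 rfl] at hs
    omega
  apply countable_of_code _ (fun w : X D A =>
    ((hfin w).toFinset.image (fun s => (s, sg s w)) : Finset (List Bool × A)))
  intro v w hvw
  rw [mem_W]
  intro s
  rw [map_add, map_neg]
  have key : ∀ v w : X D A, ((hfin v).toFinset.image (fun s => (s, sg s v))) =
      ((hfin w).toFinset.image (fun s => (s, sg s w))) → μ s < N (sg s v) → sg s v = sg s w := by
    intro v w h1 h2
    have h3 : (s, sg s v) ∈ (hfin v).toFinset.image (fun s => (s, sg s v)) := by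
      rw [Finset.mem_image]
      exact ⟨s, by simpa using h2, rfl⟩
    rw [h1, Finset.mem_image] at h3
    obtain ⟨t, _, ht⟩ := h3
    simp only [Prod.mk.injEq] at ht
    rw [← ht.2, ht.1]
  by_cases h1 : μ s < N (sg s v)
  · rw [key v w hvw h1, neg_add_cancel, (hN.zero_iff 0).2 rfl]
    exact Nat.zero_le _
  · by_cases h2 : μ s < N (sg s w)
    · rw [key w v hvw.symm h2, neg_add_cancel, (hN.zero_iff 0).2 rfl]
      exact Nat.zero_le _
    · have h3 := hN.add_le (-sg s v) (sg s w)
      rw [hN.neg_eq] at h3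
      omega

/-- the local continuity of the transfer -/
theorem Mat.continuity {NA : A → ℕ} {NB : B → ℕ} (hA : IsUNorm NA) (hB : IsUNorm NB)
    (M : Mat NA NB) (h0 : Rel NA NB (0 : A) (0 : B)) (w : X D A) {μ : List Bool → ℕ}
    (hμ : Good D μ) :
    ∃ μ' : List Bool → ℕ, Good D μ' ∧ ∀ v ∈ W D hA μ', -(M.map h0 w) + M.map h0 (w + v) ∈ W D hB μ := by
  classical
  obtain ⟨K, hK⟩ := exists_bound hA w
  have hE := finite_low hμ w.support (K + 1)
  set E := {s : List Bool | (∃ x ∈ w.support, PiNat.res x.1 s.length = s) ∧ μ s < K + 1} with hEdef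
  let E' : Set (List Bool) := {[]} ∪ ⋃ s ∈ E, (fun p : ℕ × Bool => p.2 :: s.drop (p.1 + 1)) ''
    (Iic s.length ×ˢ univ)
  have hE' : E'.Finite := by
    apply (finite_singleton _).union
    apply hE.biUnion
    intro s _
    apply Set.Finite.image
    exact (finite_Iic _).prod finite_univ
  have hE'mem : ∀ s ∈ E, ∀ i b, b :: s.drop (i + 1) ∈ E' := by
    intro s hs i b
    right
    rw [mem_iUnion₂]
    refine ⟨s, hs, ?_⟩
    by_cases hi : i ≤ s.length
    · exact ⟨(i, b), ⟨hi, mem_univ _⟩, rfl⟩
    · refine ⟨(s.length, b), ⟨mem_Iic.2 (le_refl _), mem_univ _⟩, ?_⟩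
      simp only
      rw [List.drop_eq_nil_of_le (by omega), List.drop_eq_nil_of_le (by omega)]
  refine ⟨fun s => if s ∈ E' then 0 else μ s - 1, ?_, ?_⟩
  · intro x hx L
    have h1 := hμ x hx (L + 1)
    have h2 : ∀ᶠ n in atTop, PiNat.res x n ∉ E' := by
      have h3 : (List.length '' E').Finite := hE'.image _
      obtain ⟨m, hm⟩ := h3.bddAbove
      filter_upwards [eventually_gt_atTop m] with n hn hmem
      have := hm (mem_image_of_mem List.length hmem)
      rw [PiNat.res_length] at this
      omega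
    filter_upwards [h1, h2] with n hn1 hn2
    rw [if_neg hn2]
    omega
  · intro v hv
    rw [mem_W] at hv ⊢
    intro s
    rw [map_add, map_neg, M.sg_map, M.sg_map]
    have hr := M.rel h0 (sg_additive w) s
    have hr' := M.rel h0 (sg_additive (w + v)) s
    have hv' : ∀ t, NA (sg t v) ≤ μ t - 1 := by
      intro t
      have h1 := hv t
      by_cases h : t ∈ E'
      · rw [if_pos h] at h1
        omega
      · rw [if_neg h] at h1
        exact h1
    have hz : ∀ {b : B}, b = 0 → NB b = 0 := fun h => (hB.zero_iff _).2 h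
    by_cases hs0 : sg s w = 0
    · have h1 := hr.1.1 hs0
      rw [h1, neg_zero, zero_add]
      by_cases h2 : sg s (w + v) = 0
      · rw [hz (hr'.1.1 h2)]
        exact Nat.zero_le _
      · have h3 := hr'.2.1
        have h4 : sg s (w + v) = sg s v := by rw [map_add, hs0, zero_add]
        have h5 : NA (sg s (w + v)) ≠ 0 := fun h => h2 ((hA.zero_iff _).1 h)
        have h6 := hv' s
        rw [← h4] at h6
        omega
    · by_cases hμs : μ s < K + 1
      · have hsE : s ∈ E := ⟨sg_ne_zero w s hs0, hμs⟩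
        have h1 : M.tr (fun s => sg s w) s = M.tr (fun s => sg s (w + v)) s := by
          apply M.tr_congr
          intro t ht
          have htE : t ∈ E' := by
            rcases ht with ⟨i, b, rfl⟩ | rfl
            · exact hE'mem s hsE i b
            · exact Or.inl rfl
          have h2 := hv t
          simp only [if_pos htE] at h2
          have h3 : sg t v = 0 := (hA.zero_iff _).1 (by omega)
          rw [map_add, h3, add_zero]
        rw [h1, neg_add_cancel, hz rfl]
        exact Nat.zero_le _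
      · have h1 := hK s
        have h2 := hr.2.1
        have h3 := hr'.2.1
        have h4 := hA.add_le (sg s w) (sg s v)
        rw [← map_add] at h4
        have h5 := hv' s
        have h6 := hB.add_le (-(M.tr (fun s => sg s w) s)) (M.tr (fun s => sg s (w + v)) s)
        rw [hB.neg_eq] at h6
        omega

/-- the good node functions give a base at zero -/
def IsBase (D : Set (ℕ → Bool)) {N : A → ℕ} (hN : IsUNorm N) : Prop :=
  ∀ S : AddSubgroup (X D A), Countable (X D A ⧸ S) → ∃ μ, Good D μ ∧ W D hN μ ≤ S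

theorem Mat.continuous_map [Countable A] {NA : A → ℕ} {NB : B → ℕ} (hA : IsUNorm NA)
    (hB : IsUNorm NB) (M : Mat NA NB) (h0 : Rel NA NB (0 : A) (0 : B)) (hbase : IsBase D hB) :
    @Continuous (X D A) (X D B) (rho _) (rho _) (M.map h0) := by
  refine @Continuous.mk _ _ (rho _) (rho _) _ ?_
  intro U hU w hw
  obtain ⟨S, hS, hSU⟩ := hU (M.map h0 w) hw
  obtain ⟨μ, hμ, hμS⟩ := hbase S hS
  obtain ⟨μ', hμ', h⟩ := M.continuity hA hB h0 w hμ
  refine ⟨W D hA μ', countable_W hA hμ', ?_⟩
  intro v hv
  have h1 := hSU _ (hμS (h v hv))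
  rw [add_neg_cancel_left] at h1
  exact h1

/-- the two groups of measures are homeomorphic -/
theorem Mat.homeo [Countable A] [Countable B] {NA : A → ℕ} {NB : B → ℕ} (hA : IsUNorm NA)
    (hB : IsUNorm NB) (M : Mat NA NB) (h0 : Rel NA NB (0 : A) (0 : B)) (hbA : IsBase D hA)
    (hbB : IsBase D hB) : Nonempty (@Homeomorph (X D A) (X D B) (rho _) (rho _)) :=
  ⟨@Homeomorph.mk _ _ (rho _) (rho _)
    ⟨M.map h0, M.inv.map h0.symm, M.inv_map h0, M.map_inv h0⟩
    (M.continuous_map hA hB h0 hbB) (M.inv.continuous_map hB hA h0.symm hbA)⟩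

end W

end H38Q
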