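import Pool.Agent.H38R3.QMatch

/-! Finitely supported measures on a set of branches and their transfer. -/

namespace H38Q

open Function Set

variable {A B : Type} [AddCommGroup A] [AddCommGroup B]

/-- a system of bijections that respects the relation -/
structure Mat (NA : A → ℕ) (NB : B → ℕ) where
  κ : A → B → A ≃ B
  spec : ∀ a b, Rel NA NB a b → ∀ c, Rel NA NB c (κ a b c) ∧ Rel NA NB (a - c) (b - κ a b c)

/-- the transfer of a node function; the head of a list is the last bit of the node -/
def Mat.tr {NA : A → ℕ} {NB : B → ℕ} (M : Mat NA NB) (σ : List Bool → A) : List Bool → B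
  | [] => M.κ 0 0 (σ [])
  | false :: s => M.κ (σ s) (M.tr σ s) (σ (false :: s))
  | true :: s => M.tr σ s - M.κ (σ s) (M.tr σ s) (σ (false :: s))

def Additive' (σ : List Bool → A) : Prop := ∀ s, σ s = σ (false :: s) + σ (true :: s)

theorem Mat.rel {NA : A → ℕ} {NB : B → ℕ} (M : Mat NA NB) (h0 : Rel NA NB (0 : A) (0 : B))
    {σ : List Bool → A} (hσ : Additive' σ) : ∀ s, Rel NA NB (σ s) (M.tr σ s)
  | [] => (M.spec 0 0 h0 _).1
  | false :: s => (M.spec _ _ (M.rel h0 hσ s) _).1
  | true :: s => by
      have h := (M.spec _ _ (M.rel h0 hσ s) (σ (false :: s))).2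
      have h2 : σ s - σ (false :: s) = σ (true :: s) := by
        rw [hσ s]
        abel
      rw [h2] at h
      exact h

theorem Mat.tr_additive {NA : A → ℕ} {NB : B → ℕ} (M : Mat NA NB) (σ : List Bool → A) :
    Additive' (M.tr σ) := by
  intro s
  simp only [Mat.tr]
  abel

/-- the inverse system -/
def Mat.inv {NA : A → ℕ} {NB : B → ℕ} (M : Mat NA NB) : Mat NB NA where
  κ := fun b a => (M.κ a b).symm
  spec := by
    intro b a hab c
    have h := M.spec a b hab.symm ((M.κ a b).symm c)
    rw [Equiv.apply_symm_apply] at h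
    exact ⟨h.1.symm, h.2.symm⟩

theorem Mat.inv_tr {NA : A → ℕ} {NB : B → ℕ} (M : Mat NA NB) {σ : List Bool → A}
    (hσ : Additive' σ) : ∀ s, M.inv.tr (M.tr σ) s = σ s
  | [] => by simp [Mat.tr, Mat.inv]
  | false :: s => by
      have ih := M.inv_tr hσ s
      simp only [Mat.tr]
      rw [ih]
      simp [Mat.inv]
  | true :: s => by
      have ih := M.inv_tr hσ s
      simp only [Mat.tr]
      rw [ih]
      simp only [Mat.inv, Equiv.symm_apply_apply]
      rw [hσ s]
      abel

theorem Mat.tr_inv {NA : A → ℕ} {NB : B → ℕ} (M : Mat NA NB) {τ : List Bool → B}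
    (hτ : Additive' τ) : ∀ s, M.tr (M.inv.tr τ) s = τ s := M.inv.inv_tr hτ

/-- local dependence: equal values on the initial segments and their siblings suffice -/
theorem Mat.tr_congr {NA : A → ℕ} {NB : B → ℕ} (M : Mat NA NB) {σ σ' : List Bool → A}
    {s : List Bool} (h : ∀ t, (∃ i b, t = b :: s.drop (i + 1)) ∨ t = [] → σ t = σ' t)
    : M.tr σ s = M.tr σ' s := by
  induction s with
  | nil =>
    simp only [Mat.tr]
    rw [h [] (Or.inr rfl)]
  | cons b s ih =>
    have h1 : M.tr σ s = M.tr σ' s := by
      apply ih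
      rintro t (⟨i, c, rfl⟩ | rfl)
      · apply h
        left
        exact ⟨i + 1, c, by simp⟩
      · exact h _ (Or.inr rfl)
    have h2 : σ (false :: s) = σ' (false :: s) := h _ (Or.inl ⟨0, false, by simp⟩)
    have h3 : σ s = σ' s := by
      cases s with
      | nil => exact h _ (Or.inr rfl)
      | cons c s => exact h _ (Or.inl ⟨1, c, by simp⟩)
    cases b
    · simp only [Mat.tr]
      rw [h1, h2, h3]
    · simp only [Mat.tr]
      rw [h1, h2, h3]

/-- the group of finitely supported functions on the set of branches -/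
abbrev X (D : Set (ℕ → Bool)) (A : Type) [AddCommGroup A] : Type := D →₀ A

section sg

variable {D : Set (ℕ → Bool)}

open Classical in
/-- the value of the measure at a node -/
noncomputable def sg (s : List Bool) : X D A →+ A :=
  Finsupp.liftAddHom (fun x => if PiNat.res x.1 s.length = s then AddMonoidHom.id A else 0)

open Classical in
theorem sg_apply (s : List Bool) (w : X D A) :
    sg s w = ∑ x ∈ w.support, if PiNat.res x.1 s.length = s then w x else 0 := by
  rw [sg, Finsupp.liftAddHom_apply, Finsupp.sum]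
  apply Finset.sum_congr rfl
  intro x _
  split_ifs <;> simp

open Classical in
theorem sg_apply' (s : List Bool) (w : X D A) {E : Finset D} (hE : w.support ⊆ E) :
    sg s w = ∑ x ∈ E, if PiNat.res x.1 s.length = s then w x else 0 := by
  rw [sg_apply]
  apply Finset.sum_subset hE
  intro x _ hx
  rw [Finsupp.notMem_support_iff] at hx
  simp [hx]

theorem sg_additive (w : X D A) : Additive' (fun s => sg s w) := by
  classical
  intro s
  simp only
  rw [sg_apply, sg_apply, sg_apply, ← Finset.sum_add_distrib]
  apply Finset.sum_congr rfl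
  intro x _
  simp only [List.length_cons, PiNat.res_succ, List.cons.injEq]
  by_cases h : PiNat.res x.1 s.length = s
  · cases hx : x.1 s.length <;> simp [h]
  · simp [h]

theorem sg_ne_zero (w : X D A) (s : List Bool) (h : sg s w ≠ 0) :
    ∃ x ∈ w.support, PiNat.res x.1 s.length = s := by
  classical
  by_contra hcon
  push Not at hcon
  apply h
  rw [sg_apply]
  apply Finset.sum_eq_zero
  intro x hx
  rw [if_neg (hcon x hx)]

/-- a level is separating for a finite set of branches -/
def Sep (E : Finset D) (n : ℕ) : Prop :=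
  ∀ x ∈ E, ∀ y ∈ E, PiNat.res x.1 n = PiNat.res y.1 n → x = y

theorem Sep.mono {E : Finset D} {n m : ℕ} (h : Sep E n) (hnm : n ≤ m) : Sep E m := by
  intro x hx y hy hxy
  apply h x hx y hy
  rw [PiNat.res_eq_res] at hxy ⊢
  intro i hi
  exact hxy (lt_of_lt_of_le hi hnm)

theorem exists_sep (E : Finset D) : ∃ n, Sep E n := by
  classical
  have h : ∀ p : D × D, ∃ n, PiNat.res p.1.1 n = PiNat.res p.2.1 n → p.1 = p.2 := by
    intro p
    by_cases hp : p.1 = p.2
    · exact ⟨0, fun _ => hp⟩
    · have : p.1.1 ≠ p.2.1 := fun h => hp (Subtype.ext h)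
      obtain ⟨i, hi⟩ := Function.ne_iff.1 this
      refine ⟨i + 1, fun h => absurd ?_ hi⟩
      rw [PiNat.res_eq_res] at h
      exact h (Nat.lt_succ_self i)
  choose n hn using h
  refine ⟨(E ×ˢ E).sup n, ?_⟩
  intro x hx y hy hxy
  apply hn (x, y)
  have h1 : n (x, y) ≤ (E ×ˢ E).sup n := Finset.le_sup (Finset.mk_mem_product hx hy)
  rw [PiNat.res_eq_res] at hxy ⊢
  intro i hi
  exact hxy (lt_of_lt_of_le hi h1)

theorem sg_sep (w : X D A) {E : Finset D} (hE : w.support ⊆ E) {n : ℕ} (hn : Sep E n) {x : D}
    (hx : x ∈ E) : sg (PiNat.res x.1 n) w = w x := by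
  classical
  rw [sg_apply' _ _ hE, Finset.sum_eq_single x]
  · rw [PiNat.res_length, if_pos rfl]
  · intro y hy hyx
    rw [PiNat.res_length, if_neg]
    intro h
    exact hyx (hn y hy x hx h)
  · intro h
    exact absurd hx h

theorem sg_injective {v w : X D A} (h : ∀ s, sg s v = sg s w) : v = w := by
  classical
  obtain ⟨n, hn⟩ := exists_sep (v.support ∪ w.support)
  ext x
  by_cases hx : x ∈ v.support ∪ w.support
  · rw [← sg_sep v Finset.subset_union_left hn hx, ← sg_sep w Finset.subset_union_right hn hx, h]
  · simp only [Finset.mem_union, Finsupp.mem_support_iff, not_or, not_not] at hx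
    rw [hx.1, hx.2]

/-- reconstruction of a measure from its node values -/
theorem exists_measure (τ : List Bool → B) (hτ : Additive' τ) (E : Finset D)
    (h : ∀ s, τ s ≠ 0 → ∃ x ∈ E, PiNat.res x.1 s.length = s) : ∃ v : X D B, ∀ s, sg s v = τ s := by
  classical
  obtain ⟨n, hn⟩ := exists_sep E
  -- stability along the branches
  have hstab : ∀ x ∈ E, ∀ m, n ≤ m → τ (PiNat.res x.1 m) = τ (PiNat.res x.1 n) := by
    intro x hx m hm
    induction m, hm using Nat.le_induction with
    | base => rfl
    | succ m hm ih =>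
      rw [← ih, hτ (PiNat.res x.1 m)]
      have key : ∀ b : Bool, b ≠ x.1 m → τ (b :: PiNat.res x.1 m) = 0 := by
        intro b hb
        by_contra hne
        obtain ⟨y, hy, hys⟩ := h _ hne
        simp only [List.length_cons, PiNat.res_length, PiNat.res_succ, List.cons.injEq] at hys
        have : y = x := (hn.mono hm) y hy x hx hys.2
        rw [this] at hys
        exact hb hys.1.symm
      rw [PiNat.res_succ]
      cases hb : x.1 m
      · rw [key true (by rw [hb]; decide), add_zero]
      · rw [key false (by rw [hb]; decide), zero_add]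
  let v : X D B := ∑ x ∈ E, Finsupp.single x (τ (PiNat.res x.1 n))
  have hv : ∀ x ∈ E, v x = τ (PiNat.res x.1 n) := by
    intro x hx
    simp only [v, Finsupp.finset_sum_apply, Finsupp.single_apply]
    rw [Finset.sum_eq_single x]
    · simp
    · intro y _ hyx
      simp [hyx]
    · intro hx'
      exact absurd hx hx'
  have hvs : v.support ⊆ E := by
    intro x hx
    by_contra hxE
    rw [Finsupp.mem_support_iff] at hx
    apply hx
    simp only [v, Finsupp.finset_sum_apply, Finsupp.single_apply]
    apply Finset.sum_eq_zero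
    intro y hy
    rw [if_neg]
    rintro rfl
    exact hxE hy
  have hdeep : ∀ s : List Bool, n ≤ s.length → sg s v = τ s := by
    intro s hs
    by_cases hx : ∃ x ∈ E, PiNat.res x.1 s.length = s
    · obtain ⟨x, hx, hxs⟩ := hx
      have h1 := sg_sep v hvs (hn.mono hs) hx
      rw [hxs] at h1
      rw [h1, hv x hx, ← hstab x hx _ hs, hxs]
    · have h1 : τ s = 0 := by
        by_contra hne
        exact hx (h s hne)
      have h2 : sg s v = 0 := by
        by_contra hne
        obtain ⟨x, hx', hxs⟩ := sg_ne_zero v s hne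
        exact hx ⟨x, hvs hx', hxs⟩
      rw [h1, h2]
  refine ⟨v, ?_⟩
  have hall : ∀ k, ∀ s : List Bool, n ≤ s.length + k → sg s v = τ s := by
    intro k
    induction k with
    | zero => exact fun s hs => hdeep s (by simpa using hs)
    | succ k ih =>
      intro s hs
      have h1 := sg_additive v s
      simp only at h1
      rw [h1, hτ s, ih (false :: s) (by simp only [List.length_cons]; omega),
        ih (true :: s) (by simp only [List.length_cons]; omega)]
  exact fun s => hall n s (by omega)

/-- the transfer on measures -/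
theorem Mat.exists_map {NA : A → ℕ} {NB : B → ℕ} (M : Mat NA NB)
    (h0 : Rel NA NB (0 : A) (0 : B)) (w : X D A) :
    ∃ v : X D B, ∀ s, sg s v = M.tr (fun s => sg s w) s := by
  apply exists_measure _ (M.tr_additive _) w.support
  intro s hs
  apply sg_ne_zero w s
  intro h
  exact hs ((M.rel h0 (sg_additive w) s).1.1 h)

noncomputable def Mat.map {NA : A → ℕ} {NB : B → ℕ} (M : Mat NA NB)
    (h0 : Rel NA NB (0 : A) (0 : B)) (w : X D A) : X D B :=
  (M.exists_map h0 w).choose

theorem Mat.sg_map {NA : A → ℕ} {NB : B → ℕ} (M : Mat NA NB)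
    (h0 : Rel NA NB (0 : A) (0 : B)) (w : X D A) (s : List Bool) :
    sg s (M.map h0 w) = M.tr (fun s => sg s w) s :=
  (M.exists_map h0 w).choose_spec s

theorem Mat.inv_map {NA : A → ℕ} {NB : B → ℕ} (M : Mat NA NB)
    (h0 : Rel NA NB (0 : A) (0 : B)) (w : X D A) :
    M.inv.map h0.symm (M.map h0 w) = w := by
  apply sg_injective
  intro s
  rw [M.inv.sg_map]
  have : (fun s => sg s (M.map h0 w)) = M.tr (fun s => sg s w) := by
    funext s
    exact M.sg_map h0 w s
  rw [this]
  exact M.inv_tr (sg_additive w) s

theorem Mat.map_inv {NA : A → ℕ} {NB : B → ℕ} (M : Mat NA NB)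
    (h0 : Rel NA NB (0 : A) (0 : B)) (v : X D B) :
    M.map h0 (M.inv.map h0.symm v) = v := by
  apply sg_injective
  intro s
  rw [M.sg_map]
  have : (fun s => sg s (M.inv.map h0.symm v)) = M.inv.tr (fun s => sg s v) := by
    funext s
    exact M.inv.sg_map h0.symm v s
  rw [this]
  exact M.tr_inv (sg_additive v) s

end sg

end H38Q
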