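import Pool.Agent.H38R3.QMA

/-! Weighted seminorms on the group of measures. -/

namespace H38Q

open Function Set Filter Topology
open scoped NNReal ENNReal

/-- admissible weights: finite total weight along each branch -/
structure GoodW (D : Set (ℕ → Bool)) (C : List Bool → ℕ → ℝ≥0∞) : Prop where
  zero : ∀ t, C t 0 = 0
  mono : ∀ t, Monotone (C t)
  sum : ∀ x ∈ D, ∀ k, ∑' n, C (PiNat.res x n) k ≠ ∞

variable {D : Set (ℕ → Bool)} {A B : Type} [AddCommGroup A] [AddCommGroup B]

/-- the weighted seminorm -/
noncomputable def nu (N : A → ℕ) (C : List Bool → ℕ → ℝ≥0∞) (w : X D A) : ℝ≥0∞ :=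
  ∑' t, C t (N (sg t w))

theorem res_injective (x : ℕ → Bool) : Injective (fun n => PiNat.res x n) := by
  intro n k h
  have := congrArg List.length h
  simpa [PiNat.res_length] using this

theorem branch_tsum (x : ℕ → Bool) (f : List Bool → ℝ≥0∞) :
    ∑' t : List Bool, (if PiNat.res x t.length = t then f t else 0) = ∑' n, f (PiNat.res x n) := by
  rw [← (res_injective x).tsum_eq]
  · apply tsum_congr
    intro n
    rw [PiNat.res_length, if_pos rfl]
  · intro t ht
    rw [Function.mem_support] at ht
    by_cases h : PiNat.res x t.length = t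
    · exact ⟨t.length, h⟩
    · rw [if_neg h] at ht
      exact absurd rfl ht

section nu

variable {N : A → ℕ} (hN : IsUNorm N) {C : List Bool → ℕ → ℝ≥0∞} (hC : GoodW D C)

include hN hC

theorem nu_zero : nu (D := D) N C 0 = 0 := by
  rw [nu, ENNReal.tsum_eq_zero]
  intro t
  rw [map_zero, (hN.zero_iff 0).2 rfl, hC.zero]

theorem nu_neg (w : X D A) : nu N C (-w) = nu N C w := by
  apply tsum_congr
  intro t
  rw [map_neg, hN.neg_eq]

theorem nu_add (v w : X D A) : nu N C (v + w) ≤ nu N C v + nu N C w := by
  rw [nu, nu, nu, ← ENNReal.tsum_add]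
  apply ENNReal.tsum_le_tsum
  intro t
  rw [map_add]
  have h1 := hN.add_le (sg t v) (sg t w)
  rcases le_total (N (sg t v)) (N (sg t w)) with h | h
  · rw [max_eq_right h] at h1
    exact (hC.mono t h1).trans le_add_self
  · rw [max_eq_left h] at h1
    exact (hC.mono t h1).trans le_self_add

theorem nu_ne_top (w : X D A) : nu N C w ≠ ∞ := by
  classical
  obtain ⟨K, hK⟩ := exists_bound hN w
  have h1 : nu N C w ≤ ∑' t : List Bool, ∑ x ∈ w.support,
      (if PiNat.res x.1 t.length = t then C t K else 0) := by
    apply ENNReal.tsum_le_tsum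
    intro t
    by_cases h : sg t w = 0
    · rw [h, (hN.zero_iff 0).2 rfl, hC.zero]
      exact zero_le
    · obtain ⟨x, hx, hxt⟩ := sg_ne_zero w t h
      have h2 : C t (N (sg t w)) ≤ (if PiNat.res x.1 t.length = t then C t K else 0) := by
        rw [if_pos hxt]
        exact hC.mono t (hK t)
      refine h2.trans ?_
      exact Finset.single_le_sum (f := fun x : D => if PiNat.res x.1 t.length = t then C t K else 0)
        (fun _ _ => zero_le) hx
  rw [Summable.tsum_finsetSum (fun _ _ => ENNReal.summable)] at h1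
  refine ne_top_of_le_ne_top ?_ h1
  rw [ENNReal.sum_ne_top]
  intro x _
  rw [branch_tsum x.1 (fun t => C t K)]
  exact hC.sum x.1 x.2 K

theorem nu_isSN : IsSN (fun w : X D A => (nu N C w).toReal) where
  zero := by rw [nu_zero hN hC, ENNReal.toReal_zero]
  neg := fun w => by rw [nu_neg hN hC]
  add := fun v w => by
    rw [← ENNReal.toReal_add (nu_ne_top hN hC v) (nu_ne_top hN hC w)]
    exact ENNReal.toReal_mono (ENNReal.add_ne_top.2 ⟨nu_ne_top hN hC v, nu_ne_top hN hC w⟩)
      (nu_add hN hC v w)
  nonneg := fun _ => ENNReal.toReal_nonneg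

/-- small tails -/
theorem exists_tail (w : X D A) {ε : ℝ≥0∞} (hε : 0 < ε) :
    ∃ n : ℕ, ∑' t : List Bool, (if n ≤ t.length then C t (N (sg t w)) else 0) < ε := by
  classical
  have h1 := ENNReal.tendsto_tsum_compl_atTop_zero (nu_ne_top hN hC w)
  have h2 := (h1.eventually (gt_mem_nhds hε)).exists
  obtain ⟨s, hs⟩ := h2
  refine ⟨s.sup List.length + 1, lt_of_le_of_lt ?_ hs⟩
  have h3 : ∑' b : {x // x ∉ s}, C b.1 (N (sg b.1 w)) =
      ∑' t, ({x | x ∉ s} : Set (List Bool)).indicator (fun t => C t (N (sg t w))) t :=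
    tsum_subtype ({x | x ∉ s} : Set (List Bool)) (fun t => C t (N (sg t w)))
  rw [h3]
  apply ENNReal.tsum_le_tsum
  intro t
  by_cases h : s.sup List.length + 1 ≤ t.length
  · rw [if_pos h, Set.indicator_of_mem]
    intro hts
    have := Finset.le_sup (f := List.length) hts
    omega
  · rw [if_neg h]
    exact zero_le

theorem nu_sep [Countable A] : Sep' (fun w : X D A => (nu N C w).toReal) := by
  classical
  intro ε hε
  have hε' : (0 : ℝ≥0∞) < ENNReal.ofReal (ε / 2) := ENNReal.ofReal_pos.2 (by linarith)
  choose n hn using fun w : X D A => exists_tail hN hC w hε'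
  let L : ℕ → Finset (List Bool) := fun n => (List.finite_length_lt Bool n).toFinset
  obtain ⟨e, he⟩ := exists_injective_nat (ℕ × Finset (List Bool × A))
  refine ⟨fun w => e (n w, (L (n w)).image (fun t => (t, sg t w))), ?_⟩
  intro v w hvw
  have h1 := he hvw
  simp only [Prod.mk.injEq] at h1
  obtain ⟨h2, h3⟩ := h1
  have h4 : ∀ t : List Bool, t.length < n v → sg t v = sg t w := by
    intro t ht
    have h5 : (t, sg t v) ∈ (L (n v)).image (fun t => (t, sg t v)) :=
      Finset.mem_image.2 ⟨t, by simpa [L] using ht, rfl⟩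
    rw [h3, Finset.mem_image] at h5
    obtain ⟨s, _, hs⟩ := h5
    simp only [Prod.mk.injEq] at hs
    rw [← hs.2, hs.1]
  have h5 : nu N C (v - w) ≤ ∑' t : List Bool, (if n v ≤ t.length then C t (N (sg t v)) else 0) +
      ∑' t : List Bool, (if n w ≤ t.length then C t (N (sg t w)) else 0) := by
    rw [← ENNReal.tsum_add]
    apply ENNReal.tsum_le_tsum
    intro t
    rw [← h2]
    by_cases ht : n v ≤ t.length
    · rw [if_pos ht, if_pos ht, map_sub]
      have h6 := hN.sub_le (sg t v) (sg t w)
      rcases le_total (N (sg t v)) (N (sg t w)) with h | h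
      · rw [max_eq_right h] at h6
        exact (hC.mono t h6).trans le_add_self
      · rw [max_eq_left h] at h6
        exact (hC.mono t h6).trans le_self_add
    · rw [map_sub, h4 t (by omega), sub_self, (hN.zero_iff 0).2 rfl, hC.zero]
      exact zero_le
  have h6 : nu N C (v - w) < ENNReal.ofReal ε := by
    refine lt_of_le_of_lt h5 ?_
    have h7 := ENNReal.add_lt_add (hn v) (hn w)
    rwa [← ENNReal.ofReal_add (by linarith) (by linarith), add_halves] at h7
  have h7 := (ENNReal.toReal_lt_toReal (nu_ne_top hN hC _) ENNReal.ofReal_ne_top).2 h6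
  rwa [ENNReal.toReal_ofReal hε.le] at h7

/-- balls of weighted seminorms are neighbourhoods in the finest omega bounded group topology -/
theorem nu_ball_mem [Countable A] {t : TopologicalSpace (X D A)}
    (ht : IsLeast (OmegaTops (X D A)) t) {ε : ℝ} (hε : 0 < ε) :
    {v | (nu N C v).toReal < ε} ∈ @nhds _ t 0 := by
  obtain ⟨s, hs, hsε⟩ := exists_topology (nu_isSN hN hC) (nu_sep hN hC)
  exact nhds_mono (ht.2 hs) (hsε ε hε)

end nu

theorem Mat.tr_congr_len {NA : A → ℕ} {NB : B → ℕ} (M : Mat NA NB) {σ σ' : List Bool → A} :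
    ∀ t : List Bool, (∀ s : List Bool, s.length ≤ t.length → σ s = σ' s) → M.tr σ t = M.tr σ' t
  | [], h => by
      simp only [Mat.tr]
      rw [h [] le_rfl]
  | false :: t, h => by
      simp only [Mat.tr]
      rw [h t (by simp), h (false :: t) le_rfl,
        M.tr_congr_len t (fun s hs => h s (hs.trans (by simp)))]
  | true :: t, h => by
      simp only [Mat.tr]
      rw [h t (by simp), h (false :: t) (by simp),
        M.tr_congr_len t (fun s hs => h s (hs.trans (by simp)))]

theorem shift_tsum (a : ℕ → ℝ≥0∞) (n0 : ℕ) :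
    ∑' n, (if n0 < n then a n else 0) ≤ ∑' n, a (n + n0) := by
  have h1 : ∑' n, (if n0 ≤ n then a n else 0) = ∑' n, a (n + n0) := by
    rw [← (add_left_injective n0).tsum_eq (f := fun n => if n0 ≤ n then a n else 0)]
    · apply tsum_congr
      intro n
      rw [if_pos (by omega)]
    · intro n hn
      rw [Function.mem_support] at hn
      by_cases h : n0 ≤ n
      · exact ⟨n - n0, by simp only; omega⟩
      · rw [if_neg h] at hn
        exact absurd rfl hn
  rw [← h1]
  apply ENNReal.tsum_le_tsum
  intro n
  by_cases h : n0 < n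
  · rw [if_pos h, if_pos h.le]
  · rw [if_neg h]
    exact zero_le

/-- the local continuity of the transfer with respect to weighted seminorms -/
theorem Mat.continuityW {NA : A → ℕ} {NB : B → ℕ} (hA : IsUNorm NA) (hB : IsUNorm NB)
    (M : Mat NA NB) (h0 : Rel NA NB (0 : A) (0 : B)) (w : X D A) {C : List Bool → ℕ → ℝ≥0∞}
    (hC : GoodW D C) :
    ∃ C', GoodW D C' ∧ ∀ v, (nu NA C' v).toReal < 1 / 2 →
      (nu NB C (-(M.map h0 w) + M.map h0 (w + v))).toReal < 1 := by
  classical
  obtain ⟨K, hK⟩ := exists_bound hA w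
  -- the tail
  have htail : ∃ n0 : ℕ, ∑ x ∈ w.support, ∑' n, C (PiNat.res x.1 (n + n0)) (K + 1) < 1 / 2 := by
    have h1 : Tendsto (fun i => ∑ x ∈ w.support, ∑' n, C (PiNat.res x.1 (n + i)) (K + 1)) atTop
        (𝓝 (∑ x ∈ w.support, 0)) := by
      apply tendsto_finsetSum
      intro x _
      exact ENNReal.tendsto_sum_nat_add (fun n => C (PiNat.res x.1 n) (K + 1)) (hC.sum x.1 x.2 _)
    rw [Finset.sum_const_zero] at h1
    exact (h1.eventually (gt_mem_nhds (by norm_num))).exists
  obtain ⟨n0, hn0⟩ := htail
  let C' : List Bool → ℕ → ℝ≥0∞ := fun t k =>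
    if k = 0 then 0 else C t (k + 1) + (if t.length ≤ n0 then 1 else 0)
  have hC' : GoodW D C' := by
    refine ⟨fun t => by simp [C'], ?_, ?_⟩
    · intro t k l hkl
      simp only [C']
      by_cases hk : k = 0
      · rw [if_pos hk]
        exact zero_le
      · rw [if_neg hk, if_neg (show ¬ l = 0 by omega)]
        exact add_le_add (hC.mono t (by omega)) le_rfl
    · intro x hx k
      have h1 : ∑' n, C' (PiNat.res x n) k ≤ ∑' n, (C (PiNat.res x n) (k + 1) +
          (if n ∈ Finset.range (n0 + 1) then 1 else 0)) := by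
        apply ENNReal.tsum_le_tsum
        intro n
        simp only [C', PiNat.res_length, Finset.mem_range, Nat.lt_succ_iff]
        by_cases hk : k = 0
        · rw [if_pos hk]
          exact zero_le
        · rw [if_neg hk]
      rw [ENNReal.tsum_add] at h1
      refine ne_top_of_le_ne_top ?_ h1
      rw [ENNReal.add_ne_top]
      refine ⟨hC.sum x hx _, ?_⟩
      rw [tsum_eq_sum (s := Finset.range (n0 + 1)) (fun n hn => if_neg hn)]
      rw [ENNReal.sum_ne_top]
      intro n _
      split_ifs <;> simp
  refine ⟨C', hC', ?_⟩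
  intro v hv
  have hvtop := nu_ne_top hA hC' v
  have hv' : nu NA C' v < 1 / 2 := by
    rw [← ENNReal.toReal_lt_toReal hvtop (by simp)]
    simpa using hv
  -- small nodes are not changed
  have hlow : ∀ t : List Bool, t.length ≤ n0 → sg t v = 0 := by
    intro t ht
    by_contra hne
    have h1 : NA (sg t v) ≠ 0 := fun h => hne ((hA.zero_iff _).1 h)
    have h2 : C' t (NA (sg t v)) ≤ nu NA C' v := ENNReal.le_tsum t
    have h3 : (1 : ℝ≥0∞) ≤ C' t (NA (sg t v)) := by
      simp only [C', if_neg h1, if_pos ht]
      exact le_add_self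
    have h4 : (1 : ℝ≥0∞) < 1 / 2 := (h3.trans h2).trans_lt hv'
    have h5 : (1 / 2 : ℝ≥0∞) ≤ 1 := by
      rw [one_div]
      exact ENNReal.inv_le_one.2 (by norm_num)
    exact absurd h4 (not_lt.2 h5)
  have htr : ∀ t : List Bool, t.length ≤ n0 → M.tr (fun s => sg s w) t =
      M.tr (fun s => sg s (w + v)) t := by
    intro t ht
    apply M.tr_congr_len
    intro s hs
    rw [map_add, hlow s (hs.trans ht), add_zero]
  have hz : ∀ {b : B}, b = 0 → NB b = 0 := fun h => (hB.zero_iff _).2 h
  have hpt : ∀ t : List Bool, C t (NB (sg t (-(M.map h0 w) + M.map h0 (w + v)))) ≤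
      C' t (NA (sg t v)) + ∑ x ∈ w.support, (if PiNat.res x.1 t.length = t then
        (if n0 < t.length then C t (K + 1) else 0) else 0) := by
    intro t
    rw [map_add, map_neg, M.sg_map, M.sg_map]
    by_cases ht : t.length ≤ n0
    · rw [htr t ht, neg_add_cancel, hz rfl, hC.zero]
      exact zero_le
    · have hr := M.rel h0 (sg_additive w) t
      have hr' := M.rel h0 (sg_additive (w + v)) t
      have hC'v : NA (sg t v) ≠ 0 → C t (NA (sg t v) + 1) ≤ C' t (NA (sg t v)) := by
        intro hne
        simp only [C', if_neg hne]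
        exact le_self_add
      by_cases hs0 : sg t w = 0
      · have h1 := hr.1.1 hs0
        rw [h1, neg_zero, zero_add]
        by_cases h2 : sg t (w + v) = 0
        · rw [hz (hr'.1.1 h2), hC.zero]
          exact zero_le
        · have h3 := hr'.2.1
          have h4 : sg t (w + v) = sg t v := by rw [map_add, hs0, zero_add]
          have h5 : NA (sg t (w + v)) ≠ 0 := fun h => h2 ((hA.zero_iff _).1 h)
          rw [h4] at h3 h5
          exact (hC.mono t h3).trans ((hC'v h5).trans le_self_add)
      · obtain ⟨x, hx, hxt⟩ := sg_ne_zero w t hs0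
        have h1 := hK t
        have h2 := hr.2.1
        have h3 := hr'.2.1
        have h4 := hA.add_le (sg t w) (sg t v)
        rw [← map_add] at h4
        have h6 := hB.add_le (-(M.tr (fun s => sg s w) t)) (M.tr (fun s => sg s (w + v)) t)
        rw [hB.neg_eq] at h6
        have h7 : C t (K + 1) ≤ ∑ x ∈ w.support, (if PiNat.res x.1 t.length = t then
            (if n0 < t.length then C t (K + 1) else 0) else 0) := by
          have h8 : C t (K + 1) = (if PiNat.res x.1 t.length = t then
            (if n0 < t.length then C t (K + 1) else 0) else 0) := by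
            rw [if_pos hxt, if_pos (by omega)]
          conv_lhs => rw [h8]
          exact Finset.single_le_sum (f := fun x : D => if PiNat.res x.1 t.length = t then
            (if n0 < t.length then C t (K + 1) else 0) else 0) (fun _ _ => zero_le) hx
        by_cases h9 : NA (sg t v) ≤ K
        · have h10 : NB (-(M.tr (fun s => sg s w) t) + M.tr (fun s => sg s (w + v)) t) ≤ K + 1 := by
            omega
          exact (hC.mono t h10).trans (h7.trans le_add_self)
        · have h10 : NB (-(M.tr (fun s => sg s w) t) + M.tr (fun s => sg s (w + v)) t) ≤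
              NA (sg t v) + 1 := by
            omega
          exact (hC.mono t h10).trans ((hC'v (by omega)).trans le_self_add)
  have hsum : nu NB C (-(M.map h0 w) + M.map h0 (w + v)) < 1 := by
    have h1 : nu NB C (-(M.map h0 w) + M.map h0 (w + v)) ≤ nu NA C' v +
        ∑ x ∈ w.support, ∑' n, C (PiNat.res x.1 (n + n0)) (K + 1) := by
      refine (ENNReal.tsum_le_tsum hpt).trans ?_
      rw [ENNReal.tsum_add]
      apply add_le_add le_rfl
      rw [Summable.tsum_finsetSum (fun _ _ => ENNReal.summable)]
      apply Finset.sum_le_sum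
      intro x _
      rw [branch_tsum x.1 (fun t => if n0 < t.length then C t (K + 1) else 0)]
      simp only [PiNat.res_length]
      exact shift_tsum (fun n => C (PiNat.res x.1 n) (K + 1)) n0
    refine lt_of_le_of_lt h1 ?_
    have h2 := ENNReal.add_lt_add hv' hn0
    rwa [ENNReal.add_halves] at h2
  have h3 := (ENNReal.toReal_lt_toReal (nu_ne_top hB hC _) ENNReal.one_ne_top).2 hsum
  rwa [ENNReal.toReal_one] at h3

end H38Q
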