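import Mathlib

namespace Pool.H38R3.TransPath

open Cardinal Ordinal Set

universe u

/-- A graph `G` is a *path* in the transfinite sense: its vertex set has a well-ordering `r`
such that, for every vertex `v`, the neighbours of `v` that precede `v` are cofinal in the set of
all predecessors of `v`. -/
def IsTransPath {W : Type u} (G : SimpleGraph W) : Prop :=
  ∃ r : W → W → Prop, IsWellOrder W r ∧
    ∀ v u : W, r u v → ∃ w : W, (w = u ∨ r u w) ∧ r w v ∧ G.Adj w v

/-- The graph formed by the edges of colour `i` of an edge colouring `c` of the complete graph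
on `V` (the values of `c` on the diagonal play no role). -/
def colourGraph {V : Type u} (c : Sym2 V → ℕ) (i : ℕ) : SimpleGraph V where
  Adj x y := x ≠ y ∧ c s(x, y) = i
  symm := ⟨fun x y h => ⟨h.1.symm, by rw [Sym2.eq_swap]; exact h.2⟩⟩
  loopless := ⟨fun x h => h.1 rfl⟩

/-- The class `ℙ` of infinite cardinals `κ` such that every colouring of the edges of the
complete graph on `κ` vertices with countably many colours admits a monochromatic
(transfinite) path of size `κ`. -/
def PathCardinals : Set Cardinal.{u} :=
  {κ | ℵ₀ ≤ κ ∧ ∀ V : Type u, #V = κ → ∀ c : Sym2 V → ℕ,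
    ∃ (i : ℕ) (P : (colourGraph c i).Subgraph), IsTransPath P.coe ∧ #P.verts = κ}

end Pool.H38R3.TransPath
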