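import Mathlib
import Pool.Agent.H38R3.TPDefs

namespace Pool.H38R3.TransPath

open Cardinal Ordinal Set

universe u

/-- Canonization of a countable colouring on a rapidly growing sequence of blocks. -/
theorem canonization {I : Type u} [LinearOrder I] (B : I → Type u)
    (C : (Σ i, B i) → (Σ i, B i) → ℕ)
    (hreg : ∀ i, (#(B i)).IsRegular)
    (h1 : ∀ i, (2 : Cardinal.{u}) ^ (ℵ₀ * Cardinal.sum (fun j : Iio i => #(B j.1))) < #(B i))
    (h2 : ∀ i, (2 : Cardinal.{u}) ^ (ℵ₀ * #I) < #(B i)) :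
    ∃ (A : ∀ i, Set (B i)) (g : I → I → ℕ), (∀ i, #(B i) ≤ #(A i)) ∧
      ∀ j i, j < i → ∀ x ∈ A j, ∀ y ∈ A i, C ⟨j, x⟩ ⟨i, y⟩ = g j i := by
  classical
  have hpow : ∀ x : Cardinal.{u}, ℵ₀ ^ x ≤ (2 : Cardinal.{u}) ^ (ℵ₀ * x) := by
    intro x
    rw [Cardinal.power_mul]
    exact Cardinal.power_le_power_right (Cardinal.cantor ℵ₀).le
  let T : ∀ i, B i → ((Σ j : Iio i, B j.1) → ℕ) := fun i y x => C ⟨x.1.1, x.2⟩ ⟨i, y⟩
  have hT : ∀ i, ∃ f : (Σ j : Iio i, B j.1) → ℕ, #(B i) ≤ #(T i ⁻¹' {f}) := by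
    intro i
    refine Cardinal.infinite_pigeonhole_card (T i) #(B i) le_rfl (hreg i).aleph0_le ?_
    rw [(hreg i).cof_ord]
    refine lt_of_le_of_lt ?_ (h1 i)
    have : #((Σ j : Iio i, B j.1) → ℕ) = ℵ₀ ^ (Cardinal.sum (fun j : Iio i => #(B j.1))) := by
      simp
    rw [this]
    exact hpow _
  choose f hf using hT
  let U : ∀ j, (T j ⁻¹' {f j}) → (Ioi j → ℕ) := fun j x i => f i.1 ⟨⟨j, i.2⟩, x.1⟩
  have hU : ∀ j, ∃ g : Ioi j → ℕ, #(B j) ≤ #(U j ⁻¹' {g}) := by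
    intro j
    refine Cardinal.infinite_pigeonhole_card (U j) #(B j) (hf j) (hreg j).aleph0_le ?_
    rw [(hreg j).cof_ord]
    refine lt_of_le_of_lt ?_ (h2 j)
    have : #(Ioi j → ℕ) = ℵ₀ ^ #(Ioi j) := by simp
    rw [this]
    refine (hpow _).trans ?_
    refine Cardinal.power_le_power_left two_ne_zero ?_
    gcongr
    exact Cardinal.mk_set_le _
  choose g hg using hU
  refine ⟨fun j => Subtype.val '' (U j ⁻¹' {g j}), fun j i => if h : j < i then g j ⟨i, h⟩ else 0,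
    ?_, ?_⟩
  · intro i
    rw [Cardinal.mk_image_eq Subtype.val_injective]
    exact hg i
  · rintro j i hji x ⟨x', hx', rfl⟩ y ⟨y', hy', rfl⟩
    simp only [dif_pos hji]
    have e1 : T i y'.1 = f i := y'.2
    have e2 : U j x' = g j := hx'
    have e3 := congrFun e1 ⟨⟨j, hji⟩, x'.1⟩
    have e4 := congrFun e2 ⟨i, hji⟩
    exact e3.trans e4

/-- A rapidly growing sequence of regular cardinals below a singular strong limit cardinal. -/
theorem exists_lam {κ : Cardinal.{u}} (hκ : κ.IsStrongLimit) (hsing : κ.ord.cof < κ) :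
    ∃ (I : Type u) (_ : LinearOrder I) (_ : WellFoundedLT I) (lam : I → Cardinal.{u}),
      #I = κ.ord.cof ∧ Order.cof I = κ.ord.cof ∧
      (∀ i, (lam i).IsRegular) ∧ (∀ i, lam i < κ) ∧ (∀ i j, i ≤ j → lam i ≤ lam j) ∧
      (∀ ρ < κ, ∃ i, ρ < lam i) ∧
      (∀ i, (2 : Cardinal.{u}) ^ (ℵ₀ * Cardinal.sum (fun j : Iio i => lam j.1)) < lam i) ∧
      (∀ i, (2 : Cardinal.{u}) ^ (ℵ₀ * #I) < lam i) := by
  classical
  have hinf : ℵ₀ ≤ κ := hκ.aleph0_le
  have hinf' : ℵ₀ < κ := by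
    refine lt_of_le_of_lt ?_ hsing
    rw [Ordinal.aleph0_le_cof_iff, Ordinal.one_lt_cof_iff]
    exact Cardinal.isSuccLimit_ord hinf
  obtain ⟨s, hs, hs'⟩ := Ordinal.exists_ord_cof_eq κ.ord.ToType
  rw [Ordinal.cof_toType] at hs'
  have hcard : #s = κ.ord.cof := by
    rw [← Cardinal.card_ord κ.ord.cof, ← hs']
    exact (Ordinal.card_type _).symm
  have hwf : WellFounded ((· < ·) : s → s → Prop) := wellFounded_lt
  let F : (ξ : s) → ((η : s) → η < ξ → Cardinal.{u}) → Cardinal.{u} := fun ξ rec =>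
    Order.succ (max ((2 : Cardinal.{u}) ^ (ℵ₀ * #s))
      (max #(Set.Iio ξ.1) ((2 : Cardinal.{u}) ^ (ℵ₀ * Cardinal.sum (fun j : Iio ξ => rec j.1 j.2)))))
  let lam : s → Cardinal.{u} := hwf.fix F
  have hlam : ∀ ξ, lam ξ = Order.succ (max ((2 : Cardinal.{u}) ^ (ℵ₀ * #s))
      (max #(Set.Iio ξ.1) ((2 : Cardinal.{u}) ^ (ℵ₀ * Cardinal.sum (fun j : Iio ξ => lam j.1))))) :=
    fun ξ => hwf.fix_eq F ξ
  have hA : ∀ ξ, (2 : Cardinal.{u}) ^ (ℵ₀ * #s) < lam ξ := by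
    intro ξ
    rw [hlam, Order.lt_succ_iff]
    exact le_max_left _ _
  have hB : ∀ ξ : s, #(Set.Iio ξ.1) < lam ξ := by
    intro ξ
    rw [hlam, Order.lt_succ_iff]
    exact (le_max_left _ _).trans (le_max_right _ _)
  have hC : ∀ ξ, (2 : Cardinal.{u}) ^ (ℵ₀ * Cardinal.sum (fun j : Iio ξ => lam j.1)) < lam ξ := by
    intro ξ
    conv_rhs => rw [hlam]
    rw [Order.lt_succ_iff]
    exact (le_max_right _ _).trans (le_max_right _ _)
  have hsmall : ∀ ξ : s, #(Iio ξ) < κ.ord.cof := by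
    intro ξ
    rw [← hcard]
    exact Cardinal.mk_Iio_lt ξ (by rw [hcard, hs'])
  have hlt : ∀ ξ, lam ξ < κ := by
    intro ξ
    induction ξ using hwf.induction with
    | _ ξ ih =>
      rw [hlam]
      refine hκ.isSuccLimit.succ_lt (max_lt ?_ (max_lt ?_ ?_))
      · refine hκ.isStrongPrelimit (Cardinal.mul_lt_of_lt hinf hinf' ?_)
        rw [hcard]
        exact hsing
      · exact Cardinal.mk_Iio_toType_ord_lt ξ.1
      · refine hκ.isStrongPrelimit (Cardinal.mul_lt_of_lt hinf hinf' ?_)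
        refine lt_of_le_of_lt (Cardinal.sum_le_mk_mul_iSup _) ?_
        refine Cardinal.mul_lt_of_lt hinf ((hsmall ξ).trans hsing) ?_
        exact Cardinal.iSup_lt_of_lt_cof_ord (hsmall ξ) (fun j => ih j.1 j.2)
  have hmono' : ∀ i j : s, i < j → lam i < lam j := by
    intro i j hij
    have h1 : lam i ≤ Cardinal.sum (fun j' : Iio j => lam j'.1) :=
      Cardinal.le_sum (fun j' : Iio j => lam j'.1) ⟨i, hij⟩
    have h2 : Cardinal.sum (fun j' : Iio j => lam j'.1) ≤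
        ℵ₀ * Cardinal.sum (fun j' : Iio j => lam j'.1) :=
      Cardinal.le_mul_left Cardinal.aleph0_ne_zero
    exact lt_of_le_of_lt (h1.trans (h2.trans (Cardinal.cantor _).le)) (hC j)
  refine ⟨s, inferInstance, inferInstance, lam, hcard, ?_, ?_, hlt, ?_, ?_, hC, hA⟩
  · rw [Order.cof_eq_of_isCofinal hs, Ordinal.cof_toType]
  · intro i
    rw [hlam]
    refine Cardinal.isRegular_succ ?_
    refine le_trans ?_ (le_max_left _ _)
    refine le_trans ?_ (Cardinal.cantor _).le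
    refine Cardinal.aleph0_le_mul_iff.mpr ?_
    refine ⟨Cardinal.aleph0_ne_zero, ?_, Or.inl le_rfl⟩
    rw [hcard]
    intro h
    rw [Ordinal.cof_eq_zero, Cardinal.ord_eq_zero] at h
    rw [h] at hinf
    exact absurd hinf (not_le.mpr Cardinal.aleph0_pos)
  · intro i j hij
    rcases lt_or_eq_of_le hij with h | h
    · exact (hmono' i j h).le
    · rw [h]
  · intro ρ hρ
    -- an element `x` with at least `ρ` predecessors
    have h1 : ρ.ord < Ordinal.type ((· < ·) : κ.ord.ToType → κ.ord.ToType → Prop) := by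
      rw [Ordinal.type_toType]
      exact Cardinal.ord_lt_ord.mpr hρ
    obtain ⟨x, hx⟩ : ∃ x, Ordinal.typein ((· < ·) : κ.ord.ToType → κ.ord.ToType → Prop) x = ρ.ord :=
      Ordinal.typein_surj _ h1
    obtain ⟨i, hi, hxi⟩ := hs x
    refine ⟨⟨i, hi⟩, lt_of_le_of_lt ?_ (hB ⟨i, hi⟩)⟩
    have h2 : ρ = #(Set.Iio x) := by
      rw [← Cardinal.card_ord ρ, ← hx]
      exact Ordinal.card_typein _
    rw [h2]
    exact Cardinal.mk_le_mk_of_subset (Set.Iio_subset_Iio hxi)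

end Pool.H38R3.TransPath
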