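import Mathlib
import Pool.Agent.H38R3.TPDefs

namespace Pool.H38R3.TransPath

open Cardinal Ordinal Set

universe u

/-- The graph on the index set formed by the pairs of colour `n`. -/
def pairGraph {I : Type u} [LinearOrder I] (g : I → I → ℕ) (n : ℕ) : SimpleGraph I where
  Adj x y := (x < y ∧ g x y = n) ∨ (y < x ∧ g y x = n)
  symm := ⟨fun _ _ h => h.symm⟩
  loopless := ⟨fun _ h => by rcases h with h | h <;> exact lt_irrefl _ h.1⟩

/-- If every subset of size at most `ℵ₁` is bounded, some colour class has a connected component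
whose edges have unbounded least points. -/
theorem exists_component {I : Type u} [LinearOrder I]
    (hb : ∀ T : Set I, #T ≤ ℵ₁ → ∃ b, ∀ t ∈ T, t < b) (g : I → I → ℕ) :
    ∃ n i0, ∀ β, ∃ a b, β ≤ a ∧ a < b ∧ g a b = n ∧ (pairGraph g n).Reachable i0 a := by
  classical
  by_contra hcon
  push Not at hcon
  choose β hβ using hcon
  let Ω := (ℵ₁ : Cardinal.{u}).ord.ToType
  have hΩ : #Ω = ℵ₁ := by simp [Ω]
  have hstep : ∀ (ξ : Ω) (rec : (η : Ω) → η < ξ → I),
      #(Set.range (fun p : Iio ξ × ℕ => β p.2 (rec p.1 p.1.2))) ≤ ℵ₁ := by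
    intro ξ rec
    have h1 : Countable (Iio ξ) := by
      rw [← Cardinal.mk_le_aleph0_iff, ← Order.lt_succ_iff, Cardinal.succ_aleph0]
      exact lt_of_lt_of_eq (Cardinal.mk_Iio_lt ξ (by simp [Ω])) hΩ
    have h2 : (Set.range (fun p : Iio ξ × ℕ => β p.2 (rec p.1 p.1.2))).Countable :=
      Set.countable_range _
    exact h2.le_aleph0.trans (Cardinal.aleph0_le_aleph 1)
  have hwf : WellFounded ((· < ·) : Ω → Ω → Prop) := wellFounded_lt
  let F : (ξ : Ω) → ((η : Ω) → η < ξ → I) → I := fun ξ rec =>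
    Classical.choose (hb _ (hstep ξ rec))
  let x : Ω → I := hwf.fix F
  have hx : ∀ ξ η, η < ξ → ∀ n, β n (x η) < x ξ := by
    intro ξ η hη n
    have h1 : x ξ = F ξ (fun η _ => x η) := hwf.fix_eq F ξ
    rw [h1]
    exact Classical.choose_spec (hb _ (hstep ξ (fun η _ => x η))) _
      ⟨(⟨η, hη⟩, n), rfl⟩
  obtain ⟨δ, hδ⟩ := hb (Set.range x) (Cardinal.mk_range_le.trans hΩ.le)
  have hninj : ¬ Function.Injective (fun ξ : Ω => g (x ξ) δ) := by
    intro hinj
    have : Countable Ω := hinj.countable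
    rw [← Cardinal.mk_le_aleph0_iff, hΩ] at this
    exact absurd Cardinal.aleph0_lt_aleph_one (not_lt.mpr this)
  have hpair : ∃ η ξ : Ω, η < ξ ∧ g (x η) δ = g (x ξ) δ := by
    rw [Function.not_injective_iff] at hninj
    obtain ⟨a, b, h1, h2⟩ := hninj
    rcases lt_or_gt_of_ne h2 with h | h
    · exact ⟨a, b, h, h1⟩
    · exact ⟨b, a, h, h1.symm⟩
  obtain ⟨η, ξ, hηξ, hg⟩ := hpair
  set n := g (x η) δ with hn
  have hη : x η < δ := hδ _ ⟨η, rfl⟩
  have hξ : x ξ < δ := hδ _ ⟨ξ, rfl⟩
  have h1 : (pairGraph g n).Adj (x η) δ := Or.inl ⟨hη, rfl⟩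
  have h2 : (pairGraph g n).Adj δ (x ξ) := Or.inr ⟨hξ, hg.symm⟩
  exact hβ n (x η) (x ξ) δ (hx ξ η hηξ n).le hξ hg.symm (h1.reachable.trans h2.reachable)

/-- Rays that end by running along a given edge. -/
theorem exists_ray {I : Type u} (G : SimpleGraph I) {a s t : I} (h : G.Reachable a s)
    (hst : G.Adj s t) : ∃ R : ℕ → I, R 0 = a ∧ (∀ k, G.Adj (R k) (R (k + 1))) ∧
      (∀ k, ∃ m, k ≤ m ∧ R m = s) ∧ (∀ k, ∃ m, k ≤ m ∧ R m = t) := by
  obtain ⟨p⟩ := h
  induction p with
  | nil =>
    rename_i a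
    refine ⟨fun k => if k % 2 = 0 then a else t, by simp, ?_, ?_, ?_⟩
    · intro k
      rcases Nat.mod_two_eq_zero_or_one k with h | h
      · have h' : (k + 1) % 2 = 1 := by omega
        simp only [h, h']
        simpa using hst
      · have h' : (k + 1) % 2 = 0 := by omega
        simp only [h, h']
        simpa using hst.symm
    · intro k
      refine ⟨2 * k, by omega, ?_⟩
      simp
    · intro k
      refine ⟨2 * k + 1, by omega, ?_⟩
      have : (2 * k + 1) % 2 = 1 := by omega
      simp [this]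
  | cons hadj p ih =>
    obtain ⟨R, h0, h1, h2, h3⟩ := ih hst
    rename_i a b c
    refine ⟨fun k => if k = 0 then a else R (k - 1), by simp, ?_, ?_, ?_⟩
    · intro k
      rcases Nat.eq_zero_or_pos k with h | h
      · subst h
        simpa [h0] using hadj
      · have : k + 1 - 1 = (k - 1) + 1 := by omega
        simp only [h.ne', if_false, Nat.succ_ne_zero, this]
        exact h1 _
    · intro k
      obtain ⟨m, hm, hR⟩ := h2 k
      exact ⟨m + 1, by omega, by simpa using hR⟩
    · intro k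
      obtain ⟨m, hm, hR⟩ := h3 k
      exact ⟨m + 1, by omega, by simpa using hR⟩

/-- The alternating ray along an edge. -/
def alt {I : Type u} (s t : I) (k : ℕ) : I := if k % 2 = 0 then s else t

theorem alt_zero {I : Type u} (s t : I) : alt s t 0 = s := by simp [alt]

theorem alt_adj {I : Type u} {G : SimpleGraph I} {s t : I} (hst : G.Adj s t) (k : ℕ) :
    G.Adj (alt s t k) (alt s t (k + 1)) := by
  unfold alt
  rcases Nat.mod_two_eq_zero_or_one k with h | h
  · have h' : (k + 1) % 2 = 1 := by omega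
    simp only [h, h']
    simpa using hst
  · have h' : (k + 1) % 2 = 0 := by omega
    simp only [h, h']
    simpa using hst.symm

theorem alt_right {I : Type u} (s t : I) (k : ℕ) : ∃ m, k ≤ m ∧ alt s t m = t := by
  refine ⟨2 * k + 1, by omega, ?_⟩
  have : (2 * k + 1) % 2 = 1 := by omega
  simp [alt, this]

theorem alt_mem {I : Type u} (s t : I) (k : ℕ) : alt s t k = s ∨ alt s t k = t := by
  unfold alt
  split_ifs
  · exact Or.inl rfl
  · exact Or.inr rfl

end Pool.H38R3.TransPath
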