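import Mathlib
import Pool.Agent.H38R3.TPDefs

namespace Pool.H38R3.TransPath

open Cardinal Ordinal Set

universe u

/-- A vertex function that is constant on edges is constant on a transfinite path. -/
theorem IsTransPath.const {W : Type u} {X : Type*} {G : SimpleGraph W} (hG : IsTransPath G)
    (f : W → X) (hf : ∀ x y, G.Adj x y → f x = f y) : ∀ x y, f x = f y := by
  obtain ⟨r, hr, hp⟩ := hG
  have hwf : WellFounded r := hr.wf
  intro x y
  have : Nonempty W := ⟨x⟩
  set v0 := hwf.min Set.univ ⟨x, trivial⟩ with hv0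
  have hmin : ∀ w, ¬ r w v0 := fun w => hwf.not_lt_min Set.univ (mem_univ w)
  have key : ∀ v, f v = f v0 := by
    intro v
    induction v using hwf.induction with
    | _ v ih =>
      by_cases hv : v = v0
      · rw [hv]
      · have hlt : r v0 v := by
          rcases trichotomous_of r v v0 with h | h | h
          · exact absurd h (hmin v)
          · exact absurd h hv
          · exact h
        obtain ⟨w, -, hw2, hw3⟩ := hp v v0 hlt
        rw [← hf w v hw3]
        exact ih w hw2
  rw [key x, key y]

/-- A transfinite path of infinite size has no vertex cover of smaller size. -/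
theorem IsTransPath.cover {W : Type u} {G : SimpleGraph W} (hG : IsTransPath G)
    (hW : ℵ₀ ≤ #W) (B : Set W) (hB : ∀ x y, G.Adj x y → x ∈ B ∨ y ∈ B) : #W ≤ #B := by
  classical
  obtain ⟨r, hr, hp⟩ := hG
  have hwf : WellFounded r := hr.wf
  by_contra hlt
  push Not at hlt
  -- non-maximal elements
  let N : Set W := {v | v ∉ B ∧ ∃ w, r v w}
  let s : N → W := fun v => hwf.min {w | r v.1 w} v.2.2
  have hs1 : ∀ v : N, r v.1 (s v) := fun v => hwf.min_mem {w | r v.1 w} v.2.2
  have hs2 : ∀ (v : N) w, r v.1 w → ¬ r w (s v) := fun v w hw =>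
    hwf.not_lt_min {w | r v.1 w} hw
  have hsB : ∀ v : N, s v ∈ B := by
    intro v
    obtain ⟨w, hw1, hw2, hw3⟩ := hp (s v) v.1 (hs1 v)
    rcases hw1 with rfl | hw1
    · rcases hB _ _ hw3 with h | h
      · exact absurd h v.2.1
      · exact h
    · exact absurd hw2 (hs2 v w hw1)
  have hinj : Function.Injective s := by
    intro v v' hvv
    by_contra hne
    have hne' : v.1 ≠ v'.1 := fun h => hne (Subtype.ext h)
    rcases trichotomous_of r v.1 v'.1 with h | h | h
    · exact hs2 v v'.1 h (by rw [hvv]; exact hs1 v')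
    · exact hne' h
    · exact hs2 v' v.1 h (by rw [← hvv]; exact hs1 v)
  have hN : #N ≤ #B := by
    refine Cardinal.mk_le_of_injective (f := fun v : N => (⟨s v, hsB v⟩ : B)) ?_
    intro v v' h
    exact hinj (congrArg Subtype.val h)
  -- maximal elements
  let M : Set W := {v | ∀ w, ¬ r v w}
  have hM : #M ≤ 1 := by
    rw [Cardinal.le_one_iff_subsingleton]
    constructor
    intro a b
    apply Subtype.ext
    rcases trichotomous_of r a.1 b.1 with h | h | h
    · exact absurd h (a.2 _)
    · exact h
    · exact absurd h (b.2 _)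
  have huniv : (Set.univ : Set W) ⊆ (B ∪ N) ∪ M := by
    intro v _
    by_cases hv : v ∈ B
    · exact Or.inl (Or.inl hv)
    · by_cases h : ∃ w, r v w
      · exact Or.inl (Or.inr ⟨hv, h⟩)
      · exact Or.inr (not_exists.mp h)
  have hle : #W ≤ (#B + #B) + 1 := by
    calc #W = #(Set.univ : Set W) := (Cardinal.mk_univ).symm
      _ ≤ #((B ∪ N) ∪ M : Set W) := Cardinal.mk_le_mk_of_subset huniv
      _ ≤ #(B ∪ N : Set W) + #M := Cardinal.mk_union_le _ _
      _ ≤ (#B + #N) + #M := by gcongr; exact Cardinal.mk_union_le _ _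
      _ ≤ (#B + #B) + 1 := by gcongr
  have hlt2 : (#B + #B) + 1 < #W :=
    Cardinal.add_lt_of_lt hW (Cardinal.add_lt_of_lt hW hlt hlt)
      (lt_of_lt_of_le Cardinal.one_lt_aleph0 hW)
  exact absurd hle (not_le.mpr hlt2)

/-- On a well-order all of whose proper initial segments are countable and whose size is at most
the continuum there is a countable colouring of pairs each of whose colour classes is a union of
stars centred at their least points. -/
theorem exists_star_colouring {I : Type u} [LinearOrder I] (hI : ∀ i : I, Countable (Iio i))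
    (hc : #I ≤ 𝔠) : ∃ g : I → I → ℕ,
      (∀ i i' j, i < j → i' < j → g i j = g i' j → i = i') ∧
      (∀ i j k, i < j → j < k → g i j ≠ g j k) := by
  classical
  have h1 : Cardinal.lift.{0} #I ≤ Cardinal.lift.{u} #(Set ℕ) := by
    rw [Cardinal.mk_set, Cardinal.mk_nat]
    simpa using hc
  obtain ⟨F⟩ := Cardinal.lift_mk_le'.mp h1
  have hsep : ∀ i j : I, i ≠ j → ∃ m : ℕ, ¬ (m ∈ F i ↔ m ∈ F j) := by
    intro i j hij
    by_contra hcon
    push Not at hcon
    exact hij (F.injective (Set.ext fun m => hcon m))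
  have he : ∀ j : I, ∃ e : Iio j → ℕ, Function.Injective e := fun j =>
    (hI j).exists_injective_nat
  choose e he using he
  let m : I → I → ℕ := fun i j => if h : i ≠ j then Nat.find (hsep i j h) else 0
  have hm : ∀ i j, i ≠ j → ¬ (m i j ∈ F i ↔ m i j ∈ F j) := by
    intro i j hij
    simp only [m, dif_pos hij]
    exact Nat.find_spec (hsep i j hij)
  refine ⟨fun i j => Encodable.encode
    ((m i j, decide (m i j ∈ F i), if h : i < j then e j ⟨i, h⟩ else 0) : ℕ × Bool × ℕ), ?_, ?_⟩
  · intro i i' j hij hij' h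
    have h2 := Encodable.encode_injective h
    simp only [Prod.mk.injEq, dif_pos hij, dif_pos hij'] at h2
    exact congrArg Subtype.val (he j h2.2.2)
  · intro i j k hij hjk h
    have h2 := Encodable.encode_injective h
    simp only [Prod.mk.injEq, decide_eq_decide] at h2
    obtain ⟨h3, h4, -⟩ := h2
    apply hm i j hij.ne
    rw [← h3] at h4
    exact h4

/-- Every cardinal in the class has cofinality at least `ℵ₂`. -/
theorem aleph_two_le_cof {κ : Cardinal.{u}} (hκ : κ ∈ PathCardinals) : ℵ_ 2 ≤ κ.ord.cof := by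
  classical
  by_contra hcof
  push Not at hcof
  obtain ⟨hinf, hall⟩ := hκ
  have hcof1 : κ.ord.cof ≤ ℵ₁ := by
    have h2 : (ℵ_ 2 : Cardinal.{u}) = Order.succ ℵ₁ := by
      rw [Cardinal.succ_aleph]
      congr 1
      norm_num
    rw [h2] at hcof
    exact Order.lt_succ_iff.mp hcof
  obtain ⟨s, hs, hs'⟩ := Ordinal.exists_ord_cof_eq κ.ord.ToType
  rw [Ordinal.cof_toType] at hs'
  -- block map
  have hex : ∀ k : κ.ord.ToType, ∃ i : s, k ≤ i.1 := by
    intro k
    obtain ⟨i, hi, hki⟩ := hs k
    exact ⟨⟨i, hi⟩, hki⟩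
  have hwfs : WellFounded ((· < ·) : s → s → Prop) := wellFounded_lt
  let blk : κ.ord.ToType → s := fun k => hwfs.min {i : s | k ≤ i.1} (hex k)
  have hblk : ∀ k, k ≤ (blk k).1 := fun k => hwfs.min_mem {i : s | k ≤ i.1} (hex k)
  have hfib : ∀ i : s, #{k : κ.ord.ToType | blk k = i} < κ := by
    intro i
    have h1 : {k : κ.ord.ToType | blk k = i} ⊆ Set.Iic i.1 := by
      intro k hk
      have := hblk k
      rw [hk] at this
      exact this
    refine lt_of_le_of_lt (Cardinal.mk_le_mk_of_subset h1) ?_
    have h2 : Set.Iic i.1 ⊆ Set.Iio i.1 ∪ {i.1} := by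
      intro x hx
      rcases lt_or_eq_of_le (show x ≤ i.1 from hx) with h | h
      · exact Or.inl h
      · exact Or.inr h
    refine lt_of_le_of_lt (Cardinal.mk_le_mk_of_subset h2) ?_
    refine lt_of_le_of_lt (Cardinal.mk_union_le _ _) ?_
    refine Cardinal.add_lt_of_lt hinf (Cardinal.mk_Iio_toType_ord_lt i.1) ?_
    rw [Cardinal.mk_singleton]
    exact lt_of_lt_of_le Cardinal.one_lt_aleph0 hinf
  have hcard : #s = κ.ord.cof := by
    rw [← Cardinal.card_ord κ.ord.cof, ← hs']
    exact (Ordinal.card_type _).symm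
  have hcountable : ∀ i : s, Countable (Iio i) := by
    intro i
    have h2 : #(Iio i) < κ.ord.cof := by
      rw [← hcard]
      exact Cardinal.mk_Iio_lt i (by rw [hcard, hs'])
    rw [← Cardinal.mk_le_aleph0_iff]
    have h3 : #(Iio i) < ℵ₁ := lt_of_lt_of_le h2 hcof1
    rw [← Cardinal.succ_aleph0] at h3
    exact Order.lt_succ_iff.mp h3
  have hcont : #s ≤ 𝔠 := by
    rw [hcard]
    exact hcof1.trans Cardinal.aleph_one_le_continuum
  obtain ⟨g, hg1, hg2⟩ := exists_star_colouring hcountable hcont
  -- the colouring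
  let c : Sym2 κ.ord.ToType → ℕ := Sym2.lift ⟨fun x y =>
    if blk x = blk y then 0 else g (min (blk x) (blk y)) (max (blk x) (blk y)) + 1, by
      intro x y
      simp only [eq_comm, min_comm, max_comm]⟩
  have hc : ∀ x y, c s(x, y) =
      if blk x = blk y then 0 else g (min (blk x) (blk y)) (max (blk x) (blk y)) + 1 :=
    fun x y => rfl
  obtain ⟨n, P, hP, hPκ⟩ := hall κ.ord.ToType (by rw [Cardinal.mk_toType, Cardinal.card_ord]) c
  have hPinf : ℵ₀ ≤ #P.verts := by rw [hPκ]; exact hinf
  have : Nonempty P.verts := by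
    rw [← Cardinal.mk_ne_zero_iff]
    intro h0
    rw [h0] at hPinf
    exact absurd hPinf (not_le.mpr Cardinal.aleph0_pos)
  have hadj : ∀ x y : P.verts, P.coe.Adj x y → c s(x.1, y.1) = n := by
    intro x y hxy
    exact (P.adj_sub hxy).2
  rcases Nat.eq_zero_or_pos n with hn | hn
  · -- colour `0`: the path stays in one block
    subst hn
    have hconst := hP.const (fun v => blk v.1) (by
      intro x y hxy
      have h := hadj x y hxy
      rw [hc] at h
      by_contra hne
      rw [if_neg hne] at h
      omega)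
    obtain ⟨v0⟩ := (inferInstance : Nonempty P.verts)
    have hsub : P.verts ⊆ {k | blk k = blk v0.1} := by
      intro v hv
      exact hconst ⟨v, hv⟩ v0
    have := lt_of_le_of_lt (Cardinal.mk_le_mk_of_subset hsub) (hfib _)
    rw [hPκ] at this
    exact lt_irrefl _ this
  · -- positive colour
    obtain ⟨m, rfl⟩ : ∃ m, n = m + 1 := ⟨n - 1, by omega⟩
    let ctr : κ.ord.ToType → s := fun x =>
      if h : ∃ i : s, i < blk x ∧ g i (blk x) = m then h.choose else blk x
    have hctr1 : ∀ x (i : s), i < blk x → g i (blk x) = m → ctr x = i := by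
      intro x i hi hgi
      have hex : ∃ i : s, i < blk x ∧ g i (blk x) = m := ⟨i, hi, hgi⟩
      simp only [ctr, dif_pos hex]
      exact hg1 _ _ _ hex.choose_spec.1 hi (hex.choose_spec.2.trans hgi.symm)
    have hctr2 : ∀ x (j : s), blk x < j → g (blk x) j = m → ctr x = blk x := by
      intro x j hj hgj
      have hnex : ¬ ∃ i : s, i < blk x ∧ g i (blk x) = m := by
        rintro ⟨i, hi, hgi⟩
        exact hg2 i (blk x) j hi hj (hgi.trans hgj.symm)
      simp only [ctr, dif_neg hnex]
    have hedge : ∀ x y : P.verts, P.coe.Adj x y →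
        (blk x.1 < blk y.1 ∧ g (blk x.1) (blk y.1) = m) ∨
        (blk y.1 < blk x.1 ∧ g (blk y.1) (blk x.1) = m) := by
      intro x y hxy
      have h := hadj x y hxy
      rw [hc] at h
      by_cases hne : blk x.1 = blk y.1
      · rw [if_pos hne] at h
        omega
      · rw [if_neg hne] at h
        rcases lt_or_gt_of_ne hne with hlt | hlt
        · left
          refine ⟨hlt, ?_⟩
          rw [min_eq_left hlt.le, max_eq_right hlt.le] at h
          omega
        · right
          refine ⟨hlt, ?_⟩
          rw [min_eq_right hlt.le, max_eq_left hlt.le] at h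
          omega
    have hconst := hP.const (fun v => ctr v.1) (by
      intro x y hxy
      rcases hedge x y hxy with ⟨h1, h2⟩ | ⟨h1, h2⟩
      · show ctr x.1 = ctr y.1
        rw [hctr2 _ _ h1 h2, hctr1 _ _ h1 h2]
      · show ctr x.1 = ctr y.1
        rw [hctr1 _ _ h1 h2, hctr2 _ _ h1 h2])
    obtain ⟨v0⟩ := (inferInstance : Nonempty P.verts)
    have hcov := hP.cover hPinf {v : P.verts | blk v.1 = ctr v0.1} (by
      intro x y hxy
      rcases hedge x y hxy with ⟨h1, h2⟩ | ⟨h1, h2⟩
      · left
        show blk x.1 = ctr v0.1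
        rw [← hctr2 _ _ h1 h2]
        exact hconst x v0
      · right
        show blk y.1 = ctr v0.1
        rw [← hctr2 _ _ h1 h2]
        exact hconst y v0)
    have hle : #{v : P.verts | blk v.1 = ctr v0.1} ≤ #{k : κ.ord.ToType | blk k = ctr v0.1} := by
      refine Cardinal.mk_le_of_injective
        (f := fun v : {v : P.verts | blk v.1 = ctr v0.1} =>
          (⟨v.1.1, v.2⟩ : {k : κ.ord.ToType | blk k = ctr v0.1})) ?_
      intro v v' h
      apply Subtype.ext
      apply Subtype.ext
      exact congrArg (fun z => z.1) h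
    have := lt_of_le_of_lt (hcov.trans hle) (hfib _)
    rw [hPκ] at this
    exact lt_irrefl _ this

end Pool.H38R3.TransPath
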