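import Mathlib
import Pool.Agent.H38R3.TPDefs
import Pool.Agent.H38R3.TPComp

namespace Pool.H38R3.TransPath

open Cardinal Ordinal Set

universe u

theorem exists_neighbour {I : Type u} {G : SimpleGraph I} {x y z : I} (h : G.Reachable x y)
    (hyz : G.Adj y z) : ∃ w, G.Adj x w := by
  obtain ⟨p⟩ := h
  cases p with
  | nil => exact ⟨z, hyz⟩
  | cons h q => exact ⟨_, h⟩

/-- Positions of the long path. -/
structure Pos {I K : Type u} (M : I → Set K) (m0 : K) : Type u where
  i : I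
  t : ℕ
  m : K
  k : ℕ
  ok : (t = 0 ∧ m = m0) ∨ (t = 1 ∧ m ∈ M i) ∨ (t = 2 ∧ m = m0)

theorem Pos.ext' {I K : Type u} {M : I → Set K} {m0 : K} {x y : Pos M m0} (h1 : x.i = y.i)
    (h2 : x.t = y.t) (h3 : x.m = y.m) (h4 : x.k = y.k) : x = y := by
  obtain ⟨x1, x2, x3, x4, hx⟩ := x
  obtain ⟨y1, y2, y3, y4, hy⟩ := y
  simp only at h1 h2 h3 h4
  subst h1 h2 h3 h4
  rfl

/-- The lexicographic code of a position. -/
def Pos.code {I K : Type u} [LinearOrder I] [LinearOrder K] {M : I → Set K} {m0 : K}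
    (x : Pos M m0) : I ×ₗ (ℕ ×ₗ (K ×ₗ ℕ)) :=
  toLex (x.i, toLex (x.t, toLex (x.m, x.k)))

theorem Pos.code_injective {I K : Type u} [LinearOrder I] [LinearOrder K] {M : I → Set K}
    {m0 : K} : Function.Injective (Pos.code (M := M) (m0 := m0)) := by
  intro x y h
  have h' := congrArg ofLex h
  simp only [Pos.code, ofLex_toLex, Prod.mk.injEq] at h'
  obtain ⟨h1, h2⟩ := h'
  have h2' := congrArg ofLex h2
  simp only [ofLex_toLex, Prod.mk.injEq] at h2'
  obtain ⟨h3, h4⟩ := h2'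
  have h4' := congrArg ofLex h4
  simp only [ofLex_toLex, Prod.mk.injEq] at h4'
  obtain ⟨h5, h6⟩ := h4'
  exact Pos.ext' h1 h3 h5 h6

noncomputable instance Pos.linearOrder {I K : Type u} [LinearOrder I] [LinearOrder K]
    {M : I → Set K} {m0 : K} : LinearOrder (Pos M m0) :=
  LinearOrder.lift' Pos.code Pos.code_injective

theorem Pos.lt_iff {I K : Type u} [LinearOrder I] [LinearOrder K] {M : I → Set K} {m0 : K}
    (x y : Pos M m0) : x < y ↔ (x.i < y.i ∨ (x.i = y.i ∧ (x.t < y.t ∨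
      (x.t = y.t ∧ (x.m < y.m ∨ (x.m = y.m ∧ x.k < y.k)))))) := by
  have h : x < y ↔ x.code < y.code := Iff.rfl
  rw [h]
  simp only [Pos.code, Prod.Lex.toLex_lt_toLex]

theorem Pos.le_iff {I K : Type u} [LinearOrder I] [LinearOrder K] {M : I → Set K} {m0 : K}
    (x y : Pos M m0) : x ≤ y ↔ (x.i < y.i ∨ (x.i = y.i ∧ (x.t < y.t ∨
      (x.t = y.t ∧ (x.m < y.m ∨ (x.m = y.m ∧ x.k ≤ y.k)))))) := by
  have h : x ≤ y ↔ x.code ≤ y.code := Iff.rfl
  rw [h]
  simp only [Pos.code, Prod.Lex.toLex_le_toLex]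

instance Pos.wellFoundedLT {I K : Type u} [LinearOrder I] [LinearOrder K] [WellFoundedLT I]
    [WellFoundedLT K] {M : I → Set K} {m0 : K} : WellFoundedLT (Pos M m0) :=
  ⟨InvImage.wf Pos.code (wellFounded_lt (α := I ×ₗ (ℕ ×ₗ (K ×ₗ ℕ))))⟩

/-- A long sequence of blocks that satisfies the path condition and uses no block too often. -/
theorem exists_block_sequence {I : Type u} [LinearOrder I] [WellFoundedLT I] (κ : Cardinal.{u})
    (hκ : ℵ₀ ≤ κ) (lam : I → Cardinal.{u}) (hlam : ∀ i, lam i ≤ κ)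
    (hmono : ∀ i j, i ≤ j → lam i ≤ lam j) (hsup : ∀ ρ < κ, ∃ i, ρ < lam i)
    (hI : ∀ i, #I ≤ lam i) (hinf : ∀ i, ℵ₀ ≤ lam i)
    (G : SimpleGraph I) (i0 : I)
    (hG : ∀ β, ∃ a b, β ≤ a ∧ β ≤ b ∧ G.Adj a b ∧ G.Reachable i0 a) :
    ∃ (L : Type u) (_ : LinearOrder L) (_ : WellFoundedLT L) (b : L → I),
      (∀ x y : L, y < x → ∃ z, y ≤ z ∧ z < x ∧ G.Adj (b z) (b x)) ∧
      (∀ j, #{x // b x = j} ≤ lam j) ∧ #L = κ := by
  classical
  choose a b ha hb hab hreach using hG
  obtain ⟨i1, hi1⟩ : ∃ i1, G.Adj i0 i1 := exists_neighbour (hreach i0) (hab i0)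
  have hRb := fun ξ => exists_ray G (a := i1) (s := a ξ) (t := b ξ)
    (hi1.symm.reachable.trans (hreach ξ)) (hab ξ)
  have hRt := fun ξ => exists_ray G (a := a ξ) (s := i0) (t := i1) (hreach ξ).symm hi1
  choose Rb hRb0 hRb1 hRb2 hRb3 using hRb
  choose Rt hRt0 hRt1 hRt2 hRt3 using hRt
  let K := κ.ord.ToType
  have hK : #K = κ := by simp [K]
  have hKne : Nonempty K := by
    rw [← Cardinal.mk_ne_zero_iff, hK]
    intro h
    rw [h] at hκ
    exact absurd hκ (not_le.mpr Cardinal.aleph0_pos)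
  obtain ⟨m0⟩ := hKne
  have hM : ∀ i, ∃ M : Set K, #M = lam i := by
    intro i
    rw [← Cardinal.le_mk_iff_exists_set, hK]
    exact hlam i
  choose M hM using hM
  let bl : Pos M m0 → I := fun x =>
    if x.t = 0 then Rb x.i x.k
    else if x.t = 1 then alt (a x.i) (b x.i) x.k
    else Rt x.i x.k
  have hbl0 : ∀ x : Pos M m0, x.t = 0 → bl x = Rb x.i x.k := by
    intro x hx
    simp only [bl, if_pos hx]
  have hbl1 : ∀ x : Pos M m0, x.t = 1 → bl x = alt (a x.i) (b x.i) x.k := by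
    intro x hx
    have : x.t ≠ 0 := by omega
    simp only [bl, if_neg this, if_pos hx]
  have hbl2 : ∀ x : Pos M m0, x.t = 2 → bl x = Rt x.i x.k := by
    intro x hx
    have h0 : x.t ≠ 0 := by omega
    have h1 : x.t ≠ 1 := by omega
    simp only [bl, if_neg h0, if_neg h1]
  -- the common part of the limit case
  have hlim : ∀ (ξ : I) (t : ℕ) (m : K) (y x : Pos M m0), x.i = ξ → x.t = t → x.m = m →
      bl x = a ξ → (t = 1 ∨ (t = 2 ∧ m = m0)) → x.k = 0 → y < x →
      ∃ z, y ≤ z ∧ z < x ∧ G.Adj (bl z) (bl x) := by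
    intro ξ t m y x hxi hxt hxm hxa ht hk hyx
    rw [hxa]
    rw [Pos.lt_iff, hxi, hxt, hxm, hk] at hyx
    rcases hyx with h | ⟨h, h'⟩
    · obtain ⟨q, hq, hRq⟩ := hRb3 ξ 0
      refine ⟨⟨ξ, 0, m0, q, Or.inl ⟨rfl, rfl⟩⟩, ?_, ?_, ?_⟩
      · rw [Pos.le_iff]
        exact Or.inl h
      · rw [Pos.lt_iff]
        refine Or.inr ⟨hxi.symm, Or.inl ?_⟩
        show 0 < x.t
        omega
      · rw [hbl0 _ rfl]
        show G.Adj (Rb ξ q) (a ξ)
        rw [hRq]
        exact (hab ξ).symm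
    · rcases y.ok with ⟨hy1, hy2⟩ | ⟨hy1, hy2⟩ | ⟨hy1, hy2⟩
      · obtain ⟨q, hq, hRq⟩ := hRb3 ξ y.k
        refine ⟨⟨ξ, 0, m0, q, Or.inl ⟨rfl, rfl⟩⟩, ?_, ?_, ?_⟩
        · rw [Pos.le_iff]
          exact Or.inr ⟨h, Or.inr ⟨hy1, Or.inr ⟨hy2, hq⟩⟩⟩
        · rw [Pos.lt_iff]
          refine Or.inr ⟨hxi.symm, Or.inl ?_⟩
          show 0 < x.t
          omega
        · rw [hbl0 _ rfl]
          show G.Adj (Rb ξ q) (a ξ)
          rw [hRq]
          exact (hab ξ).symm
      · obtain ⟨q, hq, hRq⟩ := alt_right (a ξ) (b ξ) y.k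
        rw [h] at hy2
        refine ⟨⟨ξ, 1, y.m, q, Or.inr (Or.inl ⟨rfl, hy2⟩)⟩, ?_, ?_, ?_⟩
        · rw [Pos.le_iff]
          exact Or.inr ⟨h, Or.inr ⟨hy1, Or.inr ⟨rfl, hq⟩⟩⟩
        · rw [Pos.lt_iff]
          refine Or.inr ⟨hxi.symm, ?_⟩
          rw [hxt, hxm]
          rcases h' with h' | ⟨h', h''⟩
          · left
            show 1 < t
            omega
          · refine Or.inr ⟨by show 1 = t; omega, ?_⟩
            rcases h'' with h'' | ⟨_, h''⟩
            · exact Or.inl h''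
            · exact absurd h'' (Nat.not_lt_zero _)
        · rw [hbl1 _ rfl]
          show G.Adj (alt (a ξ) (b ξ) q) (a ξ)
          rw [hRq]
          exact (hab ξ).symm
      · exfalso
        rcases h' with h' | ⟨h', h''⟩
        · omega
        · rcases ht with ht | ⟨ht, hm⟩
          · omega
          · rcases h'' with h'' | ⟨_, h''⟩
            · rw [hy2, hm] at h''
              exact lt_irrefl _ h''
            · exact absurd h'' (Nat.not_lt_zero _)
  refine ⟨Pos M m0, inferInstance, inferInstance, bl, ?_, ?_, ?_⟩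
  · -- path condition
    intro x y hyx
    rcases Nat.eq_zero_or_pos x.k with hk | hk
    · -- a limit position
      rcases x.ok with ⟨ht, hm⟩ | ⟨ht, hm⟩ | ⟨ht, hm⟩
      · rw [Pos.lt_iff, hk, ht, hm] at hyx
        have hηξ : y.i < x.i := by
          rcases hyx with h | ⟨h, h'⟩
          · exact h
          · exfalso
            rcases h' with h' | ⟨h', h''⟩
            · exact absurd h' (Nat.not_lt_zero _)
            · rcases h'' with h'' | ⟨_, h''⟩
              · rcases y.ok with ⟨hy1, hy2⟩ | ⟨hy1, hy2⟩ | ⟨hy1, hy2⟩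
                · rw [hy2] at h''
                  exact lt_irrefl _ h''
                · omega
                · omega
              · exact absurd h'' (Nat.not_lt_zero _)
        obtain ⟨q, hq, hRq⟩ := hRt2 y.i y.k
        refine ⟨⟨y.i, 2, m0, q, Or.inr (Or.inr ⟨rfl, rfl⟩)⟩, ?_, ?_, ?_⟩
        · rw [Pos.le_iff]
          refine Or.inr ⟨rfl, ?_⟩
          rcases y.ok with ⟨hy1, hy2⟩ | ⟨hy1, hy2⟩ | ⟨hy1, hy2⟩
          · left
            show y.t < 2
            omega
          · left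
            show y.t < 2
            omega
          · right
            exact ⟨hy1, Or.inr ⟨hy2, hq⟩⟩
        · rw [Pos.lt_iff]
          exact Or.inl hηξ
        · rw [hbl2 _ rfl, hbl0 _ ht]
          show G.Adj (Rt y.i q) (Rb x.i x.k)
          rw [hRq, hk, hRb0]
          exact hi1
      · refine hlim x.i x.t x.m y x rfl rfl rfl ?_ (Or.inl ht) hk hyx
        rw [hbl1 _ ht, hk]
        exact alt_zero _ _
      · refine hlim x.i x.t x.m y x rfl rfl rfl ?_ (Or.inr ⟨ht, hm⟩) hk hyx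
        rw [hbl2 _ ht, hk]
        exact hRt0 _
    · -- a successor position
      obtain ⟨k, hk'⟩ : ∃ k, x.k = k + 1 := ⟨x.k - 1, by omega⟩
      refine ⟨⟨x.i, x.t, x.m, k, x.ok⟩, ?_, ?_, ?_⟩
      · rw [Pos.le_iff]
        rw [Pos.lt_iff] at hyx
        rcases hyx with h | ⟨h, h'⟩
        · exact Or.inl h
        · refine Or.inr ⟨h, ?_⟩
          rcases h' with h' | ⟨h', h''⟩
          · exact Or.inl h'
          · refine Or.inr ⟨h', ?_⟩
            rcases h'' with h'' | ⟨h'', h'''⟩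
            · exact Or.inl h''
            · refine Or.inr ⟨h'', ?_⟩
              show y.k ≤ k
              omega
      · rw [Pos.lt_iff]
        refine Or.inr ⟨rfl, Or.inr ⟨rfl, Or.inr ⟨rfl, ?_⟩⟩⟩
        show k < x.k
        omega
      · rcases x.ok with ⟨ht, hm⟩ | ⟨ht, hm⟩ | ⟨ht, hm⟩
        · rw [hbl0 ⟨x.i, x.t, x.m, k, x.ok⟩ ht, hbl0 x ht, hk']
          exact hRb1 x.i k
        · rw [hbl1 ⟨x.i, x.t, x.m, k, x.ok⟩ ht, hbl1 x ht, hk']
          exact alt_adj (hab x.i) k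
        · rw [hbl2 ⟨x.i, x.t, x.m, k, x.ok⟩ ht, hbl2 x ht, hk']
          exact hRt1 x.i k
  · -- fibres
    intro j
    have hF : ∀ ξ, #{x : Pos M m0 | bl x = j ∧ x.i = ξ} ≤ lam j := by
      intro ξ
      by_cases hj : j = a ξ ∨ j = b ξ
      · have hlj : lam ξ ≤ lam j := by
          rcases hj with h | h
          · rw [h]; exact hmono _ _ (ha ξ)
          · rw [h]; exact hmono _ _ (hb ξ)
        have hmem : ∀ x : {x : Pos M m0 | bl x = j ∧ x.i = ξ},
            x.1.m ∈ (M ξ ∪ {m0} : Set K) := by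
          rintro ⟨x, hx0, hx1⟩
          rcases x.ok with ⟨h1, h2⟩ | ⟨h1, h2⟩ | ⟨h1, h2⟩
          · exact Or.inr h2
          · rw [hx1] at h2
            exact Or.inl h2
          · exact Or.inr h2
        have hinj : #{x : Pos M m0 | bl x = j ∧ x.i = ξ} ≤ #(ℕ × (M ξ ∪ {m0} : Set K) × ℕ) := by
          refine Cardinal.mk_le_of_injective (f := fun x : {x : Pos M m0 | bl x = j ∧ x.i = ξ} =>
            ((x.1.t, (⟨x.1.m, hmem x⟩ : (M ξ ∪ {m0} : Set K)), x.1.k) :
              ℕ × (M ξ ∪ {m0} : Set K) × ℕ)) ?_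
          rintro ⟨x, hx0, hx1⟩ ⟨y, hy0, hy1⟩ h
          simp only [Prod.mk.injEq, Subtype.mk.injEq] at h
          obtain ⟨h1, h2, h3⟩ := h
          apply Subtype.ext
          exact Pos.ext' (hx1.trans hy1.symm) h1 h2 h3
        refine hinj.trans ?_
        have h1 : #(M ξ ∪ {m0} : Set K) ≤ lam j := by
          refine (Cardinal.mk_union_le _ _).trans ?_
          rw [hM, Cardinal.mk_singleton]
          calc lam ξ + 1 ≤ lam j + lam j :=
                add_le_add hlj (Cardinal.one_le_aleph0.trans (hinf j))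
            _ = lam j := Cardinal.add_eq_self (hinf j)
        have h2 : #(ℕ × (M ξ ∪ {m0} : Set K) × ℕ) = ℵ₀ * (#(M ξ ∪ {m0} : Set K) * ℵ₀) := by
          simp
        rw [h2]
        calc ℵ₀ * (#(M ξ ∪ {m0} : Set K) * ℵ₀)
            ≤ lam j * (lam j * lam j) :=
              mul_le_mul' (hinf j) (mul_le_mul' h1 (hinf j))
          _ = lam j := by rw [Cardinal.mul_eq_self (hinf j), Cardinal.mul_eq_self (hinf j)]
      · have ht1 : ∀ x : {x : Pos M m0 | bl x = j ∧ x.i = ξ}, x.1.m = m0 := by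
          rintro ⟨x, hx0, hx1⟩
          rcases x.ok with ⟨h1, h2⟩ | ⟨h1, h2⟩ | ⟨h1, h2⟩
          · exact h2
          · exfalso
            rw [hbl1 _ h1] at hx0
            apply hj
            rw [← hx1]
            rcases alt_mem (a x.i) (b x.i) x.k with h | h
            · left; rw [← hx0, h]
            · right; rw [← hx0, h]
          · exact h2
        have hcnt : Countable {x : Pos M m0 | bl x = j ∧ x.i = ξ} := by
          refine Function.Injective.countable (f := fun x : {x : Pos M m0 | bl x = j ∧ x.i = ξ} =>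
            ((x.1.t, x.1.k) : ℕ × ℕ)) ?_
          intro x y h
          simp only [Prod.mk.injEq] at h
          obtain ⟨h1, h3⟩ := h
          apply Subtype.ext
          exact Pos.ext' (x.2.2.trans y.2.2.symm) h1 ((ht1 x).trans (ht1 y).symm) h3
        exact (Cardinal.mk_le_aleph0_iff.mpr hcnt).trans (hinf j)
    have hun : {x : Pos M m0 | bl x = j} = ⋃ ξ : I, {x : Pos M m0 | bl x = j ∧ x.i = ξ} := by
      ext x
      simp
    calc #{x // bl x = j} = #{x : Pos M m0 | bl x = j} := rfl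
      _ = #(⋃ ξ : I, {x : Pos M m0 | bl x = j ∧ x.i = ξ}) := by rw [← hun]
      _ ≤ Cardinal.sum fun ξ : I => #{x : Pos M m0 | bl x = j ∧ x.i = ξ} :=
          Cardinal.mk_iUnion_le_sum_mk
      _ ≤ Cardinal.sum fun _ : I => lam j := Cardinal.sum_le_sum _ _ hF
      _ = #I * lam j := by simp
      _ ≤ lam j * lam j := by gcongr; exact hI j
      _ = lam j := Cardinal.mul_eq_self (hinf j)
  · -- size
    apply le_antisymm
    · have h1 : #(Pos M m0) ≤ #(I × ℕ × K × ℕ) := by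
        refine Cardinal.mk_le_of_injective (f := fun x : Pos M m0 => (x.i, x.t, x.m, x.k)) ?_
        intro x y h
        simp only [Prod.mk.injEq] at h
        exact Pos.ext' h.1 h.2.1 h.2.2.1 h.2.2.2
      refine h1.trans ?_
      have h2 : #(I × ℕ × K × ℕ) = #I * (ℵ₀ * (κ * ℵ₀)) := by
        simp [hK]
      rw [h2]
      have hIκ : #I ≤ κ := (hI i0).trans (hlam i0)
      calc #I * (ℵ₀ * (κ * ℵ₀))
          ≤ κ * (κ * (κ * κ)) := by gcongr
        _ = κ := by
            rw [Cardinal.mul_eq_self hκ, Cardinal.mul_eq_self hκ, Cardinal.mul_eq_self hκ]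
    · by_contra hcon
      push Not at hcon
      obtain ⟨ξ, hξ⟩ := hsup _ hcon
      have : lam ξ ≤ #(Pos M m0) := by
        rw [← hM ξ]
        refine Cardinal.mk_le_of_injective (f := fun m : M ξ =>
          (⟨ξ, 1, m.1, 0, Or.inr (Or.inl ⟨rfl, m.2⟩)⟩ : Pos M m0)) ?_
        intro m m' h
        simp only [Pos.mk.injEq] at h
        exact Subtype.ext h.2.2.1
      exact absurd this (not_le.mpr hξ)

end Pool.H38R3.TransPath
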