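import Mathlib
import Pool.Agent.H38R3.TPDefs
import Pool.Agent.H38R3.TPNeg
import Pool.Agent.H38R3.TPComp
import Pool.Agent.H38R3.TPOrd
import Pool.Agent.H38R3.TPCanon

namespace Pool.H38R3.TransPath

open Cardinal Ordinal Set

universe u

theorem aleph_one_lt_aleph_two : (ℵ₁ : Cardinal.{u}) < ℵ_ 2 := by
  rw [Cardinal.aleph_lt_aleph]
  norm_num

/-- Every singular strong limit cardinal of cofinality at least `ℵ₂` is in the class. -/
theorem mem_of_strongLimit {κ : Cardinal.{u}} (hκ : κ.IsStrongLimit) (hsing : κ.ord.cof < κ)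
    (hcof : ℵ_ 2 ≤ κ.ord.cof) : κ ∈ PathCardinals := by
  classical
  have hinf : ℵ₀ ≤ κ := hκ.aleph0_le
  refine ⟨hinf, ?_⟩
  intro V hV c
  obtain ⟨I, hlin, hwf, lam, hI, hcofI, hreg, hlt, hmono, hsup, hC, hA⟩ := exists_lam hκ hsing
  let B : I → Type u := fun i => (lam i).out
  have hB : ∀ i, #(B i) = lam i := fun i => Cardinal.mk_out _
  have hsum : #(Σ i, B i) ≤ #V := by
    rw [Cardinal.mk_sigma, hV]
    calc Cardinal.sum (fun i => #(B i)) = Cardinal.sum lam := by simp only [hB]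
      _ ≤ Cardinal.sum (fun _ : I => κ) := Cardinal.sum_le_sum _ _ (fun i => (hlt i).le)
      _ = #I * κ := by simp
      _ ≤ κ * κ := by gcongr; rw [hI]; exact hsing.le
      _ = κ := Cardinal.mul_eq_self hinf
  obtain ⟨e⟩ := hsum
  obtain ⟨A, g, hA1, hA2⟩ := canonization B (fun x y => c s(e x, e y))
    (fun i => by rw [hB]; exact hreg i)
    (fun i => by
      simp only [hB]
      exact hC i)
    (fun i => by rw [hB]; exact hA i)
  have hbdd : ∀ T : Set I, #T ≤ ℵ₁ → ∃ b, ∀ t ∈ T, t < b := by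
    intro T hT
    by_contra hcon
    push Not at hcon
    have hcofT : IsCofinal T := fun x => by
      obtain ⟨t, ht, hxt⟩ := hcon x
      exact ⟨t, ht, hxt⟩
    have h1 := Order.cof_le hcofT
    rw [hcofI] at h1
    exact absurd (hcof.trans (h1.trans hT)) (not_le.mpr aleph_one_lt_aleph_two)
  obtain ⟨n, i0, hn⟩ := exists_component hbdd g
  obtain ⟨L, hL1, hL2, b, hpath, hfib, hcard⟩ := exists_block_sequence κ hinf lam
    (fun i => (hlt i).le) hmono hsup
    (fun i => by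
      have h1 := hA i
      have h2 : #I ≤ ℵ₀ * #I := Cardinal.le_mul_left Cardinal.aleph0_ne_zero
      exact (h2.trans (Cardinal.cantor _).le).trans h1.le)
    (fun i => (hreg i).aleph0_le) (pairGraph g n) i0
    (fun β => by
      obtain ⟨x, y, h1, h2, h3, h4⟩ := hn β
      exact ⟨x, y, h1, h1.trans h2.le, Or.inl ⟨h2, h3⟩, h4⟩)
  have hinj : ∀ j, Nonempty ({x : L // b x = j} ↪ A j) := by
    intro j
    have h1 : #{x : L // b x = j} ≤ #(A j) :=
      (hfib j).trans ((hB j).symm.le.trans (hA1 j))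
    exact h1
  let ι : ∀ j, {x : L // b x = j} ↪ A j := fun j => Classical.choice (hinj j)
  let p : L → V := fun x => e ⟨b x, (ι (b x) ⟨x, rfl⟩).1⟩
  have hp : Function.Injective p := by
    intro x y hxy
    have h1 := e.injective hxy
    have h2 : b x = b y := congrArg Sigma.fst h1
    have h3 : ∀ (j : I) (hj : b x = j) (hj' : b y = j),
        (⟨b x, (ι (b x) ⟨x, rfl⟩).1⟩ : Σ i, B i) = ⟨b y, (ι (b y) ⟨y, rfl⟩).1⟩ → x = y := by
      intro j hj hj' h
      have e1 : (⟨b x, (ι (b x) ⟨x, rfl⟩).1⟩ : Σ i, B i) = ⟨j, (ι j ⟨x, hj⟩).1⟩ := by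
        subst hj
        rfl
      have e2 : (⟨b y, (ι (b y) ⟨y, rfl⟩).1⟩ : Σ i, B i) = ⟨j, (ι j ⟨y, hj'⟩).1⟩ := by
        subst hj'
        rfl
      rw [e1, e2] at h
      have h4 : (ι j ⟨x, hj⟩).1 = (ι j ⟨y, hj'⟩).1 := by
        simpa using h
      have h5 := (ι j).injective (Subtype.ext h4)
      exact congrArg Subtype.val h5
    exact h3 (b y) h2 rfl h1
  have hedge : ∀ z x : L, (pairGraph g n).Adj (b z) (b x) →
      (colourGraph c n).Adj (p z) (p x) := by
    intro z x hzx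
    have hne : b z ≠ b x := hzx.ne
    refine ⟨fun h => hne (by rw [hp h]), ?_⟩
    rcases hzx with ⟨h1, h2⟩ | ⟨h1, h2⟩
    · have := hA2 (b z) (b x) h1 _ (ι (b z) ⟨z, rfl⟩).2 _ (ι (b x) ⟨x, rfl⟩).2
      exact this.trans h2
    · have := hA2 (b x) (b z) h1 _ (ι (b x) ⟨x, rfl⟩).2 _ (ι (b z) ⟨z, rfl⟩).2
      rw [Sym2.eq_swap]
      exact this.trans h2
  let P : (colourGraph c n).Subgraph := (⊤ : (colourGraph c n).Subgraph).induce (Set.range p)
  let φ : P.verts ≃ L := (Equiv.ofInjective p hp).symm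
  have hφ : ∀ v : P.verts, p (φ v) = v.1 := fun v =>
    congrArg Subtype.val ((Equiv.ofInjective p hp).apply_symm_apply v)
  refine ⟨n, P, ⟨fun v w => φ v < φ w, ?_, ?_⟩, ?_⟩
  · exact (RelEmbedding.preimage φ.toEmbedding ((· < ·) : L → L → Prop)).isWellOrder
  · intro v u huv
    obtain ⟨z, hz1, hz2, hz3⟩ := hpath (φ v) (φ u) huv
    refine ⟨φ.symm z, ?_, ?_, ?_⟩
    · rcases lt_or_eq_of_le hz1 with h | h
      · right
        show φ u < φ (φ.symm z)
        rw [Equiv.apply_symm_apply]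
        exact h
      · left
        rw [← h, Equiv.symm_apply_apply]
    · show φ (φ.symm z) < φ v
      rw [Equiv.apply_symm_apply]
      exact hz2
    · have h1 := hedge z (φ v) hz3
      have h2 : (φ.symm z).1 = p z := by
        rw [← hφ (φ.symm z), Equiv.apply_symm_apply]
      rw [SimpleGraph.Subgraph.coe_adj, SimpleGraph.Subgraph.induce_adj]
      refine ⟨(φ.symm z).2, v.2, ?_⟩
      rw [SimpleGraph.Subgraph.top_adj, h2, ← hφ v]
      exact h1
  · rw [← hcard]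
    exact Cardinal.mk_congr φ

/-- `ℶ_{ω₂}` is in the class. -/
theorem beth_mem : ℶ_ (ω_ 2) ∈ PathCardinals.{u} := by
  have hlim : Order.IsSuccLimit (ω_ (2 : Ordinal.{u})) := Cardinal.isSuccLimit_omega 2
  have hcof2 : (ω_ (2 : Ordinal.{u})).cof = ℵ_ 2 := by
    have h := Cardinal.cof_omega_add_one (1 : Ordinal.{u})
    rw [one_add_one_eq_two] at h
    exact h
  have hcof : (ℶ_ (ω_ (2 : Ordinal.{u}))).ord.cof = ℵ_ 2 := by
    have h := Ordinal.cof_map_of_isNormal (Cardinal.isNormal_ord.comp Cardinal.isNormal_beth) hlim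
    rw [← hcof2]
    exact h
  have hlt : (ℵ_ 2 : Cardinal.{u}) < ℶ_ (ω_ 2) := by
    refine lt_of_lt_of_le ?_ (Cardinal.aleph_le_beth _)
    rw [Cardinal.aleph_lt_aleph]
    exact lt_of_lt_of_le (Ordinal.natCast_lt_omega0 2) (Ordinal.omega0_le_omega 2)
  refine mem_of_strongLimit ?_ ?_ ?_
  · rw [Cardinal.isStrongLimit_beth]
    exact hlim.isSuccPrelimit
  · rw [hcof]; exact hlt
  · exact hcof.ge

/-- **Main theorem.** -/
theorem main :
    ℶ_ (ω_ 2) ∈ PathCardinals.{u} ∧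
    (∀ κ : Cardinal.{u}, κ.IsStrongLimit → κ.IsSingular →
      (κ ∈ PathCardinals ↔ ℵ_ 2 ≤ κ.ord.cof)) ∧
    (∀ κ : Cardinal.{u}, κ ∈ PathCardinals → ℵ_ 2 ≤ κ.ord.cof) :=
  ⟨beth_mem, fun _ h1 h2 => ⟨aleph_two_le_cof, mem_of_strongLimit h1 h2.cof_ord_lt⟩,
    fun _ h => aleph_two_le_cof h⟩

end Pool.H38R3.TransPath
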